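import Pool.Agent.Lib.MP_dd84fd_nt.RZ.Defs

/-!
# RZ-LmA: the function `1 * c`

Elementary.  `lm c` is the Dirichlet convolution of `1` and `c` (both completely multiplicative), so multiplicative
(`Nat.Coprime.sum_divisors_mul` or `ArithmeticFunction`); at prime powers `∑_{i ≤ k} c(p)^i ∈ {k+1, 1, 0 or 1}`, so `≥ 0`.
-/

set_option autoImplicit false

namespace Pool.MP_dd84fd_nt.RZ

open Finset

private noncomputable def LmA_af (c : ℕ → ℝ) : ArithmeticFunction ℝ :=
  ⟨fun n => if n = 0 then 0 else c n, by simp⟩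

private theorem LmA_af_mult {r : ℝ} {c : ℕ → ℝ} (hc : Rc r c) :
    (LmA_af c).IsMultiplicative := by
  rw [ArithmeticFunction.IsMultiplicative.iff_ne_zero]
  refine ⟨?_, ?_⟩
  · show (if (1 : ℕ) = 0 then (0 : ℝ) else c 1) = 1
    rw [if_neg one_ne_zero, hc.one]
  · intro m n hm hn _
    show (if m * n = 0 then (0 : ℝ) else c (m * n)) =
      (if m = 0 then 0 else c m) * (if n = 0 then 0 else c n)
    rw [if_neg (mul_ne_zero hm hn), if_neg hm, if_neg hn, hc.mul]

private theorem LmA_eq (c : ℕ → ℝ) (n : ℕ) :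
    lm c n = (LmA_af c * (ArithmeticFunction.zeta : ArithmeticFunction ℝ)) n := by
  rw [ArithmeticFunction.coe_mul_zeta_apply]
  unfold lm
  refine sum_congr rfl fun d hd => ?_
  have h0 : d ≠ 0 := (Nat.pos_of_mem_divisors hd).ne'
  show c d = if d = 0 then 0 else c d
  rw [if_neg h0]

theorem lm_one {r : ℝ} {c : ℕ → ℝ} (hc : Rc r c) : lm c 1 = 1 := by
  unfold lm
  rw [Nat.divisors_one, sum_singleton, hc.one]

theorem lm_cop {r : ℝ} {c : ℕ → ℝ} (hc : Rc r c) {m n : ℕ} (h : Nat.Coprime m n) :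
    lm c (m * n) = lm c m * lm c n := by
  rw [LmA_eq, LmA_eq, LmA_eq]
  exact ((LmA_af_mult hc).mul ArithmeticFunction.isMultiplicative_zeta.natCast).map_mul_of_coprime h

private theorem LmA_pow {r : ℝ} {c : ℕ → ℝ} (hc : Rc r c) (m k : ℕ) : c (m ^ k) = c m ^ k := by
  induction k with
  | zero => rw [pow_zero, pow_zero, hc.one]
  | succ k ih => rw [pow_succ, pow_succ, hc.mul, ih]

theorem lm_pp {r : ℝ} {c : ℕ → ℝ} (hc : Rc r c) {p : ℕ} (hp : p.Prime) (k : ℕ) :
    lm c (p ^ k) = ∑ i ∈ range (k + 1), c p ^ i := by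
  unfold lm
  rw [Nat.sum_divisors_prime_pow hp]
  exact sum_congr rfl fun i _ => LmA_pow hc p i

theorem lm_nonneg {r : ℝ} {c : ℕ → ℝ} (hc : Rc r c) (n : ℕ) : 0 ≤ lm c n := by
  induction n using Nat.recOnPosPrimePosCoprime with
  | zero => unfold lm; simp
  | one => rw [lm_one hc]; norm_num
  | prime_pow p k hp hk =>
    rw [lm_pp hc hp]
    rcases hc.val p with h | h | h
    · rw [h]
      exact sum_nonneg fun i _ => by rw [one_pow]; norm_num
    · rw [h]
      exact sum_nonneg fun i _ => pow_nonneg le_rfl i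
    · rw [h]
      have key : ∀ k : ℕ, (0 ≤ ∑ i ∈ range (k + 1), (-1 : ℝ) ^ i) ∧
          (∑ i ∈ range (k + 1), (-1 : ℝ) ^ i = (1 + (-1) ^ k) / 2) := by
        intro k
        have h1 : ∑ i ∈ range (k + 1), (-1 : ℝ) ^ i = (1 + (-1) ^ k) / 2 := by
          induction k with
          | zero => norm_num
          | succ k ih =>
            rw [sum_range_succ, ih, pow_succ]
            ring
        refine ⟨?_, h1⟩
        rw [h1]
        rcases neg_one_pow_eq_or ℝ k with h2 | h2 <;> rw [h2] <;> norm_num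
      exact (key k).1
  | coprime a b ha hb hab iha ihb =>
    rw [lm_cop hc hab]
    exact mul_nonneg iha ihb

end Pool.MP_dd84fd_nt.RZ
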