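import Pool.Agent.Lib.MP_dd84fd_nt.RZ.Mel
import Pool.Agent.Lib.MP_dd84fd_nt.RZ.LmA

/-!
# RZ-Part: truncated sum at `σ < 1`; consequence if there is no real zero.  Prefix aux lemmas `part_`.

PROOF of part.  `N(t) = ℓ t + E(t)`.  Partial summation: `∑_{n ≤ x} lm n n^(-σ) = N(x) x^(-σ) + σ ∫_1^x N(t) t^(-σ-1) dt`
`= ℓ x^(1-σ) + E(x) x^(-σ) + σ ℓ (x^(1-σ) - 1)/(1-σ) + σ ∫_1^x E(t) t^(-σ-1) dt`.  With mel:
`σ ∫_1^x E = Re(ζ L)(σ) + ℓ σ/(1-σ) - σ ∫_x^∞ E`, so the sum is `ℓ x^(1-σ)/(1-σ) + Re(ζ L)(σ) + E(x) x^(-σ) - σ ∫_x^∞ E(t) t^(-σ-1) dt`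
(ℓ x^(1-σ)(1 + σ/(1-σ)) = ℓ x^(1-σ)/(1-σ)); the last two terms are at most `10 q x^(1/2-σ) (1 + σ/(σ - 1/2)) ≤ 50 q x^(-1/4)` (nn).
zer: `d` from zeta_neg (SW/RealPos), `≤ 1/4`.  LF_real_pos: `L(σ, χ) > 0` real, `ζ(σ) < 0` real: `Re(ζ L)(σ) < 0`.  `lm ≥ 0` and `n^(-σ) ≥ 1/n`.
-/

set_option autoImplicit false

namespace Pool.MP_dd84fd_nt.RZ

open Finset

private theorem part_lm0 (c : ℕ → ℝ) : lm c 0 = 0 := by
  unfold lm
  rw [Nat.divisors_zero, sum_empty]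

private theorem part_icc (c : ℕ → ℝ) (m : ℕ) : ∑ k ∈ Icc 0 m, lm c k = ∑ k ∈ Icc 1 m, lm c k := by
  rw [← Finset.sum_subset (s₁ := Icc 1 m) (s₂ := Icc 0 m)]
  · intro n hn
    rw [mem_Icc] at hn ⊢
    exact ⟨Nat.zero_le _, hn.2⟩
  · intro n hn hn1
    rw [mem_Icc] at hn hn1
    have : n = 0 := by omega
    rw [this, part_lm0]

private theorem part_abel (c : ℕ → ℝ) (σ x : ℝ) :
    ∑ n ∈ Icc 1 ⌊x⌋₊, lm c n * (n : ℝ) ^ (-σ) =
      x ^ (-σ) * ∑ n ∈ Icc 1 ⌊x⌋₊, lm c n +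
      σ * ∫ t in Set.Ioc (1 : ℝ) x, (∑ n ∈ Icc 1 ⌊t⌋₊, lm c n) * t ^ (-σ - 1) := by
  have hd : ∀ t : ℝ, 0 < t → HasDerivAt (fun t : ℝ => t ^ (-σ)) (-σ * t ^ (-σ - 1)) t := by
    intro t ht
    exact Real.hasDerivAt_rpow_const (Or.inl ht.ne')
  have h1 := sum_mul_eq_sub_integral_mul₀ (c := lm c) (f := fun t : ℝ => t ^ (-σ)) (part_lm0 c) x
    (fun t ht => (hd t (lt_of_lt_of_le one_pos ht.1)).differentiableAt)
    (by
      have h2 : ContinuousOn (fun t : ℝ => -σ * t ^ (-σ - 1)) (Set.Icc 1 x) := by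
        refine ContinuousOn.mul continuousOn_const ?_
        intro t ht
        exact (Real.continuousAt_rpow_const t _
          (Or.inl (lt_of_lt_of_le one_pos ht.1).ne')).continuousWithinAt
      refine (h2.integrableOn_Icc).congr_fun ?_ measurableSet_Icc
      intro t ht
      exact ((hd t (lt_of_lt_of_le one_pos ht.1)).deriv).symm)
  have h3 : ∑ k ∈ Icc 0 ⌊x⌋₊, (fun t : ℝ => t ^ (-σ)) (k : ℝ) * lm c k =
      ∑ n ∈ Icc 1 ⌊x⌋₊, lm c n * (n : ℝ) ^ (-σ) := by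
    rw [← Finset.sum_subset (s₁ := Icc 1 ⌊x⌋₊) (s₂ := Icc 0 ⌊x⌋₊)]
    · refine sum_congr rfl fun n _ => mul_comm _ _
    · intro n hn
      rw [mem_Icc] at hn ⊢
      exact ⟨Nat.zero_le _, hn.2⟩
    · intro n hn hn1
      rw [mem_Icc] at hn hn1
      have : n = 0 := by omega
      rw [this, part_lm0, mul_zero]
  rw [h3] at h1
  rw [h1, part_icc]
  have h4 : ∫ t in Set.Ioc (1 : ℝ) x, deriv (fun t : ℝ => t ^ (-σ)) t *
      ∑ k ∈ Icc 0 ⌊t⌋₊, lm c k =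
      -(σ * ∫ t in Set.Ioc (1 : ℝ) x, (∑ n ∈ Icc 1 ⌊t⌋₊, lm c n) * t ^ (-σ - 1)) := by
    rw [← MeasureTheory.integral_const_mul, ← MeasureTheory.integral_neg]
    refine MeasureTheory.setIntegral_congr_fun measurableSet_Ioc ?_
    intro t ht
    simp only
    rw [(hd t (lt_trans one_pos ht.1)).deriv, part_icc]
    ring
  rw [h4]
  ring

theorem part (q : ℕ) [NeZero q] (χ : DirichletCharacter ℂ q) (h : χ ^ 2 = 1) (h1 : χ ≠ 1) {σ : ℝ}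
    (hσ : 3 / 4 ≤ σ) (hσ1 : σ < 1) {x : ℝ} (hx : 1 ≤ x) :
    |∑ n ∈ Icc 1 ⌊x⌋₊, lm (cr χ) n * (n : ℝ) ^ (-σ) -
      (χ.LFunction 1).re * x ^ (1 - σ) / (1 - σ) - (riemannZeta σ * χ.LFunction σ).re| ≤
      100 * q * x ^ (-(1 / 4 : ℝ)) := by
  obtain ⟨hint, hmel⟩ := mel q χ h h1 (by linarith : (1 : ℝ) / 2 < σ) hσ1
  have hq1 : (1 : ℝ) ≤ q := by
    have : 0 < q := Nat.pos_of_ne_zero (NeZero.ne q)
    exact_mod_cast this
  have hx0 : (0 : ℝ) < x := lt_of_lt_of_le one_pos hx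
  have hσ0 : 0 < 1 - σ := by linarith
  obtain ⟨l, hl⟩ : ∃ l : ℝ, l = (χ.LFunction 1).re := ⟨_, rfl⟩
  obtain ⟨R, hR⟩ : ∃ R : ℝ, R = (riemannZeta σ * χ.LFunction σ).re := ⟨_, rfl⟩
  obtain ⟨N, hN⟩ : ∃ N : ℝ → ℝ, N = fun t => ∑ n ∈ Icc 1 ⌊t⌋₊, lm (cr χ) n := ⟨_, rfl⟩
  obtain ⟨G, hG⟩ : ∃ G : ℝ → ℝ, G = fun t => (N t - l * t) * t ^ (-σ - 1) := ⟨_, rfl⟩
  have hE : ∀ t : ℝ, 1 ≤ t → |N t - l * t| ≤ 10 * q * Real.sqrt t := by
    intro t ht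
    rw [hN, hl]
    exact nn (rc_cr q χ h h1) hq1 (ls_cr q χ h h1) ht
  have hGint : MeasureTheory.IntegrableOn G (Set.Ioi 1) := by
    rw [hG, hN, hl]
    exact hint
  have hmel2 : R = -(l * σ / (1 - σ)) + σ * ∫ t in Set.Ioi (1 : ℝ), G t := by
    rw [hR, hG, hN, hl]
    exact hmel
  -- the integrals
  have hsplit : ∫ t in Set.Ioi (1 : ℝ), G t = (∫ t in Set.Ioc (1 : ℝ) x, G t) +
      ∫ t in Set.Ioi x, G t := by
    have hu : Set.Ioi (1 : ℝ) = Set.Ioc 1 x ∪ Set.Ioi x := (Set.Ioc_union_Ioi_eq_Ioi hx).symm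
    rw [hu, MeasureTheory.setIntegral_union (Set.Ioc_disjoint_Ioi le_rfl) measurableSet_Ioi
      (hGint.mono_set Set.Ioc_subset_Ioi_self) (hGint.mono_set (Set.Ioi_subset_Ioi hx))]
  have hpow : ∫ t in Set.Ioc (1 : ℝ) x, t ^ (-σ) = (x ^ (1 - σ) - 1) / (1 - σ) := by
    have e : -σ + 1 = 1 - σ := by ring
    rw [← intervalIntegral.integral_of_le hx, integral_rpow (Or.inl (by linarith)), e,
      Real.one_rpow]
  have hpint : MeasureTheory.IntegrableOn (fun t : ℝ => t ^ (-σ)) (Set.Ioc 1 x) := by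
    have h2 : ContinuousOn (fun t : ℝ => t ^ (-σ)) (Set.Icc 1 x) := by
      intro t ht
      exact (Real.continuousAt_rpow_const t _
        (Or.inl (lt_of_lt_of_le one_pos ht.1).ne')).continuousWithinAt
    exact h2.integrableOn_Icc.mono_set Set.Ioc_subset_Icc_self
  have hNi : ∫ t in Set.Ioc (1 : ℝ) x, N t * t ^ (-σ - 1) =
      (∫ t in Set.Ioc (1 : ℝ) x, G t) + l * ((x ^ (1 - σ) - 1) / (1 - σ)) := by
    rw [← hpow, ← MeasureTheory.integral_const_mul,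
      ← MeasureTheory.integral_add (hGint.mono_set Set.Ioc_subset_Ioi_self)
        (hpint.const_mul l)]
    refine MeasureTheory.setIntegral_congr_fun measurableSet_Ioc ?_
    intro t ht
    have ht0 : 0 < t := lt_trans one_pos ht.1
    simp only [hG]
    have h3 : t ^ (-σ) = t * t ^ (-σ - 1) := by
      rw [Real.rpow_sub_one ht0.ne']
      field_simp
    rw [h3]
    ring
  have hab := part_abel (cr χ) σ x
  have hNx : ∑ n ∈ Icc 1 ⌊x⌋₊, lm (cr χ) n = N x := by rw [hN]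
  have hNt : ∫ t in Set.Ioc (1 : ℝ) x, (∑ n ∈ Icc 1 ⌊t⌋₊, lm (cr χ) n) * t ^ (-σ - 1) =
      ∫ t in Set.Ioc (1 : ℝ) x, N t * t ^ (-σ - 1) := by rw [hN]
  rw [hNx, hNt, hNi] at hab
  rw [hab, ← hl, ← hR, hmel2, hsplit]
  have hx1 : x ^ (1 - σ) = x * x ^ (-σ) := by
    rw [sub_eq_add_neg, Real.rpow_add hx0, Real.rpow_one]
  have hid : x ^ (-σ) * N x + σ * ((∫ t in Set.Ioc (1 : ℝ) x, G t) +
      l * ((x ^ (1 - σ) - 1) / (1 - σ))) - l * x ^ (1 - σ) / (1 - σ) -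
      (-(l * σ / (1 - σ)) + σ * ((∫ t in Set.Ioc (1 : ℝ) x, G t) + ∫ t in Set.Ioi x, G t)) =
      x ^ (-σ) * (N x - l * x) - σ * ∫ t in Set.Ioi x, G t := by
    have e1 : l * x ^ (1 - σ) / (1 - σ) = l * x ^ (1 - σ) + σ * (l * (x ^ (1 - σ) / (1 - σ))) := by
      field_simp
      ring
    rw [e1, sub_div, hx1]
    ring
  rw [hid]
  -- the bounds
  have hxs : x ^ (-σ) * Real.sqrt x = x ^ (1 / 2 - σ) := by
    rw [Real.sqrt_eq_rpow, ← Real.rpow_add hx0]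
    congr 1
    ring
  have hxm : x ^ (1 / 2 - σ) ≤ x ^ (-(1 / 4 : ℝ)) :=
    Real.rpow_le_rpow_of_exponent_le hx (by linarith)
  have hb1 : |x ^ (-σ) * (N x - l * x)| ≤ 10 * q * x ^ (1 / 2 - σ) := by
    rw [abs_mul, abs_of_pos (Real.rpow_pos_of_pos hx0 _), ← hxs]
    calc x ^ (-σ) * |N x - l * x| ≤ x ^ (-σ) * (10 * q * Real.sqrt x) :=
          mul_le_mul_of_nonneg_left (hE x hx) (Real.rpow_pos_of_pos hx0 _).le
      _ = 10 * q * (x ^ (-σ) * Real.sqrt x) := by ring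
  have hint2 : MeasureTheory.IntegrableOn (fun t : ℝ => 10 * q * t ^ (-1 / 2 - σ)) (Set.Ioi x) :=
    (integrableOn_Ioi_rpow_of_lt (by linarith) hx0).const_mul _
  have hb2 : |∫ t in Set.Ioi x, G t| ≤ 10 * q * (x ^ (1 / 2 - σ) / (σ - 1 / 2)) := by
    have h5 : ∫ t in Set.Ioi x, 10 * q * t ^ (-1 / 2 - σ) =
        10 * q * (x ^ (1 / 2 - σ) / (σ - 1 / 2)) := by
      rw [MeasureTheory.integral_const_mul, integral_Ioi_rpow_of_lt (by linarith) hx0]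
      have h6 : (-1 / 2 - σ + 1) = 1 / 2 - σ := by ring
      rw [h6]
      congr 1
      rw [div_eq_div_iff (by linarith) (by linarith)]
      ring
    rw [← h5, ← Real.norm_eq_abs]
    refine MeasureTheory.norm_integral_le_of_norm_le hint2 ?_
    refine (MeasureTheory.ae_restrict_iff' measurableSet_Ioi).2 (Filter.Eventually.of_forall ?_)
    intro t ht
    have ht1 : 1 ≤ t := le_trans hx (le_of_lt ht)
    have ht0 : 0 < t := lt_of_lt_of_le one_pos ht1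
    rw [Real.norm_eq_abs, hG]
    simp only
    rw [abs_mul, abs_of_pos (Real.rpow_pos_of_pos ht0 _)]
    calc |N t - l * t| * t ^ (-σ - 1) ≤ 10 * q * Real.sqrt t * t ^ (-σ - 1) :=
          mul_le_mul_of_nonneg_right (hE t ht1) (Real.rpow_pos_of_pos ht0 _).le
      _ = 10 * q * t ^ (-1 / 2 - σ) := by
          rw [mul_assoc, Real.sqrt_eq_rpow, ← Real.rpow_add ht0]
          congr 2
          ring
  have hdiv : σ * (x ^ (1 / 2 - σ) / (σ - 1 / 2)) ≤ 3 * x ^ (1 / 2 - σ) := by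
    have h8 : 0 < σ - 1 / 2 := by linarith
    have h9 : 0 < x ^ (1 / 2 - σ) := Real.rpow_pos_of_pos hx0 _
    rw [← mul_div_assoc, div_le_iff₀ h8]
    nlinarith
  have hq0 : (0 : ℝ) ≤ 10 * q := by positivity
  have hσp : 0 ≤ σ := by linarith
  calc |x ^ (-σ) * (N x - l * x) - σ * ∫ t in Set.Ioi x, G t|
      ≤ |x ^ (-σ) * (N x - l * x)| + |σ * ∫ t in Set.Ioi x, G t| := abs_sub _ _
    _ ≤ 10 * q * x ^ (1 / 2 - σ) + σ * (10 * q * (x ^ (1 / 2 - σ) / (σ - 1 / 2))) := by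
        refine add_le_add hb1 ?_
        rw [abs_mul, abs_of_nonneg hσp]
        exact mul_le_mul_of_nonneg_left hb2 hσp
    _ = 10 * q * x ^ (1 / 2 - σ) + 10 * q * (σ * (x ^ (1 / 2 - σ) / (σ - 1 / 2))) := by ring
    _ ≤ 10 * q * x ^ (1 / 2 - σ) + 10 * q * (3 * x ^ (1 / 2 - σ)) :=
        add_le_add le_rfl (mul_le_mul_of_nonneg_left hdiv hq0)
    _ = 40 * q * x ^ (1 / 2 - σ) := by ring
    _ ≤ 100 * q * x ^ (-(1 / 4 : ℝ)) := by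
        have h10 : 0 < x ^ (-(1 / 4 : ℝ)) := Real.rpow_pos_of_pos hx0 _
        have h11 : (0 : ℝ) ≤ q := by linarith
        calc 40 * (q : ℝ) * x ^ (1 / 2 - σ) ≤ 40 * q * x ^ (-(1 / 4 : ℝ)) :=
              mul_le_mul_of_nonneg_left hxm (by positivity)
          _ ≤ 100 * q * x ^ (-(1 / 4 : ℝ)) := by
              have : 0 ≤ (q : ℝ) * x ^ (-(1 / 4 : ℝ)) := by positivity
              nlinarith

/-- if there is no real zero in `[σ, 1)` -/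
theorem zer : ∃ d : ℝ, 0 < d ∧ d ≤ 1 / 4 ∧ ∀ (q : ℕ) [NeZero q] (χ : DirichletCharacter ℂ q),
    χ ^ 2 = 1 → χ ≠ 1 → ∀ σ : ℝ, 1 - d < σ → σ < 1 →
    (∀ t : ℝ, σ ≤ t → t < 1 → χ.LFunction t ≠ 0) → ∀ x : ℝ, 1 ≤ x →
    SL (cr χ) x ≤ (χ.LFunction 1).re * x ^ (1 - σ) / (1 - σ) + 100 * q * x ^ (-(1 / 4 : ℝ)) := by
  obtain ⟨δ, hδ0, hδ1, hδ⟩ := SW.zeta_neg
  refine ⟨min δ (1 / 4), lt_min hδ0 (by norm_num), min_le_right _ _, ?_⟩
  intro q _ χ h h1 σ hσ hσ1 hz x hx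
  have hσ2 : 1 - δ < σ := by
    have := min_le_left δ (1 / 4)
    linarith
  have hσ3 : 3 / 4 ≤ σ := by
    have := min_le_right δ (1 / 4)
    linarith
  obtain ⟨hL, hL0⟩ := SW.LF_real_pos q χ h h1 σ (by linarith) hσ1 hz
  obtain ⟨hZ, hZ0⟩ := hδ σ hσ2 hσ1
  have hneg : (riemannZeta σ * χ.LFunction σ).re < 0 := by
    rw [Complex.mul_re, hL0, hZ0, mul_zero, sub_zero]
    exact mul_neg_of_neg_of_pos hZ hL
  have hp := abs_le.1 (part q χ h h1 hσ3 hσ1 hx)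
  have hle : SL (cr χ) x ≤ ∑ n ∈ Icc 1 ⌊x⌋₊, lm (cr χ) n * (n : ℝ) ^ (-σ) := by
    unfold SL
    refine sum_le_sum fun n hn => ?_
    have hn1 : (1 : ℝ) ≤ n := by exact_mod_cast (mem_Icc.1 hn).1
    rw [div_eq_mul_inv]
    refine mul_le_mul_of_nonneg_left ?_ (lm_nonneg (rc_cr q χ h h1) n)
    rw [← Real.rpow_neg_one]
    exact Real.rpow_le_rpow_of_exponent_le hn1 (by linarith)
  linarith [hp.2]

end Pool.MP_dd84fd_nt.RZ
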