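import Pool.Agent.Lib.MP_dd84fd_nt.RZ.Cmp
import Pool.Agent.Lib.MP_dd84fd_nt.RZ.Part

/-!
# RZ-Fin: a real zero.  Prefix aux lemmas `fin_`.

PROOF.  cmp with `ε = 1/(4e)`.  Suppose there is no zero in `[σ, 1)`, `σ = 1 - 1/log y` (`log y > 1/d`, for `y` large, d from zer):
zer with `x = y`: `y^(1-σ) = e`, `SL y ≤ e ℓ log y + 100 q y^(-1/4) ≤ SL y/4 + 100 q y^(-1/4)` and `q ≤ y^(η/4) ≤ y^(1/8)`:
`100 q y^(-1/4) ≤ 100 y^(-1/8) ≤ 1/4 ≤ SL y/4` (sl_one): `SL y ≤ SL y/2`, contradiction with `SL y ≥ 1`.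
(`q ≥ 1`; rc_cr, ls_cr.)
-/

set_option autoImplicit false

namespace Pool.MP_dd84fd_nt.RZ

open Finset

theorem fin : ∃ η ε1 y0 : ℝ, 0 < η ∧ η ≤ 1 / 2 ∧ 0 < ε1 ∧ 1 ≤ y0 ∧
    ∀ (q : ℕ) [NeZero q] (χ : DirichletCharacter ℂ q), χ ^ 2 = 1 → χ ≠ 1 → ∀ y : ℝ, 1 ≤ y →
    y0 ≤ y ^ η → (q : ℝ) ≤ y ^ (η / 4) → PS (cr χ) (y ^ η) y ≤ ε1 →
    ∃ β : ℝ, 1 - 1 / Real.log y ≤ β ∧ β < 1 ∧ χ.LFunction β = 0 := by
  obtain ⟨η, ε1, y0, hη, hη2, hε1, hy0, hcmp⟩ := cmp (1 / (4 * Real.exp 1)) (by positivity)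
  obtain ⟨d, hd, hd4, hzer⟩ := zer
  refine ⟨η, ε1, max y0 (max (Real.exp (1 / d) + 1) (400 ^ 8)), hη, hη2, hε1,
    hy0.trans (le_max_left _ _), ?_⟩
  intro q _ χ h h1 y hy1 hyη hqy hPS
  by_contra hcon
  push Not at hcon
  have hyy : y ^ η ≤ y := by
    calc y ^ η ≤ y ^ (1 : ℝ) := Real.rpow_le_rpow_of_exponent_le hy1 (by linarith)
      _ = y := Real.rpow_one y
  have hya : y0 ≤ y ^ η := (le_max_left _ _).trans hyη
  have hyb : Real.exp (1 / d) + 1 ≤ y :=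
    ((le_max_left _ _).trans (le_max_right _ _)).trans (hyη.trans hyy)
  have hyc : (400 : ℝ) ^ 8 ≤ y :=
    ((le_max_right _ _).trans (le_max_right _ _)).trans (hyη.trans hyy)
  have hy0' : 0 < y := by linarith
  have hlog : 1 / d < Real.log y := by
    rw [Real.lt_log_iff_exp_lt hy0']
    linarith
  have hd1 : 0 < 1 / d := by positivity
  have hlog0 : 0 < Real.log y := hd1.trans hlog
  have hσ1 : 1 - 1 / Real.log y < 1 := by
    have : 0 < 1 / Real.log y := by positivity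
    linarith
  have hσd : 1 - d < 1 - 1 / Real.log y := by
    have : 1 / Real.log y < d := by
      rw [div_lt_iff₀ hlog0]
      rw [div_lt_iff₀ hd] at hlog
      linarith
    linarith
  have hRc := rc_cr q χ h h1
  have hLs := ls_cr q χ h h1
  have hq1 : (1 : ℝ) ≤ q := by
    exact_mod_cast Nat.one_le_iff_ne_zero.2 (NeZero.ne q)
  have hc := hcmp q (χ.LFunction 1).re (cr χ) hRc hq1 hLs y hy1 hya hqy hPS
  have hz := hzer q χ h h1 (1 - 1 / Real.log y) hσd hσ1 (fun t ht1 ht2 => hcon t ht1 ht2) y hy1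
  have hS := sl_one hRc hy1
  have e1 : y ^ (1 - (1 - 1 / Real.log y)) = Real.exp 1 := by
    rw [sub_sub_cancel, Real.rpow_def_of_pos hy0']
    congr 1
    field_simp
  have e2 : (χ.LFunction 1).re * y ^ (1 - (1 - 1 / Real.log y)) / (1 - (1 - 1 / Real.log y)) =
      Real.exp 1 * ((χ.LFunction 1).re * Real.log y) := by
    rw [e1, sub_sub_cancel]
    field_simp
  rw [e2] at hz
  have e3 : Real.exp 1 * ((χ.LFunction 1).re * Real.log y) ≤ SL (cr χ) y / 4 := by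
    calc Real.exp 1 * ((χ.LFunction 1).re * Real.log y)
        ≤ Real.exp 1 * (1 / (4 * Real.exp 1) * SL (cr χ) y) :=
          mul_le_mul_of_nonneg_left hc (Real.exp_pos 1).le
      _ = SL (cr χ) y / 4 := by
          field_simp
  have e4 : 100 * (q : ℝ) * y ^ (-(1 / 4 : ℝ)) ≤ 1 / 4 := by
    have f1 : (q : ℝ) ≤ y ^ (1 / 8 : ℝ) :=
      hqy.trans (Real.rpow_le_rpow_of_exponent_le hy1 (by linarith))
    have f2 : (q : ℝ) * y ^ (-(1 / 4 : ℝ)) ≤ y ^ (-(1 / 8 : ℝ)) := by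
      calc (q : ℝ) * y ^ (-(1 / 4 : ℝ)) ≤ y ^ (1 / 8 : ℝ) * y ^ (-(1 / 4 : ℝ)) :=
            mul_le_mul_of_nonneg_right f1 (Real.rpow_nonneg hy0'.le _)
        _ = y ^ (-(1 / 8 : ℝ)) := by
            rw [← Real.rpow_add hy0']
            norm_num
    have f3 : (400 : ℝ) ≤ y ^ (1 / 8 : ℝ) := by
      calc (400 : ℝ) = ((400 : ℝ) ^ (8 : ℕ)) ^ (1 / 8 : ℝ) := by
            rw [← Real.rpow_natCast, ← Real.rpow_mul (by norm_num)]
            norm_num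
        _ ≤ y ^ (1 / 8 : ℝ) := Real.rpow_le_rpow (by positivity) hyc (by norm_num)
    have f4 : y ^ (-(1 / 8 : ℝ)) ≤ 1 / 400 := by
      rw [Real.rpow_neg hy0'.le, ← one_div]
      exact one_div_le_one_div_of_le (by norm_num) f3
    nlinarith
  linarith

end Pool.MP_dd84fd_nt.RZ
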