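import Pool.Agent.Lib.MP_dd84fd_nt.QZ.Za

/-!
# RZ-Hsy: from a heavy interval to `Pm`, `Sys`.  Prefix aux lemmas `hsy_`.

PROOF.  This is the part of the proof of `za` (QZ-Za) for ONE character: see its header, and QZ_mod_Za.lean (helper96) in the store when it is delivered
(copy or call its auxiliary lemmas).  `C` from sys_uu; `z = X^δ`, `L = log X`, `h = δ/(2 L^B)`-like, `Ch z (pv ψ)` from ch_pv (`ψ.1 ≤ X^(δ/4) < z`);
`y1 = x + H`, `β = 1`, `α = x/(x+H)`.  (B may be replaced by B + 1 to have L^B large.)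
-/

set_option autoImplicit false

namespace Pool.MP_dd84fd_nt.RZ

open Finset
open Pool.MP_dd84fd_nt.QZ
open Pool.MP_dd84fd_nt.BX (PC pv IsPC)
open Pool.MP_dd84fd_nt.En (Rough rho)

private theorem hsy_rho01 (z : ℝ) (n : ℕ) : 0 ≤ rho z n ∧ rho z n ≤ 1 := by
  unfold rho
  split_ifs <;> norm_num

private theorem hsy_La_le (z : ℝ) (n : ℕ) : La z n ≤ ArithmeticFunction.vonMangoldt n := by
  unfold La
  have h := mul_le_mul_of_nonneg_right (hsy_rho01 z n).2
    (ArithmeticFunction.vonMangoldt_nonneg (n := n))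
  linarith

private theorem hsy_La_nonneg (z : ℝ) (n : ℕ) : 0 ≤ La z n :=
  mul_nonneg (hsy_rho01 z n).1 ArithmeticFunction.vonMangoldt_nonneg

/-- proper prime powers -/
private theorem hsy_diff {z : ℝ} {a b : ℕ} (ha : z ≤ (a : ℝ) + 1) (hb : 1 ≤ b) :
    ∑ n ∈ Ioc a b, (ArithmeticFunction.vonMangoldt n - La z n) ≤
      2 * Real.sqrt b * Real.log b := by
  have h1 := Chebyshev.psi_sub_theta_le (x := (b : ℝ)) (by exact_mod_cast hb)
  rw [Chebyshev.psi_sub_theta_eq_sum_not_prime, Nat.floor_natCast] at h1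
  refine le_trans ?_ h1
  rw [sum_filter]
  calc ∑ n ∈ Ioc a b, (ArithmeticFunction.vonMangoldt n - La z n)
      ≤ ∑ n ∈ Ioc a b, (if ¬ n.Prime then ArithmeticFunction.vonMangoldt n else 0) := by
        refine sum_le_sum fun n hn => ?_
        rw [mem_Ioc] at hn
        by_cases hp : n.Prime
        swap
        · rw [if_pos hp]
          have := hsy_La_nonneg z n
          linarith
        · rw [if_neg (not_not.2 hp)]
          have hr : Rough z n := by
            intro p hp' hpn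
            have h2 : p = n := (Nat.prime_dvd_prime_iff_eq hp' hp).1 hpn
            rw [h2]
            have h3 : a + 1 ≤ n := hn.1
            have h4 : (a : ℝ) + 1 ≤ n := by exact_mod_cast h3
            linarith
          unfold La rho
          rw [if_pos hr]
          linarith
    _ ≤ ∑ n ∈ Ioc 0 b, (if ¬ n.Prime then ArithmeticFunction.vonMangoldt n else 0) := by
        refine sum_le_sum_of_subset_of_nonneg (Ioc_subset_Ioc_left (Nat.zero_le a)) ?_
        intro n _ _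
        by_cases hp : n.Prime
        · rw [if_neg (not_not.2 hp)]
        · rw [if_pos hp]
          exact ArithmeticFunction.vonMangoldt_nonneg

private theorem hsy_uu (z : ℝ) (f : ℕ → ℂ) (hf : ∀ n, ‖f n‖ ≤ 1) (x H lam : ℝ) (hx : 0 < x)
    (hH : 0 < H)
    (hsum : lam * H ≤ ‖∑ n ∈ Ioc ⌊x⌋₊ ⌊x + H⌋₊,
      ((ArithmeticFunction.vonMangoldt n : ℝ) : ℂ) * f n‖)
    (hE : ∑ n ∈ Ioc ⌊x⌋₊ ⌊x + H⌋₊, (ArithmeticFunction.vonMangoldt n - La z n) ≤ lam / 2 * H) :
    lam / 2 ≤ ‖uu z f (x / (x + H)) 1 (x + H)‖ := by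
  have hxH : 0 < x + H := by linarith
  have e1 : (1 - x / (x + H)) * (x + H) = H := by
    field_simp
    ring
  have e2 : x / (x + H) * (x + H) = x := by field_simp
  unfold uu
  rw [e1, e2, one_mul, norm_mul]
  have e3 : ‖((1 / H : ℝ) : ℂ)‖ = 1 / H := by
    rw [Complex.norm_real, Real.norm_of_nonneg (by positivity)]
  rw [e3]
  have h1 : ‖∑ n ∈ Ioc ⌊x⌋₊ ⌊x + H⌋₊, ((ArithmeticFunction.vonMangoldt n : ℝ) : ℂ) * f n‖ ≤
      ‖∑ n ∈ Ioc ⌊x⌋₊ ⌊x + H⌋₊, ((La z n : ℝ) : ℂ) * f n‖ +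
      ∑ n ∈ Ioc ⌊x⌋₊ ⌊x + H⌋₊, (ArithmeticFunction.vonMangoldt n - La z n) := by
    have h2 : ∑ n ∈ Ioc ⌊x⌋₊ ⌊x + H⌋₊, ((ArithmeticFunction.vonMangoldt n : ℝ) : ℂ) * f n =
        ∑ n ∈ Ioc ⌊x⌋₊ ⌊x + H⌋₊, ((La z n : ℝ) : ℂ) * f n +
        ∑ n ∈ Ioc ⌊x⌋₊ ⌊x + H⌋₊,
          ((ArithmeticFunction.vonMangoldt n - La z n : ℝ) : ℂ) * f n := by
      rw [← sum_add_distrib]
      refine sum_congr rfl fun n _ => ?_
      push_cast
      ring
    rw [h2]
    refine (norm_add_le _ _).trans (add_le_add le_rfl ?_)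
    refine (norm_sum_le _ _).trans (sum_le_sum fun n _ => ?_)
    rw [norm_mul, Complex.norm_real, Real.norm_of_nonneg (by linarith [hsy_La_le z n])]
    have h3 := mul_le_mul_of_nonneg_left (hf n)
      (show 0 ≤ ArithmeticFunction.vonMangoldt n - La z n by linarith [hsy_La_le z n])
    linarith
  have h4 : lam / 2 * H ≤ ‖∑ n ∈ Ioc ⌊x⌋₊ ⌊x + H⌋₊, ((La z n : ℝ) : ℂ) * f n‖ := by linarith
  calc lam / 2 = 1 / H * (lam / 2 * H) := by field_simp
    _ ≤ _ := mul_le_mul_of_nonneg_left h4 (by positivity)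

private theorem hsy_sys_mono {C C' z L δ h : ℝ} {f : ℕ → ℂ} {u : ℝ → ℂ} (hS : Sys C z L δ h f u)
    (hC : C ≤ C') (hδ : 0 ≤ δ) (hz : 0 ≤ Real.log z) : Sys C' z L δ h f u where
  mul := hS.mul
  one := hS.one
  bd := fun y => (hS.bd y).trans hC
  zero := hS.zero
  slow := fun y y' h1 h2 h3 => (hS.slow y y' h1 h2 h3).trans (mul_le_mul_of_nonneg_right hC hδ)
  sel := fun y h1 h2 => (hS.sel y h1 h2).trans (mul_le_mul_of_nonneg_right hC hz)

theorem hvy_sys : ∃ C : ℝ, 1 ≤ C ∧ ∀ lam c : ℝ, 0 < lam → 0 < c → ∃ d0 : ℝ, 0 < d0 ∧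
    ∀ δ : ℝ, 0 < δ → δ ≤ d0 → ∀ B : ℕ, ∃ X0 : ℕ, ∀ X : ℕ, X0 ≤ X → ∀ ψ : PC, IsPC ψ → 2 ≤ ψ.1 →
    (ψ.1 : ℝ) ≤ (X : ℝ) ^ (δ / 4) → Hvy lam c B X ψ →
    ∃ (h : ℝ) (u : ℝ → ℂ) (y1 : ℝ), Pm ((X : ℝ) ^ δ) (Real.log X) δ h ∧
      Sys C ((X : ℝ) ^ δ) (Real.log X) δ h (pv ψ) u ∧ Real.exp (c * Real.log X) ≤ y1 ∧
      y1 ≤ Real.exp (Real.log X) ∧ lam / 2 ≤ ‖u y1‖ := by
  obtain ⟨C1, z1, hC1, hz1, hsys⟩ := sys_uu
  obtain ⟨C, hC⟩ : ∃ C : ℝ, C = max 1 C1 := ⟨_, rfl⟩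
  have hCa : 1 ≤ C := by rw [hC]; exact le_max_left _ _
  have hCb : C1 ≤ C := by rw [hC]; exact le_max_right _ _
  refine ⟨C, hCa, fun lam c hlam hc => ⟨min 1 c, lt_min one_pos hc, fun δ hδp hδ B => ?_⟩⟩
  have hδb : δ ≤ 1 := hδ.trans (min_le_left _ _)
  have hδc : δ ≤ c := hδ.trans (min_le_right _ _)
  obtain ⟨Xp, hpm⟩ := pm δ (B + 1) hδp hδb
  have hexp : Filter.Tendsto (fun L : ℝ => Real.exp (δ * L)) Filter.atTop Filter.atTop :=
    Real.tendsto_exp_atTop.comp (Filter.tendsto_id.const_mul_atTop hδp)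
  have hev1 : ∀ᶠ L : ℝ in Filter.atTop, z1 ≤ Real.exp (δ * L) :=
    hexp.eventually (Filter.eventually_ge_atTop _)
  have hev2 : ∀ᶠ L : ℝ in Filter.atTop, max 1 (2 / δ) ≤ L := Filter.eventually_ge_atTop _
  have hev3 : ∀ᶠ L : ℝ in Filter.atTop, ‖L ^ B‖ ≤ δ / 2 * ‖Real.exp (δ / 16 * L)‖ :=
    (isLittleO_pow_exp_pos_mul_atTop (k := B) (b := δ / 16) (by positivity)).bound
      (by positivity)
  have hev4 : ∀ᶠ L : ℝ in Filter.atTop, ‖L ^ (B + 1)‖ ≤ lam / 8 * ‖Real.exp (c / 2 * L)‖ :=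
    (isLittleO_pow_exp_pos_mul_atTop (k := B + 1) (b := c / 2) (by positivity)).bound
      (by positivity)
  have hev := hev1.and (hev2.and (hev3.and hev4))
  have hlim : Filter.Tendsto (fun X : ℕ => Real.log X) Filter.atTop Filter.atTop :=
    Real.tendsto_log_atTop.comp tendsto_natCast_atTop_atTop
  obtain ⟨X1, hX1⟩ := Filter.eventually_atTop.1 (hlim.eventually hev)
  refine ⟨max (max X1 Xp) 1, ?_⟩
  intro X hX ψ hp1 h21 hr1 hh1
  obtain ⟨a1, a2, a3, a4⟩ := hX1 X (((le_max_left _ _).trans (le_max_left _ _)).trans hX)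
  have hXp : Xp ≤ X := ((le_max_right _ _).trans (le_max_left _ _)).trans hX
  have hX1' : 1 ≤ X := (le_max_right _ _).trans hX
  have hX0 : (0 : ℝ) < X := by exact_mod_cast hX1'
  have hX1r : (1 : ℝ) ≤ X := by exact_mod_cast hX1'
  obtain ⟨L, hL⟩ : ∃ L : ℝ, L = Real.log X := ⟨_, rfl⟩
  rw [← hL] at a1 a2 a3 a4
  have hL1 : 1 ≤ L := (le_max_left _ _).trans a2
  have hL2 : 2 / δ ≤ L := (le_max_right _ _).trans a2
  have hL0 : 0 < L := by linarith
  have hexpL : Real.exp L = X := by rw [hL, Real.exp_log hX0]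
  have hpow : ∀ t : ℝ, (X : ℝ) ^ t = Real.exp (t * L) := by
    intro t
    rw [Real.rpow_def_of_pos hX0, hL, mul_comm]
  obtain ⟨z, hz⟩ : ∃ z : ℝ, z = (X : ℝ) ^ δ := ⟨_, rfl⟩
  have hzexp : z = Real.exp (δ * L) := by rw [hz, hpow]
  have hz1' : z1 ≤ z := by rw [hzexp]; exact a1
  have hlogz : Real.log z = δ * L := by rw [hzexp, Real.log_exp]
  have hlogz0 : 0 ≤ Real.log z := by rw [hlogz]; positivity
  have hLB1 : 1 ≤ L ^ B := one_le_pow₀ hL1
  have hLB0 : 0 < L ^ B := by positivity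
  rw [Real.norm_of_nonneg (by positivity), Real.norm_of_nonneg (Real.exp_pos _).le] at a3 a4
  obtain ⟨h, hh⟩ : ∃ h : ℝ, h = δ / (2 * L ^ B) := ⟨_, rfl⟩
  have hh0 : 0 < h := by rw [hh]; positivity
  have hhδ : h ≤ δ := by
    rw [hh]
    refine div_le_self hδp.le ?_
    linarith
  have hh1' : h ≤ 1 := hhδ.trans hδb
  have hhL : 1 ≤ h * L ^ (B + 1) := by
    have e : h * L ^ (B + 1) = δ * L / 2 := by
      rw [hh, pow_succ]
      field_simp
    rw [e]
    rw [div_le_iff₀ hδp] at hL2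
    linarith
  have hhz : 1 ≤ h * z ^ (1 / 16 : ℝ) := by
    have e : z ^ (1 / 16 : ℝ) = Real.exp (δ / 16 * L) := by
      rw [hzexp, ← Real.exp_mul]
      congr 1
      ring
    rw [e, hh, div_mul_eq_mul_div, le_div_iff₀ (by positivity)]
    linarith
  have hPm : Pm z L δ h := by
    have := hpm X hXp h (by rw [← hL]; exact hhL) hhδ
    rw [← hz, ← hL] at this
    exact this
  have hXz : (X : ℝ) ^ (δ / 4) < z := by
    rw [hpow, hzexp]
    apply Real.exp_lt_exp.2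
    have : 0 < δ * L := by positivity
    have e : δ / 4 * L = δ * L / 4 := by ring
    rw [e]
    linarith
  have hch1 : Ch z (pv ψ) := ch_pv ψ hp1 h21 (lt_of_le_of_lt hr1 hXz)
  have hmain : ∀ ψ : PC, Ch z (pv ψ) → Hvy lam c B X ψ → ∃ α y : ℝ,
      Sys C z L δ h (pv ψ) (uu z (pv ψ) α 1) ∧ Real.exp (c * L) ≤ y ∧ y ≤ Real.exp L ∧
      lam / 2 ≤ ‖uu z (pv ψ) α 1 y‖ := by
    intro ψ hch hv
    obtain ⟨x, H, hH0, hxc, hxX, hHx, hxH, hsum⟩ := hv
    rw [← hL] at hxH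
    rw [hpow] at hxc
    have hx0 : 0 < x := lt_of_lt_of_le (Real.exp_pos _) hxc
    have hy0 : 0 < x + H := by linarith
    have eβ : 1 - x / (x + H) = H / (x + H) := by
      field_simp
      ring
    refine ⟨x / (x + H), x + H, ?_, by linarith, by rw [hexpL]; exact hxX, ?_⟩
    · refine hsy_sys_mono (hsys z hz1' (pv ψ) hch (x / (x + H)) 1 δ h L ?_ ?_ le_rfl hh0 hhz ?_ hδb)
        hCb hδp.le hlogz0
      · rw [eβ]
        exact div_le_div_of_nonneg_right hHx hy0.le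
      · rw [div_lt_one hy0]
        linarith
      · rw [eβ, hh, div_le_iff₀ (by positivity)]
        have e : δ * (H / (x + H)) * (2 * L ^ B) = δ * ((2 * (H * L ^ B)) / (x + H)) := by ring
        rw [e]
        have h5 : 1 ≤ (2 * (H * L ^ B)) / (x + H) := by
          rw [le_div_iff₀ hy0]
          have : H * 1 ≤ H * L ^ B := mul_le_mul_of_nonneg_left hLB1 hH0.le
          linarith
        have h6 := mul_le_mul_of_nonneg_left h5 hδp.le
        linarith
    · refine hsy_uu z (pv ψ) hch.bd x H lam hx0 hH0 hsum ?_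
      have hx1 : 1 ≤ x := by
        refine le_trans (Real.one_le_exp ?_) hxc
        positivity
      have hb1 : 1 ≤ ⌊x + H⌋₊ := by
        rw [Nat.one_le_floor_iff]
        linarith
      have hzx : z ≤ (⌊x⌋₊ : ℝ) + 1 := by
        have h7 : z ≤ x := by
          rw [hzexp]
          exact (Real.exp_le_exp.2 (mul_le_mul_of_nonneg_right hδc hL0.le)).trans hxc
        have h8 := Nat.lt_floor_add_one x
        linarith
      refine (hsy_diff hzx hb1).trans ?_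
      have hb1r : (1 : ℝ) ≤ (⌊x + H⌋₊ : ℕ) := by exact_mod_cast hb1
      have hbx : ((⌊x + H⌋₊ : ℕ) : ℝ) ≤ x + H := Nat.floor_le hy0.le
      have hsq : Real.sqrt (⌊x + H⌋₊ : ℕ) ≤ 2 * Real.sqrt x := by
        have e : 2 * Real.sqrt x = Real.sqrt (4 * x) := by
          rw [Real.sqrt_mul (by norm_num), show (4 : ℝ) = 2 ^ 2 by norm_num,
            Real.sqrt_sq (by norm_num)]
        rw [e]
        exact Real.sqrt_le_sqrt (by linarith)
      have hlog : Real.log (⌊x + H⌋₊ : ℕ) ≤ L := by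
        rw [hL]
        exact Real.log_le_log (by linarith) (by linarith)
      have hlog0 : 0 ≤ Real.log (⌊x + H⌋₊ : ℕ) := Real.log_nonneg hb1r
      have hsx : Real.exp (c / 2 * L) ≤ Real.sqrt x := by
        apply Real.le_sqrt_of_sq_le
        rw [← Real.exp_nat_mul]
        refine le_trans (le_of_eq ?_) hxc
        congr 1
        push_cast
        ring
      have hsx0 : 0 ≤ Real.sqrt x := Real.sqrt_nonneg _
      have h9 : 2 * Real.sqrt (⌊x + H⌋₊ : ℕ) * Real.log (⌊x + H⌋₊ : ℕ) ≤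
          4 * Real.sqrt x * L := by
        refine mul_le_mul (by linarith) hlog hlog0 (by positivity)
      refine h9.trans ?_
      have h10 : 4 * Real.sqrt x * L * L ^ B ≤ lam / 2 * H * L ^ B := by
        calc 4 * Real.sqrt x * L * L ^ B = 4 * Real.sqrt x * L ^ (B + 1) := by
              rw [pow_succ]; ring
          _ ≤ 4 * Real.sqrt x * (lam / 8 * Real.sqrt x) := by
              refine mul_le_mul_of_nonneg_left ?_ (by positivity)
              exact a4.trans (mul_le_mul_of_nonneg_left hsx (by positivity))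
          _ = lam / 2 * (Real.sqrt x * Real.sqrt x) := by ring
          _ = lam / 2 * x := by rw [Real.mul_self_sqrt hx0.le]
          _ ≤ lam / 2 * (H * L ^ B) := mul_le_mul_of_nonneg_left hxH (by positivity)
          _ = _ := by ring
      exact le_of_mul_le_mul_right h10 hLB0
  obtain ⟨α, y, s1, b1, b2, b3⟩ := hmain ψ hch1 hh1
  rw [← hz, ← hL]
  exact ⟨h, _, y, hPm, s1, b1, b2, b3⟩

end Pool.MP_dd84fd_nt.RZ
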