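import Pool.Agent.Lib.MP_dd84fd_nt.RZ.RCore
import Pool.Agent.Lib.MP_dd84fd_nt.RZ.Hsy
import Pool.Agent.Lib.MP_dd84fd_nt.RZ.Fin

/-!
# RZ-Rzz: a real heavy character of small conductor has a real zero near 1.  Prefix aux lemmas `rzz_`.

PROOF.  `η, ε1, y0` from fin, `C` from hvy_sys.  `ε = min(η/8, η ε1, ..)`, `δ0` from rcore with `lam/2`, `c`, `ε`; `d0` from hvy_sys;
`δ' = min(δ0, d0, 1)`, `δ = δ'/4`, `M = 1/δ'` (or larger).  Heavy ψ, `ψ.2² = 1`: `pv ψ m ∈ {1, 0, -1}` (cr_eq, rc_cr: `Rc.val`), hvy_sys and rcore give `y`,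
`z = X^δ' ≤ y ≤ X`, `log z ≤ ε log y`.  `y^η ≥ z` (`η log y ≥ (η/ε) log z ≥ log z`), so for a prime `p > y^η`: `La z p = log p ≥ η log y` (p is z-rough) and
`PS (cr χ) (y^η) y ≤ ∑_{p ≤ y, pv ψ p ≠ -1} La z p/(p η log y) ≤ ε/η ≤ ε1`.  `ψ.1 ≤ X^(δ'/4) ≤ z ≤ y^ε ≤ y^(η/4)`; `y^η ≥ z = X^δ' ≥ y0` for large X.
fin: `β ≥ 1 - 1/log y ≥ 1 - 1/(δ' log X)` (log y ≥ log z = δ' log X).  `χ ≠ 1`: primitive modulo `ψ.1 ≥ 2`.
-/

set_option autoImplicit false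

namespace Pool.MP_dd84fd_nt.RZ

open Finset
open Pool.MP_dd84fd_nt.QZ
open Pool.MP_dd84fd_nt.BX (PC pv IsPC)

theorem rzz_ne_one (ψ : PC) (h : IsPC ψ) (h2 : 2 ≤ ψ.1) : ψ.2 ≠ 1 := by
  intro h1
  have h0 : NeZero ψ.1 := ⟨by omega⟩
  have h3 : ψ.2.conductor = ψ.1 := h.2
  rw [h1, DirichletCharacter.conductor_one] at h3
  omega

theorem rzz_La {z : ℝ} {p : ℕ} (hp : p.Prime) (hz : z ≤ p) : La z p = Real.log p := by
  have h1 : Pool.MP_dd84fd_nt.En.Rough z p := by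
    intro r hr hrp
    rw [(Nat.prime_dvd_prime_iff_eq hr hp).1 hrp]
    exact hz
  have h2 : Pool.MP_dd84fd_nt.En.rho z p = 1 := if_pos h1
  unfold La
  rw [h2, one_mul, ArithmeticFunction.vonMangoldt_apply_prime hp]

theorem rzz_La_nonneg (z : ℝ) (m : ℕ) : 0 ≤ La z m := by
  unfold La
  refine mul_nonneg ?_ ArithmeticFunction.vonMangoldt_nonneg
  unfold Pool.MP_dd84fd_nt.En.rho
  split_ifs
  · exact zero_le_one
  · exact le_refl _

open Classical in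
theorem rzz_PS {q : ℕ} [NeZero q] (χ : DirichletCharacter ℂ q) (hχ : χ ^ 2 = 1) {z y η ε : ℝ}
    (hη : 0 < η) (hy : 0 < Real.log y) (hzy : z ≤ y ^ η) (hyp : 0 < y)
    (hs : ∑ m ∈ (Icc 1 ⌊y⌋₊).filter (fun m : ℕ => χ (m : ZMod q) ≠ -1), La z m / m ≤ ε * Real.log y) :
    PS (cr χ) (y ^ η) y ≤ ε / η := by
  have h1 : PS (cr χ) (y ^ η) y ≤ (1 / (η * Real.log y)) *
      ∑ m ∈ (Icc 1 ⌊y⌋₊).filter (fun m : ℕ => χ (m : ZMod q) ≠ -1), La z m / m := by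
    unfold PS
    rw [Finset.mul_sum]
    refine (Finset.sum_le_sum (g := fun p : ℕ => 1 / (η * Real.log y) * (La z p / p)) ?_).trans
      (Finset.sum_le_sum_of_subset_of_nonneg ?_ ?_)
    · intro p hp
      rw [Finset.mem_filter, Finset.mem_Ioc] at hp
      obtain ⟨⟨hp1, hp2⟩, hp3, hp4⟩ := hp
      have hp5 : y ^ η < p := (Nat.floor_lt (Real.rpow_nonneg hyp.le _)).1 hp1
      have hpp : (0 : ℝ) < p := by exact_mod_cast hp3.pos
      rw [rzz_La hp3 (hzy.trans hp5.le)]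
      have h3 : η * Real.log y ≤ Real.log p := by
        rw [← Real.log_rpow hyp]
        exact Real.log_le_log (Real.rpow_pos_of_pos hyp _) hp5.le
      have h4 : 0 < η * Real.log y := mul_pos hη hy
      have h5 : 1 ≤ 1 / (η * Real.log y) * Real.log p := by
        rw [one_div, inv_mul_eq_div, le_div_iff₀ h4, one_mul]
        exact h3
      calc 1 / (p : ℝ) ≤ (1 / (η * Real.log y) * Real.log p) * (1 / p) :=
            le_mul_of_one_le_left (by positivity) h5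
        _ = 1 / (η * Real.log y) * (Real.log p / p) := by ring
    · intro p hp
      rw [Finset.mem_filter, Finset.mem_Ioc] at hp
      obtain ⟨⟨hp1, hp2⟩, hp3, hp4⟩ := hp
      rw [Finset.mem_filter, Finset.mem_Icc]
      refine ⟨⟨hp3.pos, hp2⟩, fun h => hp4 ?_⟩
      rw [← cr_eq q χ hχ p] at h
      exact_mod_cast h
    · intro m _ _
      have := rzz_La_nonneg z m
      positivity
  refine h1.trans ?_
  have h4 : 0 < η * Real.log y := mul_pos hη hy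
  calc (1 / (η * Real.log y)) *
      ∑ m ∈ (Icc 1 ⌊y⌋₊).filter (fun m : ℕ => χ (m : ZMod q) ≠ -1), La z m / m
      ≤ (1 / (η * Real.log y)) * (ε * Real.log y) :=
        mul_le_mul_of_nonneg_left hs (by positivity)
    _ = ε / η := by
        field_simp

theorem real_zero (lam c : ℝ) (hlam : 0 < lam) (hc : 0 < c) : ∃ δ M : ℝ, 0 < δ ∧ 0 < M ∧
    ∀ B : ℕ, ∃ X0 : ℕ, ∀ X : ℕ, X0 ≤ X → ∀ ψ : PC, IsPC ψ → 2 ≤ ψ.1 → (ψ.1 : ℝ) ≤ (X : ℝ) ^ δ →
    ψ.2 ^ 2 = 1 → Hvy lam c B X ψ →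
    ∃ β : ℝ, 1 - M / Real.log X ≤ β ∧ β < 1 ∧ ∃ _ : NeZero ψ.1, ψ.2.LFunction β = 0 := by
  obtain ⟨η, ε1, y0, hη, hη2, hε1, hy0, hfin⟩ := fin
  obtain ⟨C, hC, hhvy⟩ := hvy_sys
  obtain ⟨d0, hd0, hsys⟩ := hhvy lam c hlam hc
  set ε : ℝ := min (η / 8) (η * ε1) with hε
  have hε0 : 0 < ε := lt_min (by positivity) (by positivity)
  have hεa : ε ≤ η / 8 := min_le_left _ _
  have hεb : ε ≤ η * ε1 := min_le_right _ _
  obtain ⟨δ0, hδ0, hcore⟩ := rcore C (lam / 2) c ε hC (by positivity) hc hε0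
  set δ' : ℝ := min (min δ0 d0) 1 with hδ'
  have hδ'0 : 0 < δ' := lt_min (lt_min hδ0 hd0) one_pos
  have hδ'a : δ' ≤ δ0 := (min_le_left _ _).trans (min_le_left _ _)
  have hδ'b : δ' ≤ d0 := (min_le_left _ _).trans (min_le_right _ _)
  refine ⟨δ' / 4, 1 / δ', by positivity, by positivity, fun B => ?_⟩
  obtain ⟨X1, hX1⟩ := hsys δ' hδ'0 hδ'b B
  obtain ⟨X2, hX2⟩ : ∃ X2 : ℕ, ∀ X : ℕ, X2 ≤ X → y0 ≤ (X : ℝ) ^ δ' := by
    have ht : Filter.Tendsto (fun X : ℕ => (X : ℝ) ^ δ') Filter.atTop Filter.atTop :=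
      (tendsto_rpow_atTop hδ'0).comp tendsto_natCast_atTop_atTop
    exact Filter.eventually_atTop.1 (ht.eventually_ge_atTop y0)
  refine ⟨max X1 X2, fun X hX ψ hψ hψ2 hψX hsq hH => ?_⟩
  have hXa := (le_max_left _ _).trans hX
  have hXb := hX2 X ((le_max_right _ _).trans hX)
  obtain ⟨h, u, y1, hPm, hSys, hy1, hy1', hu⟩ := hX1 X hXa ψ hψ hψ2 hψX hH
  have hNZ : NeZero ψ.1 := ⟨by omega⟩
  have hne := rzz_ne_one ψ hψ hψ2
  have hval : ∀ m, pv ψ m = 1 ∨ pv ψ m = 0 ∨ pv ψ m = -1 := by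
    intro m
    have h1 : ((cr ψ.2 m : ℝ) : ℂ) = pv ψ m := cr_eq ψ.1 ψ.2 hsq m
    rcases (rc_cr ψ.1 ψ.2 hsq hne).val m with h2 | h2 | h2
    · left
      rw [← h1, h2]
      simp
    · right
      left
      rw [← h1, h2]
      simp
    · right
      right
      rw [← h1, h2]
      simp
  obtain ⟨y, hzy, hyX, hlog, hsum⟩ := hcore _ _ _ _ _ _ hPm hδ'a hSys hval y1 hy1 hy1' hu
  set z : ℝ := (X : ℝ) ^ δ' with hz
  have hz1 : Real.exp 1 ≤ z := hPm.z0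
  have hz0 : 0 < z := (Real.exp_pos 1).trans_le hz1
  have hy : 0 < y := hz0.trans_le hzy
  have hlz : 1 ≤ Real.log z := by
    rw [← Real.log_exp 1]
    exact Real.log_le_log (Real.exp_pos 1) hz1
  have hlzy : Real.log z ≤ Real.log y := Real.log_le_log hz0 hzy
  have hly : 1 ≤ Real.log y := hlz.trans hlzy
  have hly0 : 0 < Real.log y := by linarith
  have hzL : Real.log z = δ' * Real.log X := hPm.zL
  have hyη : z ≤ y ^ η := by
    rw [← Real.log_le_log_iff hz0 (Real.rpow_pos_of_pos hy _), Real.log_rpow hy]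
    nlinarith
  have hy1 : 1 ≤ y := by
    have : (1 : ℝ) ≤ Real.exp 1 := Real.one_le_exp zero_le_one
    linarith
  have hq : (ψ.1 : ℝ) ≤ y ^ (η / 4) := by
    have hX0 : (0 : ℝ) < X := by
      rcases Nat.eq_zero_or_pos X with h0 | h0
      · rw [h0] at hz
        rw [hz, Nat.cast_zero, Real.zero_rpow hδ'0.ne'] at hz0
        exact absurd hz0 (lt_irrefl _)
      · exact_mod_cast h0
    refine hψX.trans ?_
    rw [← Real.log_le_log_iff (Real.rpow_pos_of_pos hX0 _) (Real.rpow_pos_of_pos hy _),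
      Real.log_rpow hX0, Real.log_rpow hy]
    have e : δ' / 4 * Real.log X = Real.log z / 4 := by
      rw [hzL]
      ring
    rw [e]
    nlinarith
  have hPS : PS (cr ψ.2) (y ^ η) y ≤ ε1 := by
    refine (rzz_PS ψ.2 hsq (z := z) (ε := ε) hη hly0 hyη hy hsum).trans ?_
    rw [div_le_iff₀ hη]
    linarith
  obtain ⟨β, hβ1, hβ2, hβ3⟩ := hfin ψ.1 ψ.2 hsq hne y hy1 (hXb.trans hyη) hq hPS
  refine ⟨β, ?_, hβ2, ‹_›, hβ3⟩
  refine le_trans ?_ hβ1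
  have h5 : 1 / δ' / Real.log X = 1 / Real.log z := by
    rw [hzL, div_div]
  rw [h5]
  have h6 : 1 / Real.log y ≤ 1 / Real.log z := one_div_le_one_div_of_le (by linarith) hlzy
  linarith

end Pool.MP_dd84fd_nt.RZ
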