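import Pool.Agent.Lib.MP_dd84fd_nt.RZ.ASm
import Pool.Agent.Lib.MP_dd84fd_nt.QZ.QFinY
import Pool.Agent.Lib.MP_dd84fd_nt.QZ.QFinB
import Pool.Agent.Lib.MP_dd84fd_nt.XP.Fam

/-!
# RZ-ARes: the three statements with one small modulus of a character with a real zero, from `FinQ` and `GrQ`

The clause on families of even numbers with small pairwise greatest common divisors is `XP.fam_m`,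
`XP.fam_l`.
-/

set_option autoImplicit false

namespace Pool.MP_dd84fd_nt.RZ

open Finset Pool.MP_67663b_nt.Odd Pool.MP_dd84fd_nt.En Pool.MP_dd84fd_nt.E2
open Pool.MP_dd84fd_nt.LX Pool.MP_dd84fd_nt.MX
open Pool.MP_dd84fd_nt.QZ (Hvy QE GrQ FinQ res_mq res_lq)

/-- the moduli after `one_small` -/
theorem small_one {t : ℝ} {M M1 K X : ℕ}
    (h : ∀ D : Finset ℕ, D.card ≤ M →
      (∀ d ∈ D, (Real.log X) ^ (K + 1) ≤ (d : ℝ) ∧ QE M M X d) →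
      ∃ D1 : Finset ℕ, D1.card ≤ M1 ∧
        (∀ d ∈ D1, (Real.log X) ^ K ≤ (d : ℝ) ∧ QX M1 X d ∧ ∃ d' ∈ D, d ≤ d') ∧
        (D1.filter (fun d : ℕ => (d : ℝ) < (X : ℝ) ^ (1 / (M1 : ℝ)))).card ≤ 1 ∧
        ∀ n : ℕ, (∀ d ∈ D1, ¬ d ∣ n) → ∀ d ∈ D, ¬ d ∣ n)
    {D : Finset ℕ} (hc : D.card ≤ M)
    (hd : ∀ d ∈ D, (Real.log X) ^ (K + 1) ≤ (d : ℝ) ∧ (d : ℝ) ≤ t ∧ QE M M X d) :
    ∃ D1 : Finset ℕ, D1.card ≤ M1 ∧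
      (∀ d ∈ D1, (Real.log X) ^ K ≤ (d : ℝ) ∧ (d : ℝ) ≤ t ∧ QX M1 X d) ∧
      (D1.filter (fun d : ℕ => (d : ℝ) < (X : ℝ) ^ (1 / (M1 : ℝ)))).card ≤ 1 ∧
      ∀ n : ℕ, (∀ d ∈ D1, ¬ d ∣ n) → ∀ d ∈ D, ¬ d ∣ n := by
  obtain ⟨D1, a1, a2, a3, a4⟩ := h D hc fun d hdD => ⟨(hd d hdD).1, (hd d hdD).2.2⟩
  refine ⟨D1, a1, fun d hdD => ?_, a3, a4⟩
  obtain ⟨b1, b2, d', b3, b4⟩ := a2 d hdD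
  have : (d : ℝ) ≤ d' := by exact_mod_cast b4
  exact ⟨b1, this.trans (hd d' b3).2.1, b2⟩

open Classical in
/-- exponent 1/7 -/
theorem resX_m (hG : GrQ) : ∀ ε : ℝ, 0 < ε → ∃ M : ℕ, ∀ θ : ℝ, 1 / 7 ≤ θ → θ ≤ 1 → ∀ K : ℕ,
    ∃ X₀ : ℕ, ∀ X : ℕ, X₀ ≤ X →
      (∀ N : Finset ℕ, (∀ n ∈ N, 1 ≤ n ∧ n ≤ X ∧ Even n) →
        (∀ n ∈ N, ∀ m ∈ N, n ≠ m → (Nat.gcd n m : ℝ) < Real.log X ^ K) →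
        ((N.filter (fun n => BadM (1 / 40) 2 n)).card : ℝ) ≤ (X : ℝ) ^ (θ + ε)) ∧
      ∃ D : Finset ℕ, D.card ≤ M ∧
        (∀ d ∈ D, Real.log X ^ K ≤ (d : ℝ) ∧ (d : ℝ) ≤ (X : ℝ) ^ (1 - θ) ∧ QX M X d) ∧
        (D.filter (fun d : ℕ => (d : ℝ) < (X : ℝ) ^ (1 / (M : ℝ)))).card ≤ 1 ∧
        (((Icc 1 X).filter (fun n : ℕ => X < 2 * n ∧ Even n ∧ (∀ d ∈ D, ¬ d ∣ n) ∧
          BadM (1 / 40) 2 n)).card : ℝ) ≤ (X : ℝ) ^ (θ + ε) := by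
  intro ε hε
  obtain ⟨M, hM⟩ := res_mq hG ε hε
  obtain ⟨M1, h1⟩ := one_small M
  refine ⟨M1, fun θ t1 t2 K => ?_⟩
  obtain ⟨X0, hX0⟩ := hM θ t1 t2 (K + 1)
  obtain ⟨X1, hX1⟩ := h1 K
  obtain ⟨X2, hX2⟩ := Pool.MP_dd84fd_nt.XP.fam_m θ ε t1 t2 hε K
  refine ⟨max X0 (max X1 X2), fun X hX => ?_⟩
  simp only [max_le_iff] at hX
  obtain ⟨-, D, c2, c3, c4⟩ := hX0 X hX.1
  obtain ⟨D1, a1, a2, a3, a4⟩ := small_one (hX1 X hX.2.1) c2 c3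
  refine ⟨hX2 X hX.2.2, D1, a1, a2, a3, le_trans ?_ c4⟩
  refine Nat.cast_le.2 (card_le_card fun n hn => ?_)
  rw [mem_filter] at hn ⊢
  exact ⟨hn.1, hn.2.1, hn.2.2.1, a4 n hn.2.2.2.1, hn.2.2.2.2⟩

open Classical in
/-- exponent 1/5 -/
theorem resX_l (hG : GrQ) : ∀ θ ε : ℝ, 1 / 5 ≤ θ → θ < 1 / 3 → 0 < ε → ∃ M : ℕ, ∀ K : ℕ,
    ∃ X₀ : ℕ, ∀ X : ℕ, X₀ ≤ X →
      (∀ N : Finset ℕ, (∀ n ∈ N, 1 ≤ n ∧ n ≤ X ∧ Even n) →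
        (∀ n ∈ N, ∀ m ∈ N, n ≠ m → (Nat.gcd n m : ℝ) < Real.log X ^ K) →
        ((N.filter (fun n => BadL 4 θ n)).card : ℝ) ≤ (X : ℝ) ^ (θ + ε)) ∧
      ∃ D : Finset ℕ, D.card ≤ M ∧
        (∀ d ∈ D, Real.log X ^ K ≤ (d : ℝ) ∧ (d : ℝ) ≤ (X : ℝ) ^ (1 - θ) ∧ QX M X d) ∧
        (D.filter (fun d : ℕ => (d : ℝ) < (X : ℝ) ^ (1 / (M : ℝ)))).card ≤ 1 ∧
        (((Icc 1 X).filter (fun n : ℕ => X < 2 * n ∧ Even n ∧ (∀ d ∈ D, ¬ d ∣ n) ∧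
          BadL 4 θ n)).card : ℝ) ≤ (X : ℝ) ^ (θ + ε) := by
  intro θ ε t1 t2 hε
  obtain ⟨M, hM⟩ := res_lq hG θ ε t1 t2 hε
  obtain ⟨M1, h1⟩ := one_small M
  refine ⟨M1, fun K => ?_⟩
  obtain ⟨X0, hX0⟩ := hM (K + 1)
  obtain ⟨X1, hX1⟩ := h1 K
  obtain ⟨X2, hX2⟩ := Pool.MP_dd84fd_nt.XP.fam_l θ ε t1 t2 hε K
  refine ⟨max X0 (max X1 X2), fun X hX => ?_⟩
  simp only [max_le_iff] at hX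
  obtain ⟨-, D, c2, c3, c4⟩ := hX0 X hX.1
  obtain ⟨D1, a1, a2, a3, a4⟩ := small_one (hX1 X hX.2.1) c2 c3
  refine ⟨hX2 X hX.2.2, D1, a1, a2, a3, le_trans ?_ c4⟩
  refine Nat.cast_le.2 (card_le_card fun n hn => ?_)
  rw [mem_filter] at hn ⊢
  exact ⟨hn.1, hn.2.1, hn.2.2.1, a4 n hn.2.2.2.1, hn.2.2.2.2⟩

/-- exponent 1/3 -/
theorem resX_3 (hF : FinQ) : ∀ η ε : ℝ, 0 < η → 0 < ε → ∃ M : ℕ, ∀ θ : ℝ, 1 / 3 ≤ θ → θ ≤ 1 →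
    ∀ K : ℕ, ∃ X0 : ℕ, ∀ X : ℕ, X0 ≤ X → ∃ D : Finset ℕ, D.card ≤ M ∧
      (∀ d ∈ D, (Real.log X) ^ K ≤ (d : ℝ) ∧ (d : ℝ) ≤ (X : ℝ) ^ (1 - θ) ∧ QX M X d) ∧
      (D.filter (fun d : ℕ => (d : ℝ) < (X : ℝ) ^ (1 / (M : ℝ)))).card ≤ 1 ∧
      ∀ P : ℕ → Prop, ∀ _ : DecidablePred P,
        (∀ n, P n → X < 2 * n ∧ Even n ∧ (∀ d ∈ D, ¬ d ∣ n) ∧
          η * (SS n * JJ n) < |(g n : ℝ) - SS n * JJ n|) →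
        (((Icc 1 X).filter P).card : ℝ) ≤ (X : ℝ) ^ (θ + ε) := by
  intro η ε hη hε
  obtain ⟨M, hM⟩ := hF η ε hη hε
  obtain ⟨M1, h1⟩ := one_small M
  refine ⟨M1, fun θ t1 t2 K => ?_⟩
  obtain ⟨X0, hX0⟩ := hM θ t1 t2 (K + 1)
  obtain ⟨X1, hX1⟩ := h1 K
  refine ⟨max X0 X1, fun X hX => ?_⟩
  obtain ⟨D, c2, c3, c4⟩ := hX0 X ((le_max_left _ _).trans hX)
  obtain ⟨D1, a1, a2, a3, a4⟩ := small_one (hX1 X ((le_max_right _ _).trans hX)) c2 c3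
  refine ⟨D1, a1, a2, a3, fun P hP hPn => c4 P hP fun n hn => ?_⟩
  obtain ⟨b1, b2, b3, b4⟩ := hPn n hn
  exact ⟨b1, b2, a4 n b3, b4⟩

end Pool.MP_dd84fd_nt.RZ
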