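import Pool.Agent.Lib.MP_dd84fd_nt.QZ.QSm
import Pool.Agent.Lib.MP_dd84fd_nt.RZ.Rzz

/-!
# RZ-ASm: at most one of the moduli is small, and its real character has a real zero near 1

As QZ-QSm, with `real_zero`.
-/

set_option autoImplicit false

namespace Pool.MP_dd84fd_nt.RZ

open Finset
open Pool.MP_dd84fd_nt.BX (PC pv IsPC)
open Pool.MP_dd84fd_nt.QZ (Hvy Hvy.mono QE QE.mono za cj isPC_cj hvy_cj real_of_cj)

/-- `χ` has a real zero `β`, `1 - M/log X ≤ β < 1` -/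
def RZero (M X r : ℕ) (χ : DirichletCharacter ℂ r) : Prop :=
  ∃ β : ℝ, 1 - M / Real.log X ≤ β ∧ β < 1 ∧ ∃ _ : NeZero r, χ.LFunction β = 0

/-- `d = r/h`, `h ≤ M`, `r` the conductor of a primitive character with a heavy interval; if
`d < X^(1/M)` then it is real and has a real zero `β ≥ 1 - M/log X` -/
def QX (M X d : ℕ) : Prop :=
  ∃ (r h : ℕ) (χ : DirichletCharacter ℂ r), χ.IsPrimitive ∧ 1 ≤ h ∧ h ≤ M ∧ d * h = r ∧
    Hvy (1 / (M : ℝ)) (1 / 11) M X ⟨r, χ⟩ ∧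
    ((d : ℝ) < (X : ℝ) ^ (1 / (M : ℝ)) → χ ^ 2 = 1 ∧ RZero M X r χ)

theorem RZero.mono {M N X r : ℕ} {χ : DirichletCharacter ℂ r} (h : RZero M X r χ) (h1 : M ≤ N)
    (hL : 0 ≤ Real.log X) : RZero N X r χ := by
  obtain ⟨β, z1, z2, z3⟩ := h
  refine ⟨β, le_trans ?_ z1, z2, z3⟩
  have e1 : (M : ℝ) / Real.log X ≤ N / Real.log X :=
    div_le_div_of_nonneg_right (by exact_mod_cast h1) hL
  linarith

/-- `QX` is monotone -/
theorem QX.mono {M N X d : ℕ} (h : QX M X d) (h1 : M ≤ N) (hX : 1 ≤ X)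
    (hL : 1 ≤ Real.log X) : QX N X d := by
  obtain ⟨r, k, χ, g1, g2, g3, g4, g5, g6⟩ := h
  have hM : 0 < M := lt_of_lt_of_le g2 g3
  have hM' : (0 : ℝ) < M := by exact_mod_cast hM
  have hMN : (M : ℝ) ≤ N := by exact_mod_cast h1
  refine ⟨r, k, χ, g1, g2, g3.trans h1, g4,
    g5.mono (one_div_le_one_div_of_le hM' hMN) le_rfl h1 hL, fun hd => ?_⟩
  have h2 : (d : ℝ) < (X : ℝ) ^ (1 / (M : ℝ)) :=
    lt_of_lt_of_le hd (Real.rpow_le_rpow_of_exponent_le (by exact_mod_cast hX)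
      (one_div_le_one_div_of_le hM' hMN))
  exact ⟨(g6 h2).1, (g6 h2).2.mono h1 (by linarith)⟩

private theorem asm_log (K : ℝ) : ∃ X0 : ℕ, ∀ X : ℕ, X0 ≤ X → K ≤ Real.log (X : ℝ) := by
  have h : Filter.Tendsto (fun n : ℕ => Real.log (n : ℝ)) Filter.atTop Filter.atTop :=
    Real.tendsto_log_atTop.comp tendsto_natCast_atTop_atTop
  exact Filter.eventually_atTop.1 (h.eventually_ge_atTop K)

private theorem asm_pow (K c : ℝ) (hc : 0 < c) : ∃ X0 : ℕ, ∀ X : ℕ, X0 ≤ X → K ≤ (X : ℝ) ^ c := by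
  have h := ((tendsto_rpow_atTop hc).comp
    (tendsto_natCast_atTop_atTop (R := ℝ))).eventually_ge_atTop K
  exact Filter.eventually_atTop.1 h

/-- (SM) -/
theorem one_small (M : ℕ) : ∃ M1 : ℕ, ∀ K : ℕ, ∃ X0 : ℕ, ∀ X : ℕ, X0 ≤ X →
    ∀ D : Finset ℕ, D.card ≤ M →
    (∀ d ∈ D, (Real.log X) ^ (K + 1) ≤ (d : ℝ) ∧ QE M M X d) →
    ∃ D1 : Finset ℕ, D1.card ≤ M1 ∧
      (∀ d ∈ D1, (Real.log X) ^ K ≤ (d : ℝ) ∧ QX M1 X d ∧ ∃ d' ∈ D, d ≤ d') ∧
      (D1.filter (fun d : ℕ => (d : ℝ) < (X : ℝ) ^ (1 / (M1 : ℝ)))).card ≤ 1 ∧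
      ∀ n : ℕ, (∀ d ∈ D1, ¬ d ∣ n) → ∀ d ∈ D, ¬ d ∣ n := by
  classical
  obtain ⟨m, hm⟩ : ∃ m : ℕ, m = M + 1 := ⟨_, rfl⟩
  have hm0 : (0 : ℝ) < m := by rw [hm]; positivity
  obtain ⟨δ, hδ, hza⟩ := za (1 / (m : ℝ)) (1 / 11) (by positivity) (by norm_num)
  obtain ⟨X1, hza⟩ := hza m
  obtain ⟨δz, Mz, hδz, hMz, hrz⟩ := real_zero (1 / (m : ℝ)) (1 / 11) (by positivity) (by norm_num)
  obtain ⟨Xz, hrz⟩ := hrz m
  obtain ⟨M1, hM1⟩ : ∃ M1 : ℕ, M1 = m.factorial + ⌈2 / δ⌉₊ + m + ⌈2 / δz⌉₊ + ⌈Mz⌉₊ := ⟨_, rfl⟩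
  have f1 : 1 ≤ m.factorial := Nat.one_le_iff_ne_zero.2 (Nat.factorial_ne_zero m)
  have g1 : m.factorial ≤ M1 := by omega
  have g2 : m ≤ M1 := by omega
  have g3 : 2 / δ ≤ (M1 : ℝ) := by
    refine (Nat.le_ceil (2 / δ)).trans ?_
    exact_mod_cast (by omega : ⌈2 / δ⌉₊ ≤ M1)
  have g4 : 2 / δz ≤ (M1 : ℝ) := by
    refine (Nat.le_ceil (2 / δz)).trans ?_
    exact_mod_cast (by omega : ⌈2 / δz⌉₊ ≤ M1)
  have g5 : Mz ≤ (M1 : ℝ) := by
    refine (Nat.le_ceil Mz).trans ?_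
    exact_mod_cast (by omega : ⌈Mz⌉₊ ≤ M1)
  have hM10 : (0 : ℝ) < M1 := lt_of_lt_of_le (by positivity) g3
  refine ⟨M1, fun K => ?_⟩
  obtain ⟨X2, h2⟩ := asm_log (max 2 (m.factorial : ℝ))
  obtain ⟨X3, h3⟩ := asm_pow (m : ℝ) (δ / 2) (by positivity)
  obtain ⟨X4, h4⟩ := asm_pow (m : ℝ) (δz / 2) (by positivity)
  refine ⟨max (max (max X1 1) (max X2 X3)) (max X4 Xz), fun X hX D hD hd => ?_⟩
  simp only [max_le_iff] at hX
  obtain ⟨⟨⟨x1, x1'⟩, x2, x3⟩, x4, xz⟩ := hX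
  have hPz := h4 X x4
  have hrz := hrz X xz
  have hL := h2 X x2
  have hP := h3 X x3
  have hza := hza X x1
  have hX1 : (1 : ℝ) ≤ X := by exact_mod_cast x1'
  obtain ⟨L, hLd⟩ : ∃ L : ℝ, L = Real.log (X : ℝ) := ⟨_, rfl⟩
  rw [← hLd] at hL
  have hL2 : 2 ≤ L := (le_max_left _ _).trans hL
  have hLf : (m.factorial : ℝ) ≤ L := (le_max_right _ _).trans hL
  have hL1 : 1 ≤ Real.log (X : ℝ) := by rw [← hLd]; linarith
  obtain ⟨P, hPd⟩ : ∃ P : ℝ, P = (X : ℝ) ^ (1 / (M1 : ℝ)) := ⟨_, rfl⟩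
  have hPδ : P ≤ (X : ℝ) ^ (δ / 2) := by
    rw [hPd]
    refine Real.rpow_le_rpow_of_exponent_le hX1 ?_
    have e1 : (1 : ℝ) / M1 ≤ 1 / (2 / δ) := one_div_le_one_div_of_le (by positivity) g3
    rwa [one_div_div] at e1
  have hPδz : P ≤ (X : ℝ) ^ (δz / 2) := by
    rw [hPd]
    refine Real.rpow_le_rpow_of_exponent_le hX1 ?_
    have e1 : (1 : ℝ) / M1 ≤ 1 / (2 / δz) := one_div_le_one_div_of_le (by positivity) g4
    rwa [one_div_div] at e1
  -- the character of a small modulus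
  have key : ∀ d ∈ D, (d : ℝ) < P → ∀ (r h : ℕ) (χ : DirichletCharacter ℂ r), χ.IsPrimitive →
      1 ≤ h → h ≤ m → d * h = r → 1 ≤ r ∧ 2 ≤ r ∧ (r : ℝ) ≤ (X : ℝ) ^ δ ∧
        (r : ℝ) ≤ (X : ℝ) ^ δz := by
    intro d hdD hdP r h χ _ h1 h2 h3
    have hd1 : (2 : ℝ) ≤ d := by
      refine le_trans ?_ (hd d hdD).1
      rw [← hLd, pow_succ]
      have : (1 : ℝ) ≤ L ^ K := one_le_pow₀ (by linarith)
      nlinarith
    have hd2 : 2 ≤ d := by exact_mod_cast hd1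
    have hr2 : 2 ≤ r := by
      rw [← h3]
      calc 2 ≤ d := hd2
        _ = d * 1 := (mul_one d).symm
        _ ≤ d * h := Nat.mul_le_mul_left d h1
    have e1 : (r : ℝ) = d * h := by rw [← h3]; push_cast; ring
    have hh0 : (0 : ℝ) ≤ h := Nat.cast_nonneg h
    have hhm : (h : ℝ) ≤ m := by exact_mod_cast h2
    refine ⟨by omega, hr2, ?_, ?_⟩
    · calc (r : ℝ) = d * h := e1
        _ ≤ (X : ℝ) ^ (δ / 2) * (X : ℝ) ^ (δ / 2) :=
            mul_le_mul (hdP.le.trans hPδ) (hhm.trans hP) hh0 (by positivity)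
        _ = (X : ℝ) ^ δ := by
            rw [← Real.rpow_add (by linarith)]
            congr 1
            ring
    · calc (r : ℝ) = d * h := e1
        _ ≤ (X : ℝ) ^ (δz / 2) * (X : ℝ) ^ (δz / 2) :=
            mul_le_mul (hdP.le.trans hPδz) (hhm.trans hPz) hh0 (by positivity)
        _ = (X : ℝ) ^ δz := by
            rw [← Real.rpow_add (by linarith)]
            congr 1
            ring
  have hQ : ∀ d ∈ D, QE m m X d := fun d hdD => (hd d hdD).2.mono (by omega) (by omega) hL1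
  obtain ⟨Dl, hDl⟩ : ∃ Dl : Finset ℕ, Dl = D.filter (fun d : ℕ => ¬ (d : ℝ) < P) := ⟨_, rfl⟩
  have hDl1 : ∀ d ∈ Dl, (Real.log X) ^ K ≤ (d : ℝ) ∧ QX M1 X d ∧ ∃ d' ∈ D, d ≤ d' := by
    intro d hdl
    rw [hDl, mem_filter] at hdl
    obtain ⟨hdD, hdP⟩ := hdl
    refine ⟨(pow_le_pow_right₀ hL1 (by omega)).trans (hd d hdD).1, ?_, d, hdD, le_rfl⟩
    obtain ⟨r, h, χ, a1, a2, a3, a4, a5⟩ := hQ d hdD
    refine ⟨r, h, χ, a1, a2, a3.trans g2, a4, a5.mono ?_ le_rfl g2 hL1, fun hh => ?_⟩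
    · exact one_div_le_one_div_of_le hm0 (by exact_mod_cast g2)
    · rw [← hPd] at hh
      exact absurd hh hdP
  by_cases hs : ∃ d0 ∈ D, (d0 : ℝ) < P
  · obtain ⟨d0, hd0D, hd0P⟩ := hs
    obtain ⟨r0, k0, χ0, b1, b2, b3, b4, b5⟩ := hQ d0 hd0D
    obtain ⟨c1, c2, c3, c4⟩ := key d0 hd0D hd0P r0 k0 χ0 b1 b2 b3 b4
    have hpc0 : IsPC (⟨r0, χ0⟩ : PC) := ⟨c1, b1⟩
    have hreal : χ0 ^ 2 = 1 :=
      real_of_cj (hza ⟨r0, χ0⟩ (cj ⟨r0, χ0⟩) hpc0 (isPC_cj hpc0) c2 c2 c3 c3 b5 (hvy_cj b5))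
    have hzero : RZero M1 X r0 χ0 := by
      obtain ⟨β, z1, z2, z3⟩ := hrz ⟨r0, χ0⟩ hpc0 c2 c4 hreal b5
      refine ⟨β, le_trans ?_ z1, z2, z3⟩
      have e1 : Mz / Real.log X ≤ M1 / Real.log X := div_le_div_of_nonneg_right g5 (by linarith)
      linarith
    obtain ⟨g0, hg0⟩ : ∃ g0 : ℕ, g0 = Nat.gcd r0 m.factorial := ⟨_, rfl⟩
    have hg0r : g0 ∣ r0 := by rw [hg0]; exact Nat.gcd_dvd_left _ _
    have hg0f : g0 ≤ m.factorial := by
      rw [hg0]; exact Nat.le_of_dvd (Nat.factorial_pos m) (Nat.gcd_dvd_right _ _)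
    have hg01 : 1 ≤ g0 := Nat.pos_of_dvd_of_pos hg0r (by omega)
    obtain ⟨d1, hd1⟩ : ∃ d1 : ℕ, d1 = r0 / g0 := ⟨_, rfl⟩
    have hd1g : d1 * g0 = r0 := by rw [hd1]; exact Nat.div_mul_cancel hg0r
    have hdiv : ∀ d ∈ D, (d : ℝ) < P → d1 ∣ d := by
      intro d hdD hdP
      obtain ⟨r, h, χ, a1, a2, a3, a4, a5⟩ := hQ d hdD
      obtain ⟨e1, e2, e3, -⟩ := key d hdD hdP r h χ a1 a2 a3 a4
      have heq : (⟨r, χ⟩ : PC) = ⟨r0, χ0⟩ :=
        hza ⟨r, χ⟩ ⟨r0, χ0⟩ ⟨e1, a1⟩ hpc0 e2 c2 e3 c3 a5 b5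
      have hr : r = r0 := congrArg Sigma.fst heq
      have hh : h ∣ g0 := by
        rw [hg0]
        refine Nat.dvd_gcd ?_ (Nat.dvd_factorial (by omega) a3)
        rw [← hr, ← a4]
        exact Dvd.intro_left d rfl
      obtain ⟨k, hk⟩ := hh
      refine ⟨k, ?_⟩
      have e4 : d * h = d1 * k * h := by
        rw [a4, hr, ← hd1g, hk]
        ring
      exact Nat.eq_of_mul_eq_mul_right (by omega) e4
    have hd0pos : 0 < d0 := by
      rcases Nat.eq_zero_or_pos d0 with h | h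
      · rw [h, zero_mul] at b4
        omega
      · exact h
    refine ⟨insert d1 Dl, ?_, ?_, ?_, ?_⟩
    · refine (card_insert_le _ _).trans ?_
      have : Dl.card ≤ D.card := by rw [hDl]; exact card_filter_le _ _
      omega
    · intro d hdd
      rw [mem_insert] at hdd
      rcases hdd with rfl | hdd
      · refine ⟨?_, ⟨r0, g0, χ0, b1, hg01, hg0f.trans g1, hd1g, b5.mono ?_ le_rfl g2 hL1,
          fun _ => ⟨hreal, hzero⟩⟩, d0, hd0D, Nat.le_of_dvd hd0pos (hdiv d0 hd0D hd0P)⟩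
        · rw [← hLd]
          have e1 : (d : ℝ) * g0 = r0 := by exact_mod_cast hd1g
          have e2 : (d0 : ℝ) ≤ r0 := by
            have : d0 ≤ r0 := by
              rw [← b4]
              exact Nat.le_mul_of_pos_right d0 (by omega)
            exact_mod_cast this
          have e3 := (hd d0 hd0D).1
          rw [← hLd, pow_succ] at e3
          have e4 : (g0 : ℝ) ≤ L := by
            have : (g0 : ℝ) ≤ m.factorial := by exact_mod_cast hg0f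
            linarith
          have e5 : L ^ K * g0 ≤ d * g0 := by
            rw [e1]
            refine le_trans ?_ (e3.trans e2)
            exact mul_le_mul_of_nonneg_left e4 (by positivity)
          exact le_of_mul_le_mul_right e5 (by exact_mod_cast hg01)
        · exact one_div_le_one_div_of_le hm0 (by exact_mod_cast g2)
      · exact hDl1 d hdd
    · rw [← hPd]
      have : (insert d1 Dl).filter (fun d : ℕ => (d : ℝ) < P) ⊆ {d1} := by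
        intro d hdd
        rw [mem_filter, mem_insert] at hdd
        rcases hdd with ⟨rfl | h1, h2⟩
        · exact mem_singleton_self _
        · rw [hDl, mem_filter] at h1
          exact absurd h2 h1.2
      exact (card_le_card this).trans (by simp)
    · intro n hn d hdD hdn
      by_cases hdP : (d : ℝ) < P
      · exact hn d1 (mem_insert_self _ _) ((hdiv d hdD hdP).trans hdn)
      · exact hn d (mem_insert_of_mem (by rw [hDl, mem_filter]; exact ⟨hdD, hdP⟩)) hdn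
  · push Not at hs
    refine ⟨Dl, ?_, hDl1, ?_, ?_⟩
    · have : Dl.card ≤ D.card := by rw [hDl]; exact card_filter_le _ _
      omega
    · rw [← hPd]
      have : Dl.filter (fun d : ℕ => (d : ℝ) < P) = ∅ := by
        rw [filter_eq_empty_iff]
        intro d hdd
        rw [hDl, mem_filter] at hdd
        exact hdd.2
      rw [this]
      simp
    · intro n hn d hdD
      exact hn d (by rw [hDl, mem_filter]; exact ⟨hdD, not_lt.2 (hs d hdD)⟩)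

end Pool.MP_dd84fd_nt.RZ
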