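import Pool.Agent.Lib.MP_dd84fd_nt.RZ.ASm
import Pool.Agent.Lib.MP_dd84fd_nt.QZ.Hv

/-!
# RZ-ASn: among characters with large norm `sN` at most one has a small modulus; it is real and has a
real zero near 1
-/

set_option autoImplicit false

namespace Pool.MP_dd84fd_nt.RZ

open Finset
open Pool.MP_dd84fd_nt.BX (PC pv IsPC sN)
open Pool.MP_dd84fd_nt.QZ (Hvy Hvy.mono hv_win za cj isPC_cj hvy_cj real_of_cj)

open Classical in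
/-- (SM) for a family of primitive characters with `κ ≤ sN`, the form used by EF -/
theorem small_sN (κ : ℝ) (hκ : 0 < κ) : ∃ N : ℕ, 1 ≤ N ∧ ∀ B : ℕ, ∃ X0 : ℕ, ∀ X : ℕ, X0 ≤ X →
    ∀ T : ℝ, 1 ≤ T → T ≤ (Real.log X) ^ B → ∀ Y : Finset PC,
    (∀ ψ ∈ Y, IsPC ψ ∧ 2 ≤ ψ.1 ∧ κ ≤ sN X T ψ) →
    (Y.filter (fun ψ : PC => (ψ.1 : ℝ) < (X : ℝ) ^ (1 / (N : ℝ)))).card ≤ 1 ∧
    ∀ ψ ∈ Y, (ψ.1 : ℝ) < (X : ℝ) ^ (1 / (N : ℝ)) → ψ.2 ^ 2 = 1 ∧ RZero N X ψ.1 ψ.2 := by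
  obtain ⟨lam, hlam, hv⟩ := hv_win κ hκ
  obtain ⟨δ, hδ, hza⟩ := za lam (1 / 2) hlam (by norm_num)
  obtain ⟨δz, Mz, hδz, hMz, hrz⟩ := real_zero lam (1 / 2) hlam (by norm_num)
  obtain ⟨N, hN'⟩ := exists_nat_ge (max (max (1 / δ) (1 / δz)) Mz)
  have hN : 1 / δ ≤ (N : ℝ) := (le_max_left _ _).trans ((le_max_left _ _).trans hN')
  have hNz : 1 / δz ≤ (N : ℝ) := (le_max_right _ _).trans ((le_max_left _ _).trans hN')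
  have hNM : Mz ≤ (N : ℝ) := (le_max_right _ _).trans hN'
  refine ⟨N + 1, by omega, fun B => ?_⟩
  obtain ⟨B', X1, hv⟩ := hv B
  obtain ⟨X2, hza⟩ := hza B'
  obtain ⟨X3, hrz⟩ := hrz B'
  refine ⟨max (max X1 X2) (max X3 1), fun X hX T hT1 hT2 Y hY => ?_⟩
  simp only [max_le_iff] at hX
  obtain ⟨⟨x1, x2⟩, x4, x3⟩ := hX
  have hX1 : (1 : ℝ) ≤ X := by exact_mod_cast x3
  have hP : (X : ℝ) ^ (1 / ((N + 1 : ℕ) : ℝ)) ≤ (X : ℝ) ^ δ := by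
    refine Real.rpow_le_rpow_of_exponent_le hX1 ?_
    have e1 : (1 : ℝ) / δ ≤ ((N + 1 : ℕ) : ℝ) := by
      push_cast
      linarith
    have e2 : (1 : ℝ) / ((N + 1 : ℕ) : ℝ) ≤ 1 / (1 / δ) :=
      one_div_le_one_div_of_le (by positivity) e1
    rwa [one_div_one_div] at e2
  have hPz : (X : ℝ) ^ (1 / ((N + 1 : ℕ) : ℝ)) ≤ (X : ℝ) ^ δz := by
    refine Real.rpow_le_rpow_of_exponent_le hX1 ?_
    have e1 : (1 : ℝ) / δz ≤ ((N + 1 : ℕ) : ℝ) := by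
      push_cast
      linarith
    have e2 : (1 : ℝ) / ((N + 1 : ℕ) : ℝ) ≤ 1 / (1 / δz) :=
      one_div_le_one_div_of_le (by positivity) e1
    rwa [one_div_one_div] at e2
  have hh : ∀ ψ ∈ Y, Hvy lam (1 / 2) B' X ψ := fun ψ hψ => hv X x1 T hT1 hT2 ψ (hY ψ hψ).2.2
  constructor
  · rw [card_le_one]
    intro ψ₁ h1 ψ₂ h2
    rw [mem_filter] at h1 h2
    exact hza X x2 ψ₁ ψ₂ (hY ψ₁ h1.1).1 (hY ψ₂ h2.1).1 (hY ψ₁ h1.1).2.1 (hY ψ₂ h2.1).2.1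
      (h1.2.le.trans hP) (h2.2.le.trans hP) (hh ψ₁ h1.1) (hh ψ₂ h2.1)
  · intro ψ hψ hs
    have hreal : ψ.2 ^ 2 = 1 :=
      real_of_cj (hza X x2 ψ (cj ψ) (hY ψ hψ).1 (isPC_cj (hY ψ hψ).1) (hY ψ hψ).2.1
        (hY ψ hψ).2.1 (hs.le.trans hP) (hs.le.trans hP) (hh ψ hψ) (hvy_cj (hh ψ hψ)))
    obtain ⟨β, z1, z2, z3⟩ := hrz X x4 ψ (hY ψ hψ).1 (hY ψ hψ).2.1 (hs.le.trans hPz) hreal
      (hh ψ hψ)
    refine ⟨hreal, β, le_trans ?_ z1, z2, z3⟩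
    have hL0 : 0 ≤ Real.log (X : ℝ) := Real.log_nonneg hX1
    have e1 : Mz / Real.log X ≤ ((N + 1 : ℕ) : ℝ) / Real.log X := by
      refine div_le_div_of_nonneg_right ?_ hL0
      push_cast
      linarith
    linarith

end Pool.MP_dd84fd_nt.RZ
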