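import Pool.Agent.Lib.MP_dd84fd_nt.RZ.ARes
import Pool.Agent.Lib.MP_dd84fd_nt.QZ.QMain
import Pool.Agent.Lib.MP_dd84fd_nt.XP.WinA
import Pool.Agent.Lib.MP_dd84fd_nt.XP.Every
import Pool.Agent.Lib.MP_dd84fd_nt.XP.Big

/-!
# RZ-AWin: the final statements for the exponents 1/7 and 1/5, all clauses with one `M`

(1) windows of any length, every interval of length `≥ X^(θ+ε)`; (2) families with small pairwise
greatest common divisors; (3) the set `D` of moduli, and the even numbers with a prime factor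
`> X^(1-1/M)`, for which only the small modulus matters.
-/

set_option autoImplicit false

namespace Pool.MP_dd84fd_nt.RZ

open Finset Pool.MP_67663b_nt.Odd Pool.MP_dd84fd_nt.En Pool.MP_dd84fd_nt.E2
open Pool.MP_dd84fd_nt.LX Pool.MP_dd84fd_nt.MX

open Classical in
/-- the windows, every interval and the set `D` for one property `P` -/
def WinC (P : ℕ → Prop) (θ ε : ℝ) (M K X : ℕ) : Prop :=
  (((Icc 1 X).filter (fun n : ℕ => ∃ W : ℕ, n + W ≤ X ∧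
    (M : ℝ) + W / Real.log X ^ K < (((Icc n (n + W)).filter
      (fun m : ℕ => Even m ∧ P m)).card : ℝ))).card : ℝ) ≤ (X : ℝ) ^ (θ + ε) ∧
  (∀ n W : ℕ, 1 ≤ n → n + W ≤ X → (X : ℝ) ^ (θ + ε) ≤ W →
    (((Icc n (n + W)).filter (fun m : ℕ => Even m ∧ P m)).card : ℝ) ≤ W / Real.log X ^ K)

open Classical in
/-- the set `D` -/
def ModC (P : ℕ → Prop) (θ ε : ℝ) (M K X : ℕ) : Prop :=
  ∃ D : Finset ℕ, D.card ≤ M ∧
    (∀ d ∈ D, Real.log X ^ K ≤ (d : ℝ) ∧ (d : ℝ) ≤ (X : ℝ) ^ (1 - θ) ∧ QX M X d) ∧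
    (D.filter (fun d : ℕ => (d : ℝ) < (X : ℝ) ^ (1 / (M : ℝ)))).card ≤ 1 ∧
    (((Icc 1 X).filter (fun n : ℕ => X < 2 * n ∧ Even n ∧ (∀ d ∈ D, ¬ d ∣ n) ∧
      P n)).card : ℝ) ≤ (X : ℝ) ^ (θ + ε) ∧
    (((Icc 1 X).filter (fun n : ℕ => X < 2 * n ∧ Even n ∧
      (∃ p : ℕ, p.Prime ∧ p ∣ n ∧ (X : ℝ) ^ (1 - 1 / (M : ℝ)) < p) ∧
      (∀ d ∈ D, (d : ℝ) < (X : ℝ) ^ (1 / (M : ℝ)) → ¬ d ∣ n) ∧ P n)).card : ℝ) ≤
        (X : ℝ) ^ (θ + ε)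

open Classical in
theorem comb {P : ℕ → Prop} {θ ε : ℝ} (hθ : 0 < θ) (hε : 0 < ε) (M0 M : ℕ)
    (hM : 2 * M0 + 1 ≤ M) (hMθ : 1 / (M : ℝ) ≤ θ)
    (hres : ∀ K : ℕ, ∃ X₀ : ℕ, ∀ X : ℕ, X₀ ≤ X → ∃ D : Finset ℕ, D.card ≤ M0 ∧
        (∀ d ∈ D, Real.log X ^ K ≤ (d : ℝ) ∧ (d : ℝ) ≤ (X : ℝ) ^ (1 - θ) ∧ QX M0 X d) ∧
        (D.filter (fun d : ℕ => (d : ℝ) < (X : ℝ) ^ (1 / (M0 : ℝ)))).card ≤ 1 ∧
        (((Icc 1 X).filter (fun n : ℕ => X < 2 * n ∧ Even n ∧ (∀ d ∈ D, ¬ d ∣ n) ∧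
          P n)).card : ℝ) ≤ (X : ℝ) ^ (θ + ε / 4)) (K : ℕ) :
    ∃ X₀ : ℕ, ∀ X : ℕ, X₀ ≤ X → WinC P θ ε M K X ∧ ModC P θ ε M K X := by
  obtain ⟨X1, hX1⟩ := hres K
  obtain ⟨X2, hX2⟩ := Pool.MP_dd84fd_nt.XP.winA_of (P := P) hθ
    (show 0 < ε / 2 by linarith) M0 (K + 1) (by
      obtain ⟨Y, hY⟩ := hres (K + 1 + 3)
      refine ⟨Y, fun X hX => ?_⟩
      obtain ⟨D, d1, d2, -, d4⟩ := hY X hX
      refine ⟨D, d1, fun d hd => (d2 d hd).1, ?_⟩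
      have he : θ + ε / 2 / 2 = θ + ε / 4 := by ring
      rw [he]
      exact d4)
  obtain ⟨X3, hX3⟩ := Pool.MP_dd84fd_nt.XP.every_log hθ.le hε 1 K
  have ht3 : Filter.Tendsto (fun X : ℕ => Real.log (X : ℝ)) Filter.atTop Filter.atTop :=
    Real.tendsto_log_atTop.comp tendsto_natCast_atTop_atTop
  obtain ⟨X4, hX4⟩ := Filter.eventually_atTop.1 (ht3.eventually_ge_atTop (2 * (M0 : ℝ) + 1))
  refine ⟨max (max X1 X2) (max X3 (max X4 1)), fun X hX => ?_⟩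
  simp only [max_le_iff] at hX
  obtain ⟨⟨x1, x2⟩, x3, x4, x5⟩ := hX
  have hXR : (1 : ℝ) ≤ (X : ℝ) := by exact_mod_cast x5
  have hM0 : (0 : ℝ) ≤ (M0 : ℝ) := Nat.cast_nonneg _
  have hL : 2 * (M0 : ℝ) + 1 ≤ Real.log X := hX4 X x4
  have hL1 : 1 ≤ Real.log X := by linarith
  have hMR : 2 * (M0 : ℝ) ≤ (M : ℝ) := by
    have : 2 * M0 ≤ M := by omega
    exact_mod_cast this
  have hw := hX2 X x2
  have hpow : ∀ {a b : ℝ}, a ≤ b → (X : ℝ) ^ a ≤ (X : ℝ) ^ b := fun h =>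
    Real.rpow_le_rpow_of_exponent_le hXR h
  refine ⟨⟨?_, ?_⟩, ?_⟩
  · -- windows
    refine le_trans ?_ (hw.trans (hpow (by linarith)))
    refine Nat.cast_le.2 (card_le_card fun n hn => ?_)
    rw [mem_filter] at hn ⊢
    obtain ⟨hn1, W, hn2, hn3⟩ := hn
    refine ⟨hn1, W, hn2, lt_of_le_of_lt (add_le_add hMR ?_) hn3⟩
    refine div_le_div_of_nonneg_left (Nat.cast_nonneg _) (by positivity) ?_
    exact pow_le_pow_right₀ hL1 (by omega)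
  · -- every interval
    intro n W hn hnW hW
    refine hX3 X x3 P (2 * (M0 : ℝ)) (by rw [pow_one]; linarith) ?_ n W hn hnW hW
    exact hw
  · -- moduli
    obtain ⟨D, d1, d2, d3, d4⟩ := hX1 X x1
    have hexc : (((Icc 1 X).filter (fun n : ℕ => X < 2 * n ∧ Even n ∧ (∀ d ∈ D, ¬ d ∣ n) ∧
        P n)).card : ℝ) ≤ (X : ℝ) ^ (θ + ε) := d4.trans (hpow (by linarith))
    refine ⟨D, by omega, fun d hd => ?_, ?_, hexc, ?_⟩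
    · obtain ⟨e1, e2, e3⟩ := d2 d hd
      exact ⟨e1, e2, e3.mono (by omega) x5 hL1⟩
    · refine le_trans (card_le_card fun d hd => ?_) d3
      rw [mem_filter] at hd ⊢
      have hM0p : 0 < M0 := by
        obtain ⟨r, k, χ, -, g2, g3, -⟩ := (d2 d hd.1).2.2
        omega
      refine ⟨hd.1, lt_of_lt_of_le hd.2 (hpow ?_)⟩
      have h0 : (0 : ℝ) < (M0 : ℝ) := by exact_mod_cast hM0p
      exact one_div_le_one_div_of_le h0 (by linarith)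
    · exact Pool.MP_dd84fd_nt.XP.big_of hMθ x5 (fun d hd => (d2 d hd).2.1) hexc

open Classical in
/-- exponent 1/7, all clauses -/
theorem fin7 (hG : Pool.MP_dd84fd_nt.QZ.GrQ) : ∀ ε : ℝ, 0 < ε → ∃ M : ℕ, ∀ θ : ℝ, 1 / 7 ≤ θ →
    θ ≤ 1 → ∀ K : ℕ, ∃ X₀ : ℕ, ∀ X : ℕ, X₀ ≤ X →
      WinC (BadM (1 / 40) 2) θ ε M K X ∧
      (∀ N : Finset ℕ, (∀ n ∈ N, 1 ≤ n ∧ n ≤ X ∧ Even n) →
        (∀ n ∈ N, ∀ m ∈ N, n ≠ m → (Nat.gcd n m : ℝ) < Real.log X ^ K) →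
        ((N.filter (fun n => BadM (1 / 40) 2 n)).card : ℝ) ≤ (X : ℝ) ^ (θ + ε)) ∧
      ModC (BadM (1 / 40) 2) θ ε M K X := by
  intro ε hε
  obtain ⟨M0, hM0⟩ := resX_m hG (ε / 4) (by linarith)
  refine ⟨2 * M0 + 7, fun θ t1 t2 K => ?_⟩
  have hMθ : 1 / ((2 * M0 + 7 : ℕ) : ℝ) ≤ θ := by
    refine le_trans ?_ t1
    refine one_div_le_one_div_of_le (by norm_num) ?_
    have : 7 ≤ 2 * M0 + 7 := by omega
    exact_mod_cast this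
  obtain ⟨X1, hX1⟩ := comb (P := BadM (1 / 40) 2) (θ := θ) (ε := ε) (by linarith) hε M0
    (2 * M0 + 7) (by omega) hMθ (fun K => by
      obtain ⟨Y, hY⟩ := hM0 θ t1 t2 K
      exact ⟨Y, fun X hX => (hY X hX).2⟩) K
  obtain ⟨X2, hX2⟩ := Pool.MP_dd84fd_nt.XP.fam_m θ ε t1 t2 hε K
  refine ⟨max X1 X2, fun X hX => ?_⟩
  simp only [max_le_iff] at hX
  exact ⟨(hX1 X hX.1).1, hX2 X hX.2, (hX1 X hX.1).2⟩

open Classical in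
/-- exponent 1/5, all clauses -/
theorem fin5 (hG : Pool.MP_dd84fd_nt.QZ.GrQ) : ∀ θ ε : ℝ, 1 / 5 ≤ θ → θ < 1 / 3 → 0 < ε →
    ∃ M : ℕ, ∀ K : ℕ, ∃ X₀ : ℕ, ∀ X : ℕ, X₀ ≤ X →
      WinC (BadL 4 θ) θ ε M K X ∧
      (∀ N : Finset ℕ, (∀ n ∈ N, 1 ≤ n ∧ n ≤ X ∧ Even n) →
        (∀ n ∈ N, ∀ m ∈ N, n ≠ m → (Nat.gcd n m : ℝ) < Real.log X ^ K) →
        ((N.filter (fun n => BadL 4 θ n)).card : ℝ) ≤ (X : ℝ) ^ (θ + ε)) ∧
      ModC (BadL 4 θ) θ ε M K X := by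
  intro θ ε t1 t2 hε
  obtain ⟨M0, hM0⟩ := resX_l hG θ (ε / 4) t1 t2 (by linarith)
  refine ⟨2 * M0 + 5, fun K => ?_⟩
  have hMθ : 1 / ((2 * M0 + 5 : ℕ) : ℝ) ≤ θ := by
    refine le_trans ?_ t1
    refine one_div_le_one_div_of_le (by norm_num) ?_
    have : 5 ≤ 2 * M0 + 5 := by omega
    exact_mod_cast this
  obtain ⟨X1, hX1⟩ := comb (P := BadL 4 θ) (θ := θ) (ε := ε) (by linarith) hε M0
    (2 * M0 + 5) (by omega) hMθ (fun K => by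
      obtain ⟨Y, hY⟩ := hM0 K
      exact ⟨Y, fun X hX => (hY X hX).2⟩) K
  obtain ⟨X2, hX2⟩ := Pool.MP_dd84fd_nt.XP.fam_l θ ε t1 t2 hε K
  refine ⟨max X1 X2, fun X hX => ?_⟩
  simp only [max_le_iff] at hX
  exact ⟨(hX1 X hX.1).1, hX2 X hX.2, (hX1 X hX.1).2⟩

end Pool.MP_dd84fd_nt.RZ
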