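import Mathlib

/-!
# RZ-Cmb: signs with `t_(i+j) = t_i t_j` for most pairs (pure combinatorics).  Prefix aux lemmas `cmb_`.

PROOF.  Even indices: let `2s < k`, `t (2s) ≠ 1`.  For every `1 ≤ a ≤ s` one of the pairs `(s+a, s-a)`, `(s, a)`, `(s-a, a)` is bad
(sums `2s`, `s+a`, `s`, all `< k`): otherwise `t(2s) = t(s+a) t(s-a) = (t s t a)(t(s-a))` and `t s = t(s-a) t a`, so
`t(s-a) = t s t a` and `t(2s) = (t s t a)² = 1`.  Each of the three maps `(s, a) ↦` pair is injective, so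
`∑_{s bad} s ≤ 3 ε k²`; if there are `n` bad `s` then `∑ s ≥ n(n-1)/2`, so `n ≤ √(6ε) k + 1`.
Odd indices: `t(2s+1) ≠ 1` implies `t(2s) ≠ 1` or `t(2s+1) ≠ t(2s)`: at most `n + ε k`.  Total `≤ 2 √(6ε) k + 2 + ε k ≤ 6 √ε k + 2`.
-/

set_option autoImplicit false

namespace Pool.MP_dd84fd_nt.RZ

open Finset

private theorem cmb_sum (S : Finset ℕ) : S.card * (S.card - 1) ≤ 2 * ∑ s ∈ S, s := by
  induction S using Finset.induction_on_max with
  | empty => simp
  | insert a S ha ih =>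
    have hn : a ∉ S := fun h => lt_irrefl a (ha a h)
    have hc : S.card ≤ a := by
      have h : S ⊆ range a := fun x hx => mem_range.2 (ha x hx)
      simpa using card_le_card h
    rw [card_insert_of_notMem hn, sum_insert hn, Nat.add_sub_cancel]
    have h2 : (S.card + 1) * S.card = S.card * (S.card - 1) + 2 * S.card := by
      rcases S.card with _ | n
      · rfl
      · simp only [Nat.add_sub_cancel]
        ring
    omega

private theorem cmb_one {a b : ℤ} (ha : a = 1 ∨ a = -1) (hb : b = 1 ∨ b = -1) : a * b * (a * b) = 1 := by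
  rcases ha with rfl | rfl <;> rcases hb with rfl | rfl <;> rfl

private theorem cmb_div {a b c : ℤ} (hb : b = 1 ∨ b = -1) (h : a = c * b) : c = a * b := by
  rcases hb with rfl | rfl <;> omega

private theorem cmb_even (t : ℕ → ℤ) (ht : ∀ i, t i = 1 ∨ t i = -1) (k : ℕ) :
    ∑ s ∈ (range k).filter (fun s => 2 * s < k ∧ t (2 * s) ≠ 1), s ≤
      3 * (((range k) ×ˢ (range k)).filter
        (fun p : ℕ × ℕ => p.1 + p.2 < k ∧ t (p.1 + p.2) ≠ t p.1 * t p.2)).card := by
  set B := ((range k) ×ˢ (range k)).filter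
        (fun p : ℕ × ℕ => p.1 + p.2 < k ∧ t (p.1 + p.2) ≠ t p.1 * t p.2) with hB
  set S := (range k).filter (fun s => 2 * s < k ∧ t (2 * s) ≠ 1) with hS
  let P : Finset (Σ _ : ℕ, ℕ) := S.sigma (fun s => Icc 1 s)
  have hP : P.card = ∑ s ∈ S, s := by
    show (S.sigma (fun s => Icc 1 s)).card = _
    rw [card_sigma]
    refine sum_congr rfl fun s _ => ?_
    rw [Nat.card_Icc, Nat.add_sub_cancel]
  let f1 : (Σ _ : ℕ, ℕ) → ℕ × ℕ := fun p => (p.1 + p.2, p.1 - p.2)
  let f2 : (Σ _ : ℕ, ℕ) → ℕ × ℕ := fun p => (p.1, p.2)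
  let f3 : (Σ _ : ℕ, ℕ) → ℕ × ℕ := fun p => (p.1 - p.2, p.2)
  have hmem : ∀ p ∈ P, 2 * p.1 < k ∧ t (2 * p.1) ≠ 1 ∧ 1 ≤ p.2 ∧ p.2 ≤ p.1 := by
    intro p hp
    rw [mem_sigma, mem_filter, mem_Icc] at hp
    exact ⟨hp.1.2.1, hp.1.2.2, hp.2.1, hp.2.2⟩
  have hBm : ∀ i j : ℕ, i + j < k → t (i + j) ≠ t i * t j → (i, j) ∈ B := by
    intro i j h1 h2
    rw [hB, mem_filter, mem_product, mem_range, mem_range]
    exact ⟨⟨by omega, by omega⟩, h1, h2⟩
  have hcov : P ⊆ P.filter (fun p => f1 p ∈ B) ∪ P.filter (fun p => f2 p ∈ B) ∪ P.filter (fun p => f3 p ∈ B) := by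
    intro p hp
    obtain ⟨h1, h2, h3, h4⟩ := hmem p hp
    by_contra hcon
    have c1' : f1 p ∉ B := fun h => hcon (mem_union_left _ (mem_union_left _ (mem_filter.2 ⟨hp, h⟩)))
    have c2' : f2 p ∉ B := fun h => hcon (mem_union_left _ (mem_union_right _ (mem_filter.2 ⟨hp, h⟩)))
    have c3' : f3 p ∉ B := fun h => hcon (mem_union_right _ (mem_filter.2 ⟨hp, h⟩))
    obtain ⟨s, a⟩ := p
    simp only at h1 h2 h3 h4
    have e1 : t (2 * s) = t (s + a) * t (s - a) := by
      by_contra hne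
      apply c1'
      refine hBm (s + a) (s - a) (by omega) ?_
      rw [show s + a + (s - a) = 2 * s by omega]
      exact hne
    have e2 : t (s + a) = t s * t a := by
      by_contra hne
      exact c2' (hBm s a (by omega) hne)
    have e3 : t s = t (s - a) * t a := by
      by_contra hne
      apply c3'
      refine hBm (s - a) a (by omega) ?_
      rw [show s - a + a = s by omega]
      exact hne
    have e4 : t (s - a) = t s * t a := cmb_div (ht a) e3
    apply h2
    rw [e1, e2, e4]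
    exact cmb_one (ht s) (ht a)
  have hinj : ∀ f : (Σ _ : ℕ, ℕ) → ℕ × ℕ, (∀ p ∈ P, ∀ q ∈ P, f p = f q → p = q) →
      (P.filter (fun p => f p ∈ B)).card ≤ B.card := by
    intro f hf
    refine card_le_card_of_injOn f (fun p hp => ?_) (fun p hp q hq h => ?_)
    · exact (mem_filter.1 hp).2
    · exact hf p (mem_filter.1 hp).1 q (mem_filter.1 hq).1 h
  have i1 := hinj f1 (by
    rintro ⟨s, a⟩ hp ⟨s', a'⟩ hq h
    obtain ⟨-, -, h3, h4⟩ := hmem _ hp
    obtain ⟨-, -, h3', h4'⟩ := hmem _ hq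
    have h5 : s + a = s' + a' := congrArg Prod.fst h
    have h6 : s - a = s' - a' := congrArg Prod.snd h
    simp only at h3 h4 h3' h4'
    have h7 : s = s' := by omega
    have h8 : a = a' := by omega
    rw [h7, h8])
  have i2 := hinj f2 (by
    rintro ⟨s, a⟩ hp ⟨s', a'⟩ hq h
    have h5 : s = s' := congrArg Prod.fst h
    have h6 : a = a' := congrArg Prod.snd h
    rw [h5, h6])
  have i3 := hinj f3 (by
    rintro ⟨s, a⟩ hp ⟨s', a'⟩ hq h
    obtain ⟨-, -, h3, h4⟩ := hmem _ hp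
    obtain ⟨-, -, h3', h4'⟩ := hmem _ hq
    have h5 : s - a = s' - a' := congrArg Prod.fst h
    have h6 : a = a' := congrArg Prod.snd h
    simp only at h3 h4 h3' h4'
    have h7 : s = s' := by omega
    rw [h7, h6])
  have hc := card_le_card hcov
  have hu1 := card_union_le (P.filter (fun p => f1 p ∈ B) ∪ P.filter (fun p => f2 p ∈ B)) (P.filter (fun p => f3 p ∈ B))
  have hu2 := card_union_le (P.filter (fun p => f1 p ∈ B)) (P.filter (fun p => f2 p ∈ B))
  omega

private theorem cmb_odd (t : ℕ → ℤ) (k : ℕ) :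
    ((range k).filter (fun i => t i ≠ 1)).card ≤
      2 * ((range k).filter (fun s => 2 * s < k ∧ t (2 * s) ≠ 1)).card +
        ((range k).filter (fun i => t (i + 1) ≠ t i)).card := by
  set S := (range k).filter (fun s => 2 * s < k ∧ t (2 * s) ≠ 1) with hS
  set E := (range k).filter (fun i => t (i + 1) ≠ t i) with hE
  have h : (range k).filter (fun i => t i ≠ 1) ⊆
      S.image (fun s => 2 * s) ∪ S.image (fun s => 2 * s + 1) ∪ E.image (fun i => i + 1) := by
    intro i hi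
    rw [mem_filter, mem_range] at hi
    rw [mem_union, mem_union, mem_image, mem_image, mem_image]
    rcases Nat.even_or_odd' i with ⟨s, hs | hs⟩
    · left; left
      refine ⟨s, ?_, hs.symm⟩
      rw [hS, mem_filter, mem_range]
      refine ⟨by omega, by omega, ?_⟩
      rw [← hs]
      exact hi.2
    · by_cases h1 : t (2 * s) = 1
      · right
        refine ⟨2 * s, ?_, hs.symm⟩
        rw [hE, mem_filter, mem_range]
        refine ⟨by omega, ?_⟩
        rw [← hs, h1]
        exact hi.2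
      · left; right
        refine ⟨s, ?_, hs.symm⟩
        rw [hS, mem_filter, mem_range]
        exact ⟨by omega, by omega, h1⟩
  have h1 := card_le_card h
  have h2 := card_union_le (S.image (fun s => 2 * s) ∪ S.image (fun s => 2 * s + 1)) (E.image (fun i => i + 1))
  have h3 := card_union_le (S.image (fun s => 2 * s)) (S.image (fun s => 2 * s + 1))
  have h4 : (S.image (fun s => 2 * s)).card ≤ S.card := card_image_le
  have h5 : (S.image (fun s => 2 * s + 1)).card ≤ S.card := card_image_le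
  have h6 : (E.image (fun i => i + 1)).card ≤ E.card := card_image_le
  omega

theorem cmb {ε : ℝ} (hε : 0 < ε) (hε1 : ε ≤ 1) (t : ℕ → ℤ) (ht : ∀ i, t i = 1 ∨ t i = -1) (k : ℕ)
    (h1 : ((((range k) ×ˢ (range k)).filter
      (fun p : ℕ × ℕ => p.1 + p.2 < k ∧ t (p.1 + p.2) ≠ t p.1 * t p.2)).card : ℝ) ≤
        ε * (k : ℝ) ^ 2)
    (h2 : (((range k).filter (fun i => t (i + 1) ≠ t i)).card : ℝ) ≤ ε * k) :
    (((range k).filter (fun i => t i ≠ 1)).card : ℝ) ≤ 6 * Real.sqrt ε * k + 2 := by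
  have a1 := cmb_even t ht k
  have a2 := cmb_odd t k
  have a3 := cmb_sum ((range k).filter (fun s => 2 * s < k ∧ t (2 * s) ≠ 1))
  set B := (((range k) ×ˢ (range k)).filter
      (fun p : ℕ × ℕ => p.1 + p.2 < k ∧ t (p.1 + p.2) ≠ t p.1 * t p.2)).card
  set n := ((range k).filter (fun s => 2 * s < k ∧ t (2 * s) ≠ 1)).card
  set e := ((range k).filter (fun i => t (i + 1) ≠ t i)).card
  set m := ((range k).filter (fun i => t i ≠ 1)).card
  have b2 : (m : ℝ) ≤ 2 * n + e := by exact_mod_cast a2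
  have b3 : n * (n - 1) ≤ 6 * B := by omega
  have hs : 0 ≤ Real.sqrt ε := Real.sqrt_nonneg ε
  have hs2 : Real.sqrt ε ^ 2 = ε := Real.sq_sqrt hε.le
  have hs1 : Real.sqrt ε ≤ 1 := by
    rw [show (1 : ℝ) = Real.sqrt 1 by simp]
    exact Real.sqrt_le_sqrt hε1
  have hk : (0 : ℝ) ≤ k := Nat.cast_nonneg k
  have b4 : (n : ℝ) ≤ (49 / 20) * Real.sqrt ε * k + 1 := by
    rcases Nat.eq_zero_or_pos n with h0 | h0
    · rw [h0]
      have : 0 ≤ (49 / 20) * Real.sqrt ε * (k : ℝ) := by positivity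
      simp only [Nat.cast_zero]
      linarith
    · obtain ⟨r, hr⟩ : ∃ r, n = r + 1 := ⟨n - 1, by omega⟩
      rw [hr, Nat.add_sub_cancel] at b3
      rw [hr]
      have b5 : ((r : ℝ) + 1) * r ≤ 6 * B := by exact_mod_cast b3
      have b6 : (r : ℝ) ^ 2 ≤ ((49 / 20) * Real.sqrt ε * k) ^ 2 := by
        have : ((49 / 20) * Real.sqrt ε * (k : ℝ)) ^ 2 = (2401 / 400) * (ε * (k : ℝ) ^ 2) := by
          rw [mul_pow, mul_pow, hs2]
          ring
        rw [this]
        have h8 : 0 ≤ ε * (k : ℝ) ^ 2 := by positivity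
        have h9 : (0 : ℝ) ≤ r := Nat.cast_nonneg r
        nlinarith
      have b7 : (r : ℝ) ≤ (49 / 20) * Real.sqrt ε * k :=
        (sq_le_sq₀ (Nat.cast_nonneg r) (by positivity)).1 b6
      push_cast
      linarith
  have b8 : ε ≤ Real.sqrt ε := by nlinarith
  have b9 : ε * (k : ℝ) ≤ Real.sqrt ε * k := mul_le_mul_of_nonneg_right b8 hk
  have b10 : 0 ≤ Real.sqrt ε * (k : ℝ) := by positivity
  nlinarith

end Pool.MP_dd84fd_nt.RZ
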