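import Pool.Agent.Lib.MP_dd84fd_nt.RZ.Eul
import Pool.Agent.Lib.MP_dd84fd_nt.En.BT

/-!
# RZ-Ran: Rankin's trick.  Prefix aux lemmas `ran_`.

PROOF.  `κ = 1/log z ≤ 1/2` (z ≥ 8), `σ = 1 - κ ≥ 1/2`.  By eul (σ = 1), `VS c z 1 = ∑_{m smooth, m ≤ z^A} + ∑_{m smooth, m > z^A}`; first part
`≤ SL c (z^A)` (lm ≥ 0); second: `1/m ≤ m^(-σ) (z^A)^(-κ)` for `m ≥ z^A`, `(z^A)^κ = e^A`, so it is `≤ e^(-A) VS c z σ` (eul).
`VS c z σ ≤ e^C VS c z 1`: per prime: `(1-1/p)/(1-p^(-σ)) ≤ 1 + (p^(-σ) - 1/p)/(1-p^(-1/2)) ≤ exp(4 (p^κ - 1)/p)`, `p^κ - 1 ≤ e κ log p`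
(`κ log p ≤ 1`); for `c p = 1` the second factor is the same, for `c p = 0` it is `1`, for `c p = -1`: `(1+p^(-σ))⁻¹ ≤ (1+1/p)⁻¹`.
`∑_{p ≤ z} log p/p ≤ log z + 2` (library: `En.sum_log_div`, see its use in BX/BrB.lean): exponent `≤ 8 e κ (log z + 2) ≤ 16 e`.  `C0 = 16 e`.
-/

set_option autoImplicit false

namespace Pool.MP_dd84fd_nt.RZ

open Finset

private theorem ran_exp {t : ℝ} (ht : 0 ≤ t) (ht1 : t ≤ 1) : Real.exp t - 1 ≤ Real.exp 1 * t := by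
  have h1 : 1 - Real.exp (-t) ≤ t := by
    have := Real.add_one_le_exp (-t)
    linarith
  have h2 : Real.exp t - 1 = Real.exp t * (1 - Real.exp (-t)) := by
    rw [mul_sub, mul_one, ← Real.exp_add, add_neg_cancel, Real.exp_zero]
  have h3 : Real.exp t ≤ Real.exp 1 := Real.exp_le_exp.2 ht1
  have h4 : 0 ≤ Real.exp t := (Real.exp_pos t).le
  rw [h2]
  calc Real.exp t * (1 - Real.exp (-t)) ≤ Real.exp t * t := mul_le_mul_of_nonneg_left h1 h4
    _ ≤ Real.exp 1 * t := mul_le_mul_of_nonneg_right h3 ht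

/-- the two kinds of factors -/
private theorem ran_fac {x y w : ℝ} (hx : 0 < x) (hxy : x ≤ y) (hy : y ≤ 3 / 4)
    (hw : 4 * (y - x) ≤ w) : (1 - y)⁻¹ ≤ Real.exp w * (1 - x)⁻¹ := by
  have h1 : 0 < 1 - y := by linarith
  have h2 : 0 < 1 - x := by linarith
  have h3 : 1 + w ≤ Real.exp w := by linarith [Real.add_one_le_exp w]
  rw [inv_le_iff_one_le_mul₀ h1]
  have h4 : 1 - x ≤ Real.exp w * (1 - y) := by
    have h5 : (1 + w) * (1 - y) ≤ Real.exp w * (1 - y) := mul_le_mul_of_nonneg_right h3 h1.le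
    nlinarith
  have h6 : Real.exp w * (1 - x)⁻¹ * (1 - y) = (Real.exp w * (1 - y)) * (1 - x)⁻¹ := by ring
  rw [h6]
  calc (1 : ℝ) = (1 - x) * (1 - x)⁻¹ := (mul_inv_cancel₀ h2.ne').symm
    _ ≤ (Real.exp w * (1 - y)) * (1 - x)⁻¹ := mul_le_mul_of_nonneg_right h4 (inv_pos.2 h2).le

private theorem ran_cfac {x y w c : ℝ} (hx : 0 < x) (hxy : x ≤ y) (hy : y ≤ 3 / 4)
    (hw : 4 * (y - x) ≤ w) (hc : c = 1 ∨ c = 0 ∨ c = -1) :
    (1 - c * y)⁻¹ ≤ Real.exp w * (1 - c * x)⁻¹ := by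
  have hw0 : 0 ≤ w := by linarith
  have he : 1 ≤ Real.exp w := Real.one_le_exp hw0
  rcases hc with rfl | rfl | rfl
  · rw [one_mul, one_mul]; exact ran_fac hx hxy hy hw
  · simp only [zero_mul, sub_zero, inv_one, mul_one]; exact he
  · have h1 : (1 - -1 * y)⁻¹ ≤ (1 - -1 * x)⁻¹ := by
      apply inv_anti₀ <;> linarith
    have h2 : 0 ≤ (1 - -1 * x)⁻¹ := by
      apply inv_nonneg.2; linarith
    calc (1 - -1 * y)⁻¹ ≤ 1 * (1 - -1 * x)⁻¹ := by rw [one_mul]; exact h1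
      _ ≤ Real.exp w * (1 - -1 * x)⁻¹ := mul_le_mul_of_nonneg_right he h2

private theorem ran_VS {r : ℝ} {c : ℕ → ℝ} (hc : Rc r c) {z : ℝ} (hz : 8 ≤ z) :
    0 < VS c z 1 ∧
    VS c z (1 - 1 / Real.log z) ≤ Real.exp (16 * Real.exp 1) * VS c z 1 := by
  have hz0 : 0 < z := by linarith
  have hL : 2 ≤ Real.log z := by
    have h1 : Real.log 8 ≤ Real.log z := Real.log_le_log (by norm_num) hz
    have h2 : Real.log 8 = 3 * Real.log 2 := by
      rw [show (8 : ℝ) = 2 ^ 3 by norm_num, Real.log_pow]; norm_num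
    have h3 := Real.log_two_gt_d9
    linarith
  have hL0 : 0 < Real.log z := by linarith
  obtain ⟨κ, hκ⟩ : ∃ κ : ℝ, κ = 1 / Real.log z := ⟨_, rfl⟩
  have hκ0 : 0 < κ := by rw [hκ]; positivity
  have hκ1 : κ ≤ 1 / 2 := by
    rw [hκ]; exact one_div_le_one_div_of_le (by norm_num) hL
  rw [← hκ]
  -- facts for one prime
  have hfac : ∀ p ∈ (Icc 1 ⌊z⌋₊).filter Nat.Prime,
      0 < (1 - (p : ℝ) ^ (-(1 : ℝ)))⁻¹ * (1 - c p * (p : ℝ) ^ (-(1 : ℝ)))⁻¹ ∧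
      0 ≤ (1 - (p : ℝ) ^ (-(1 - κ)))⁻¹ * (1 - c p * (p : ℝ) ^ (-(1 - κ)))⁻¹ ∧
      (1 - (p : ℝ) ^ (-(1 - κ)))⁻¹ * (1 - c p * (p : ℝ) ^ (-(1 - κ)))⁻¹ ≤
        Real.exp (8 * Real.exp 1 * κ * (Real.log p / p)) *
        ((1 - (p : ℝ) ^ (-(1 : ℝ)))⁻¹ * (1 - c p * (p : ℝ) ^ (-(1 : ℝ)))⁻¹) := by
    intro p hp
    rw [mem_filter, mem_Icc] at hp
    obtain ⟨⟨_, hpz⟩, hpp⟩ := hp
    have hp2 : (2 : ℝ) ≤ p := by exact_mod_cast hpp.two_le
    have hp0 : (0 : ℝ) < p := by linarith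
    have hpz' : (p : ℝ) ≤ z := (Nat.cast_le.2 hpz).trans (Nat.floor_le hz0.le)
    have hlp0 : 0 ≤ Real.log p := Real.log_nonneg (by linarith)
    have hlp : κ * Real.log p ≤ 1 := by
      rw [hκ, one_div, inv_mul_le_iff₀ hL0, mul_one]
      exact Real.log_le_log hp0 hpz'
    have hx : (p : ℝ) ^ (-(1 : ℝ)) = 1 / p := by rw [Real.rpow_neg_one, one_div]
    have hy : (p : ℝ) ^ (-(1 - κ)) = Real.exp (κ * Real.log p) / p := by
      rw [show -(1 - κ) = κ - 1 by ring, Real.rpow_sub_one hp0.ne', Real.rpow_def_of_pos hp0,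
        mul_comm (Real.log p) κ]
    have hy2 : (p : ℝ) ^ (-(1 - κ)) ≤ 3 / 4 := by
      have h1 : (p : ℝ) ^ (-(1 - κ)) ≤ (2 : ℝ) ^ (-(1 - κ)) :=
        Real.rpow_le_rpow_of_nonpos (by norm_num) hp2 (by linarith)
      have h2 : (2 : ℝ) ^ (-(1 - κ)) ≤ (2 : ℝ) ^ (-(1 / 2 : ℝ)) :=
        Real.rpow_le_rpow_of_exponent_le (by norm_num) (by linarith)
      have h3 : (2 : ℝ) ^ (-(1 / 2 : ℝ)) ≤ 3 / 4 := by
        rw [Real.rpow_neg (by norm_num), ← Real.sqrt_eq_rpow]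
        rw [inv_le_comm₀ (by positivity) (by norm_num)]
        apply Real.le_sqrt_of_sq_le
        norm_num
      exact h1.trans (h2.trans h3)
    have hxle : (1 : ℝ) / p ≤ 1 / 2 := one_div_le_one_div_of_le (by norm_num) hp2
    have hx0 : (0 : ℝ) < 1 / p := by positivity
    have hxy : (1 : ℝ) / p ≤ Real.exp (κ * Real.log p) / p := by
      refine div_le_div_of_nonneg_right ?_ hp0.le
      exact Real.one_le_exp (by positivity)
    have hw : 4 * (Real.exp (κ * Real.log p) / p - 1 / p) ≤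
        4 * Real.exp 1 * κ * (Real.log p / p) := by
      have h1 := ran_exp (by positivity : 0 ≤ κ * Real.log p) hlp
      have h2 : Real.exp (κ * Real.log p) / p - 1 / p = (Real.exp (κ * Real.log p) - 1) / p := by
        rw [sub_div]
      rw [h2]
      have h3 : (Real.exp (κ * Real.log p) - 1) / p ≤ Real.exp 1 * (κ * Real.log p) / p :=
        div_le_div_of_nonneg_right h1 hp0.le
      calc 4 * ((Real.exp (κ * Real.log p) - 1) / p) ≤ 4 * (Real.exp 1 * (κ * Real.log p) / p) := by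
            linarith
        _ = 4 * Real.exp 1 * κ * (Real.log p / p) := by ring
    rw [hy] at hy2
    have hf1 := ran_fac hx0 hxy hy2 hw
    have hf2 := ran_cfac hx0 hxy hy2 hw (hc.val p)
    have hpos1 : 0 < (1 - (1 : ℝ) / p)⁻¹ := inv_pos.2 (by linarith)
    have hcx : ∀ t : ℝ, 0 ≤ t → t ≤ 3 / 4 → 0 < 1 - c p * t := by
      intro t ht0 ht1
      rcases hc.val p with h | h | h <;> rw [h] <;> linarith
    have hpos2 : 0 < (1 - c p * ((1 : ℝ) / p))⁻¹ := inv_pos.2 (hcx _ hx0.le (by linarith))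
    have hy0 : 0 ≤ Real.exp (κ * Real.log p) / p := by positivity
    have hpos3 : 0 < (1 - Real.exp (κ * Real.log p) / p)⁻¹ := inv_pos.2 (by linarith)
    have hpos4 : 0 < (1 - c p * (Real.exp (κ * Real.log p) / p))⁻¹ := inv_pos.2 (hcx _ hy0 hy2)
    rw [hx, hy]
    refine ⟨mul_pos hpos1 hpos2, (mul_pos hpos3 hpos4).le, ?_⟩
    calc (1 - Real.exp (κ * Real.log p) / p)⁻¹ * (1 - c p * (Real.exp (κ * Real.log p) / p))⁻¹
        ≤ (Real.exp (4 * Real.exp 1 * κ * (Real.log p / p)) * (1 - 1 / (p : ℝ))⁻¹) *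
          (Real.exp (4 * Real.exp 1 * κ * (Real.log p / p)) * (1 - c p * (1 / (p : ℝ)))⁻¹) :=
          mul_le_mul hf1 hf2 hpos4.le (mul_pos (Real.exp_pos _) hpos1).le
      _ = (Real.exp (4 * Real.exp 1 * κ * (Real.log p / p)) *
            Real.exp (4 * Real.exp 1 * κ * (Real.log p / p))) *
          ((1 - 1 / (p : ℝ))⁻¹ * (1 - c p * (1 / (p : ℝ)))⁻¹) := by ring
      _ = Real.exp (8 * Real.exp 1 * κ * (Real.log p / p)) *
          ((1 - 1 / (p : ℝ))⁻¹ * (1 - c p * (1 / (p : ℝ)))⁻¹) := by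
          rw [← Real.exp_add]; congr 2; ring
  have hpos : 0 < VS c z 1 := prod_pos fun p hp => (hfac p hp).1
  refine ⟨hpos, ?_⟩
  have hstep : VS c z (1 - κ) ≤ Real.exp (8 * Real.exp 1 * κ *
      ∑ p ∈ (Icc 1 ⌊z⌋₊).filter Nat.Prime, Real.log (p : ℝ) / p) * VS c z 1 := by
    unfold VS
    calc ∏ p ∈ (Icc 1 ⌊z⌋₊).filter Nat.Prime,
          ((1 - (p : ℝ) ^ (-(1 - κ)))⁻¹ * (1 - c p * (p : ℝ) ^ (-(1 - κ)))⁻¹)
        ≤ ∏ p ∈ (Icc 1 ⌊z⌋₊).filter Nat.Prime,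
          (Real.exp (8 * Real.exp 1 * κ * (Real.log p / p)) *
          ((1 - (p : ℝ) ^ (-(1 : ℝ)))⁻¹ * (1 - c p * (p : ℝ) ^ (-(1 : ℝ)))⁻¹)) :=
          prod_le_prod (fun p hp => (hfac p hp).2.1) (fun p hp => (hfac p hp).2.2)
      _ = _ := by
          rw [prod_mul_distrib, ← Real.exp_sum, mul_sum]
  refine hstep.trans (mul_le_mul_of_nonneg_right (Real.exp_le_exp.2 ?_) hpos.le)
  have hn : 1 ≤ ⌊z⌋₊ := (Nat.one_le_floor_iff z).2 (by linarith)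
  have hsum : ∑ p ∈ (Icc 1 ⌊z⌋₊).filter Nat.Prime, Real.log (p : ℝ) / p ≤ Real.log z + 2 := by
    have h1 := Pool.MP_67663b_nt.Mert.log_sum_le ⌊z⌋₊ hn
    have h2 : ∑ p ∈ (Icc 1 ⌊z⌋₊).filter Nat.Prime, Real.log (p : ℝ) / p ≤
        ∑ p ∈ Nat.primesLE ⌊z⌋₊, Real.log (p : ℝ) / p := by
      refine sum_le_sum_of_subset_of_nonneg ?_ ?_
      · intro p hp
        rw [mem_filter, mem_Icc] at hp
        rw [Nat.mem_primesLE]
        exact ⟨hp.1.2, hp.2⟩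
      · intro p _ _
        exact div_nonneg (Real.log_natCast_nonneg p) (Nat.cast_nonneg _)
    have h3 : Real.log (⌊z⌋₊ : ℝ) ≤ Real.log z :=
      Real.log_le_log (by exact_mod_cast hn) (Nat.floor_le (by linarith))
    have h4 : Real.log 4 ≤ 2 := by
      have : Real.log 4 = 2 * Real.log 2 := by
        rw [show (4 : ℝ) = 2 ^ 2 by norm_num, Real.log_pow]; norm_num
      rw [this]
      have := Real.log_two_lt_d9
      linarith
    linarith
  have he1 : 0 < Real.exp 1 := Real.exp_pos 1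
  have hκL : κ * (Real.log z + 2) ≤ 2 := by
    rw [hκ, one_div, inv_mul_le_iff₀ hL0]
    linarith
  calc 8 * Real.exp 1 * κ * ∑ p ∈ (Icc 1 ⌊z⌋₊).filter Nat.Prime, Real.log (p : ℝ) / p
      ≤ 8 * Real.exp 1 * κ * (Real.log z + 2) := mul_le_mul_of_nonneg_left hsum (by positivity)
    _ = 8 * Real.exp 1 * (κ * (Real.log z + 2)) := by ring
    _ ≤ 8 * Real.exp 1 * 2 := mul_le_mul_of_nonneg_left hκL (by positivity)
    _ = 16 * Real.exp 1 := by ring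

theorem ran : ∃ C0 : ℝ, 0 < C0 ∧ ∀ (r : ℝ) (c : ℕ → ℝ), Rc r c → ∀ z A : ℝ, 8 ≤ z → 1 ≤ A →
    VS c z 1 ≤ SL c (z ^ A) + Real.exp (C0 - A) * VS c z 1 := by
  refine ⟨16 * Real.exp 1, by positivity, ?_⟩
  intro r c hc z A hz hA
  have hz0 : 0 < z := by linarith
  have hL : 2 ≤ Real.log z := by
    have h1 : Real.log 8 ≤ Real.log z := Real.log_le_log (by norm_num) hz
    have h2 : Real.log 8 = 3 * Real.log 2 := by
      rw [show (8 : ℝ) = 2 ^ 3 by norm_num, Real.log_pow]; norm_num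
    have h3 := Real.log_two_gt_d9
    linarith
  have hL0 : 0 < Real.log z := by linarith
  obtain ⟨hV1, hVS⟩ := ran_VS hc hz
  obtain ⟨κ, hκ⟩ : ∃ κ : ℝ, κ = 1 / Real.log z := ⟨_, rfl⟩
  have hκ0 : 0 < κ := by rw [hκ]; positivity
  have hκ1 : κ ≤ 1 / 2 := by
    rw [hκ]; exact one_div_le_one_div_of_le (by norm_num) hL
  rw [← hκ] at hVS
  have hσ : 0 < 1 - κ := by linarith
  have h1 := eul hc (z := z) (σ := 1) one_pos
  have h2 := eul hc (z := z) (σ := 1 - κ) hσ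
  have hZA : (z ^ A) ^ κ = Real.exp A := by
    rw [← Real.rpow_mul hz0.le, Real.rpow_def_of_pos hz0]
    congr 1
    rw [hκ]; field_simp
  have hZ0 : 0 < z ^ A := Real.rpow_pos_of_pos hz0 A
  have hmain : VS c z 1 ≤ SL c (z ^ A) + Real.exp (-A) * VS c z (1 - κ) := by
    refine hasSum_le_of_sum_le h1 (fun s => ?_)
    classical
    rw [← sum_filter_add_sum_filter_not s
      (fun m : Nat.smoothNumbers (⌊z⌋₊ + 1) => ((m : ℕ) : ℝ) ≤ z ^ A)]
    refine add_le_add ?_ ?_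
    · -- the small part
      have h3 : ∑ m ∈ s.filter (fun m : Nat.smoothNumbers (⌊z⌋₊ + 1) => ((m : ℕ) : ℝ) ≤ z ^ A),
          lm c m * ((m : ℕ) : ℝ) ^ (-(1 : ℝ)) =
          ∑ m ∈ (s.filter (fun m : Nat.smoothNumbers (⌊z⌋₊ + 1) => ((m : ℕ) : ℝ) ≤ z ^ A)).map
            (Function.Embedding.subtype _), lm c m / (m : ℝ) := by
        rw [sum_map]
        refine sum_congr rfl (fun m _ => ?_)
        rw [Real.rpow_neg_one, div_eq_mul_inv]
        rfl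
      rw [h3]
      unfold SL
      refine sum_le_sum_of_subset_of_nonneg ?_ ?_
      · intro m hm
        rw [mem_map] at hm
        obtain ⟨m', hm', rfl⟩ := hm
        rw [mem_filter] at hm'
        rw [mem_Icc]
        refine ⟨?_, Nat.le_floor hm'.2⟩
        exact Nat.one_le_iff_ne_zero.2 (Nat.ne_zero_of_mem_smoothNumbers m'.2)
      · intro m _ _
        exact div_nonneg (lm_nonneg hc m) (Nat.cast_nonneg m)
    · -- the large part
      have h4 : ∀ m ∈ s.filter (fun m : Nat.smoothNumbers (⌊z⌋₊ + 1) => ¬ ((m : ℕ) : ℝ) ≤ z ^ A),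
          lm c m * ((m : ℕ) : ℝ) ^ (-(1 : ℝ)) ≤
            Real.exp (-A) * (lm c m * ((m : ℕ) : ℝ) ^ (-(1 - κ))) := by
        intro m hm
        rw [mem_filter, not_le] at hm
        have hm0 : (0 : ℝ) < ((m : ℕ) : ℝ) := hZ0.trans hm.2
        have h5 : ((m : ℕ) : ℝ) ^ (-(1 : ℝ)) = ((m : ℕ) : ℝ) ^ (-κ) * ((m : ℕ) : ℝ) ^ (-(1 - κ)) := by
          rw [← Real.rpow_add hm0]; congr 1; ring
        have h6 : ((m : ℕ) : ℝ) ^ (-κ) ≤ Real.exp (-A) := by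
          calc ((m : ℕ) : ℝ) ^ (-κ) ≤ (z ^ A) ^ (-κ) :=
                Real.rpow_le_rpow_of_nonpos hZ0 hm.2.le (by linarith)
            _ = Real.exp (-A) := by rw [Real.rpow_neg hZ0.le, hZA, Real.exp_neg]
        have h7 : 0 ≤ lm c m * ((m : ℕ) : ℝ) ^ (-(1 - κ)) :=
          mul_nonneg (lm_nonneg hc m) (Real.rpow_nonneg hm0.le _)
        calc lm c m * ((m : ℕ) : ℝ) ^ (-(1 : ℝ))
            = ((m : ℕ) : ℝ) ^ (-κ) * (lm c m * ((m : ℕ) : ℝ) ^ (-(1 - κ))) := by rw [h5]; ring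
          _ ≤ Real.exp (-A) * (lm c m * ((m : ℕ) : ℝ) ^ (-(1 - κ))) :=
            mul_le_mul_of_nonneg_right h6 h7
      refine (sum_le_sum h4).trans ?_
      rw [← mul_sum]
      refine mul_le_mul_of_nonneg_left ?_ (Real.exp_pos _).le
      refine sum_le_hasSum _ (fun m _ => ?_) h2
      exact mul_nonneg (lm_nonneg hc m) (Real.rpow_nonneg (Nat.cast_nonneg _) _)
  calc VS c z 1 ≤ SL c (z ^ A) + Real.exp (-A) * VS c z (1 - κ) := hmain
    _ ≤ SL c (z ^ A) + Real.exp (-A) * (Real.exp (16 * Real.exp 1) * VS c z 1) := by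
        have := mul_le_mul_of_nonneg_left hVS (Real.exp_pos (-A)).le
        linarith
    _ = SL c (z ^ A) + Real.exp (16 * Real.exp 1 - A) * VS c z 1 := by
        rw [← mul_assoc, ← Real.exp_add]
        congr 3; ring

end Pool.MP_dd84fd_nt.RZ
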