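import Pool.Agent.Lib.MP_dd84fd_nt.RZ.Eul

/-!
# RZ-Upp: upper bounds for `SL` and `VS`.  Prefix aux lemmas `upp_`.

PROOF.  sl_le: every `n ≤ x` is in `smoothNumbers (⌊x⌋₊ + 1)`, terms `≥ 0` (lm_nonneg): finite sum `≤` the sum of eul with `σ = 1`.
vs_le: the primes `p ≤ y` are those `≤ z` and those in `(z, y]`.  For `c p = -1`: `(1-1/p)⁻¹ (1+1/p)⁻¹ = (1-1/p²)⁻¹ ≤ exp(2/p²)`
(`(1-t)⁻¹ ≤ e^(2t)` for `0 ≤ t ≤ 1/2`), `∑_{p > z} 2/p² ≤ 4/z`; for `c p = 0, 1`: factor `≤ (1-1/p)⁻² ≤ exp(4/p)`.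
vs_pos: all factors are positive.  sl_one: `n = 1` gives `1`, the other terms are `≥ 0`.  sl_mono.
-/

set_option autoImplicit false

namespace Pool.MP_dd84fd_nt.RZ

open Finset

private theorem upp_term_nonneg {r : ℝ} {c : ℕ → ℝ} (hc : Rc r c) (n : ℕ) :
    0 ≤ lm c n / (n : ℝ) :=
  div_nonneg (lm_nonneg hc n) (Nat.cast_nonneg n)

/-- factor of the Euler product -/
private noncomputable def upp_F (c : ℕ → ℝ) (σ : ℝ) (p : ℕ) : ℝ :=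
  (1 - (p : ℝ) ^ (-σ))⁻¹ * (1 - c p * (p : ℝ) ^ (-σ))⁻¹

private theorem upp_abs {r : ℝ} {c : ℕ → ℝ} (hc : Rc r c) (n : ℕ) : c n ≤ 1 := by
  rcases hc.val n with h | h | h <;> rw [h] <;> norm_num

private theorem upp_F_pos {r : ℝ} {c : ℕ → ℝ} (hc : Rc r c) {σ : ℝ} (hσ : 0 < σ) {p : ℕ}
    (hp : p.Prime) : 0 < upp_F c σ p := by
  have h1 : (1 : ℝ) < p := by exact_mod_cast hp.one_lt
  have h2 : (p : ℝ) ^ (-σ) < 1 := Real.rpow_lt_one_of_one_lt_of_neg h1 (by linarith)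
  have h3 : (0 : ℝ) < (p : ℝ) ^ (-σ) := Real.rpow_pos_of_pos (by linarith) _
  have h4 : c p * (p : ℝ) ^ (-σ) ≤ 1 * (p : ℝ) ^ (-σ) :=
    mul_le_mul_of_nonneg_right (upp_abs hc p) h3.le
  unfold upp_F
  exact mul_pos (inv_pos.mpr (by linarith)) (inv_pos.mpr (by linarith))

theorem sl_le {r : ℝ} {c : ℕ → ℝ} (hc : Rc r c) (x : ℝ) : SL c x ≤ VS c x 1 := by
  have h := eul hc (z := x) (σ := 1) one_pos
  have h' : HasSum ((Nat.smoothNumbers (⌊x⌋₊ + 1)).indicator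
      (fun m : ℕ => lm c m * (m : ℝ) ^ (-(1 : ℝ)))) (VS c x 1) :=
    hasSum_subtype_iff_indicator.mp h
  have h2 := sum_le_hasSum (Icc 1 ⌊x⌋₊) (fun n _ => by
    by_cases hn : n ∈ Nat.smoothNumbers (⌊x⌋₊ + 1)
    · rw [Set.indicator_of_mem hn]
      exact mul_nonneg (lm_nonneg hc n) (Real.rpow_nonneg (Nat.cast_nonneg n) _)
    · rw [Set.indicator_of_notMem hn]) h'
  refine le_trans (le_of_eq ?_) h2
  unfold SL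
  refine sum_congr rfl fun n hn => ?_
  rw [mem_Icc] at hn
  have hm : n ∈ Nat.smoothNumbers (⌊x⌋₊ + 1) :=
    Nat.mem_smoothNumbers_of_lt (by omega) (by omega)
  rw [Set.indicator_of_mem hm, Real.rpow_neg_one, div_eq_mul_inv]

theorem vs_pos {r : ℝ} {c : ℕ → ℝ} (hc : Rc r c) {z σ : ℝ} (hσ : 0 < σ) : 0 < VS c z σ := by
  unfold VS
  refine prod_pos fun p hp => ?_
  rw [mem_filter] at hp
  exact upp_F_pos hc hσ hp.2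

private theorem upp_inv_le {t : ℝ} (h0 : 0 ≤ t) (h1 : t ≤ 1 / 2) : (1 - t)⁻¹ ≤ Real.exp (2 * t) := by
  have h2 : (0 : ℝ) < 1 - t := by linarith
  have h3 : 1 + 2 * t ≤ Real.exp (2 * t) := by
    have := Real.add_one_le_exp (2 * t)
    linarith
  have h4 : (1 - t)⁻¹ ≤ 1 + 2 * t := by
    rw [inv_le_comm₀ h2 (by linarith)]
    rw [inv_le_iff_one_le_mul₀ (by linarith)]
    nlinarith
  linarith

private theorem upp_F_le_neg {c : ℕ → ℝ} {p : ℕ} (hp : p.Prime) (h : c p = -1) :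
    upp_F c 1 p ≤ Real.exp (2 * ((p : ℝ) ^ 2)⁻¹) := by
  have h1 : (2 : ℝ) ≤ p := by exact_mod_cast hp.two_le
  have h0 : (0 : ℝ) < p := by linarith
  have h2 : ((p : ℝ) ^ 2)⁻¹ ≤ 1 / 2 := by
    rw [inv_le_comm₀ (by positivity) (by norm_num)]
    nlinarith
  have h3 : (0 : ℝ) ≤ ((p : ℝ) ^ 2)⁻¹ := by positivity
  have h4 : upp_F c 1 p = (1 - ((p : ℝ) ^ 2)⁻¹)⁻¹ := by
    unfold upp_F
    rw [h, Real.rpow_neg_one, ← mul_inv]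
    congr 1
    field_simp
    ring
  rw [h4]
  exact upp_inv_le h3 h2

private theorem upp_F_le_all {r : ℝ} {c : ℕ → ℝ} (hc : Rc r c) {p : ℕ} (hp : p.Prime) :
    upp_F c 1 p ≤ Real.exp (8 * (1 / (p : ℝ))) := by
  have h1 : (2 : ℝ) ≤ p := by exact_mod_cast hp.two_le
  have h0 : (0 : ℝ) < p := by linarith
  have h2 : ((p : ℝ))⁻¹ ≤ 1 / 2 := by
    rw [inv_le_comm₀ (by positivity) (by norm_num)]
    linarith
  have h3 : (0 : ℝ) < ((p : ℝ))⁻¹ := by positivity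
  have h4 : (1 - ((p : ℝ))⁻¹)⁻¹ ≤ Real.exp (2 * (p : ℝ)⁻¹) := upp_inv_le h3.le h2
  have h5 : (1 - c p * ((p : ℝ))⁻¹)⁻¹ ≤ (1 - ((p : ℝ))⁻¹)⁻¹ := by
    have h6 : c p * (p : ℝ)⁻¹ ≤ 1 * (p : ℝ)⁻¹ := mul_le_mul_of_nonneg_right (upp_abs hc p) h3.le
    exact inv_anti₀ (by linarith) (by linarith)
  have h7 : (0 : ℝ) ≤ (1 - c p * ((p : ℝ))⁻¹)⁻¹ := by
    have h6 : c p * (p : ℝ)⁻¹ ≤ 1 * (p : ℝ)⁻¹ := mul_le_mul_of_nonneg_right (upp_abs hc p) h3.le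
    exact (inv_pos.mpr (by linarith)).le
  unfold upp_F
  rw [Real.rpow_neg_one]
  calc (1 - ((p : ℝ))⁻¹)⁻¹ * (1 - c p * ((p : ℝ))⁻¹)⁻¹
      ≤ Real.exp (2 * (p : ℝ)⁻¹) * Real.exp (2 * (p : ℝ)⁻¹) :=
        mul_le_mul h4 (h5.trans h4) h7 (Real.exp_pos _).le
    _ = Real.exp (4 * (p : ℝ)⁻¹) := by
        rw [← Real.exp_add]
        congr 1
        ring
    _ ≤ Real.exp (8 * (1 / (p : ℝ))) := by
        rw [one_div]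
        exact Real.exp_le_exp.mpr (by linarith)

private theorem upp_split (c : ℕ → ℝ) {z y : ℝ} (hy : z ≤ y) :
    VS c y 1 = VS c z 1 * ∏ p ∈ (Ioc ⌊z⌋₊ ⌊y⌋₊).filter Nat.Prime, upp_F c 1 p := by
  have hf : ⌊z⌋₊ ≤ ⌊y⌋₊ := Nat.floor_le_floor hy
  have h1 : (Icc 1 ⌊y⌋₊).filter Nat.Prime =
      (Icc 1 ⌊z⌋₊).filter Nat.Prime ∪ (Ioc ⌊z⌋₊ ⌊y⌋₊).filter Nat.Prime := by
    ext p
    simp only [mem_filter, mem_union, mem_Icc, mem_Ioc]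
    constructor
    · rintro ⟨⟨a, b⟩, d⟩
      by_cases h : p ≤ ⌊z⌋₊
      · exact Or.inl ⟨⟨a, h⟩, d⟩
      · exact Or.inr ⟨⟨by omega, b⟩, d⟩
    · rintro (⟨⟨a, b⟩, d⟩ | ⟨⟨a, b⟩, d⟩)
      · exact ⟨⟨a, by omega⟩, d⟩
      · exact ⟨⟨by omega, b⟩, d⟩
  have h2 : Disjoint ((Icc 1 ⌊z⌋₊).filter Nat.Prime) ((Ioc ⌊z⌋₊ ⌊y⌋₊).filter Nat.Prime) := by
    rw [disjoint_left]
    intro p hp hq
    rw [mem_filter, mem_Icc] at hp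
    rw [mem_filter, mem_Ioc] at hq
    omega
  unfold VS
  rw [h1, prod_union h2]
  rfl

theorem vs_le {r : ℝ} {c : ℕ → ℝ} (hc : Rc r c) {z y : ℝ} (hz : 1 ≤ z) (hy : z ≤ y) :
    VS c y 1 ≤ VS c z 1 * Real.exp (4 / z + 8 * PS c z y) := by
  classical
  rw [upp_split c hy]
  refine mul_le_mul_of_nonneg_left ?_ (vs_pos hc one_pos).le
  have hN : 1 ≤ ⌊z⌋₊ := Nat.one_le_floor_iff z |>.mpr hz
  have hf : ⌊z⌋₊ ≤ ⌊y⌋₊ := Nat.floor_le_floor hy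
  obtain ⟨P, hP⟩ : ∃ P : Finset ℕ, P = (Ioc ⌊z⌋₊ ⌊y⌋₊).filter Nat.Prime := ⟨_, rfl⟩
  have hmem : ∀ p ∈ P, p.Prime := fun p hp => by
    rw [hP, mem_filter] at hp
    exact hp.2
  rw [← hP]
  have h1 : ∏ p ∈ P, upp_F c 1 p ≤
      ∏ p ∈ P, Real.exp (2 * ((p : ℝ) ^ 2)⁻¹ + (if c p = -1 then 0 else 8 * (1 / (p : ℝ)))) := by
    refine prod_le_prod (fun p hp => (upp_F_pos hc one_pos (hmem p hp)).le) fun p hp => ?_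
    by_cases h : c p = -1
    · rw [if_pos h, add_zero]
      exact upp_F_le_neg (hmem p hp) h
    · rw [if_neg h]
      refine (upp_F_le_all hc (hmem p hp)).trans (Real.exp_le_exp.mpr ?_)
      have : (0 : ℝ) ≤ 2 * ((p : ℝ) ^ 2)⁻¹ := by positivity
      linarith
  refine h1.trans ?_
  rw [← Real.exp_sum]
  refine Real.exp_le_exp.mpr ?_
  rw [sum_add_distrib]
  refine add_le_add ?_ (le_of_eq ?_)
  · have h2 : ∑ p ∈ P, 2 * ((p : ℝ) ^ 2)⁻¹ ≤ ∑ p ∈ Ioc ⌊z⌋₊ ⌊y⌋₊, 2 * ((p : ℝ) ^ 2)⁻¹ := by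
      refine sum_le_sum_of_subset_of_nonneg ?_ fun p _ _ => by positivity
      rw [hP]
      exact filter_subset _ _
    refine h2.trans ?_
    rw [← mul_sum]
    have h3 : ∑ p ∈ Ioc ⌊z⌋₊ ⌊y⌋₊, ((p : ℝ) ^ 2)⁻¹ ≤ ((⌊z⌋₊ : ℕ) : ℝ)⁻¹ - ((⌊y⌋₊ : ℕ) : ℝ)⁻¹ :=
      sum_Ioc_inv_sq_le_sub (by omega) hf
    have h4 : (0 : ℝ) ≤ ((⌊y⌋₊ : ℕ) : ℝ)⁻¹ := by positivity
    have h5 : (0 : ℝ) < ((⌊z⌋₊ : ℕ) : ℝ) := by exact_mod_cast hN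
    have h6 : z ≤ 2 * ((⌊z⌋₊ : ℕ) : ℝ) := by
      have h7 := Nat.lt_floor_add_one z
      have h8 : (1 : ℝ) ≤ ((⌊z⌋₊ : ℕ) : ℝ) := by exact_mod_cast hN
      linarith
    have h9 : ((⌊z⌋₊ : ℕ) : ℝ)⁻¹ ≤ 2 / z := by
      rw [inv_eq_one_div, div_le_div_iff₀ h5 (by linarith)]
      linarith
    calc 2 * ∑ p ∈ Ioc ⌊z⌋₊ ⌊y⌋₊, ((p : ℝ) ^ 2)⁻¹ ≤ 2 * (2 / z) := by linarith
      _ = 4 / z := by ring
  · unfold PS
    rw [mul_sum, hP, sum_filter, sum_filter]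
    refine sum_congr rfl fun p _ => ?_
    by_cases h1 : p.Prime
    · by_cases h2 : c p = -1
      · rw [if_pos h1, if_pos h2, if_neg (fun h => h.2 h2)]
      · rw [if_pos h1, if_neg h2, if_pos ⟨h1, h2⟩]
    · rw [if_neg h1, if_neg (fun h => h1 h.1)]

theorem sl_one {r : ℝ} {c : ℕ → ℝ} (hc : Rc r c) {x : ℝ} (hx : 1 ≤ x) : 1 ≤ SL c x := by
  have hN : 1 ≤ ⌊x⌋₊ := Nat.one_le_floor_iff x |>.mpr hx
  have h1 : (1 : ℕ) ∈ Icc 1 ⌊x⌋₊ := mem_Icc.mpr ⟨le_rfl, hN⟩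
  have h2 := single_le_sum (f := fun n : ℕ => lm c n / (n : ℝ))
    (fun n _ => upp_term_nonneg hc n) h1
  have h3 : lm c 1 / ((1 : ℕ) : ℝ) = 1 := by rw [lm_one hc]; norm_num
  unfold SL
  calc (1 : ℝ) = lm c 1 / ((1 : ℕ) : ℝ) := h3.symm
    _ ≤ _ := h2

theorem sl_mono {r : ℝ} {c : ℕ → ℝ} (hc : Rc r c) {x y : ℝ} (hxy : x ≤ y) : SL c x ≤ SL c y := by
  unfold SL
  exact sum_le_sum_of_subset_of_nonneg (Icc_subset_Icc le_rfl (Nat.floor_le_floor hxy))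
    fun n _ _ => upp_term_nonneg hc n

end Pool.MP_dd84fd_nt.RZ
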