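import Pool.Agent.Lib.MP_dd84fd_nt.RZ.Dif
import Pool.Agent.Lib.MP_dd84fd_nt.RZ.Upp
import Pool.Agent.Lib.MP_dd84fd_nt.RZ.Ran

/-!
# RZ-Cmp: `ℓ log y ≤ ε SL c y` if `c(p) = -1` for most `p` in `(y^η, y]`.  Prefix aux lemmas `cmp_`.

PROOF.  `A ≥ 1` with `e^(C0-A) ≤ min(ε/16, 1/2)`, `η = 1/(2A)`, `z1 = y^η`, `x1 = z1^A = y^(1/2)`.  ran: `VS z1 ≤ SL x1 + (ε/16) VS z1` and
`VS z1 ≤ 2 SL x1 ≤ 2 SL y` (sl_mono).  sl_le, vs_le: `SL y ≤ VS y ≤ VS z1 exp(4/z1 + 8 ε1) ≤ (1 + ε/16) VS z1` (z1 ≥ y0 large, ε1 small).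
dif: `ℓ log(y/x1) ≤ SL y - SL x1 + 40 r/√x1 ≤ (ε/8) VS z1 + 40 r/√x1 ≤ (ε/4) SL y + 40 r/√x1`, and `r ≤ y^(η/4) ≤ y^(1/8)`, `√x1 = y^(1/4)`:
`40 r/√x1 ≤ 40 y^(-1/8) ≤ ε/8 ≤ (ε/8) SL y` (sl_one) for `y ≥ z1 ≥ y0`.  `log(y/x1) = (1/2) log y`.  (If `ℓ < 0` the claim is trivial.)
-/

set_option autoImplicit false

namespace Pool.MP_dd84fd_nt.RZ

open Finset

theorem cmp (ε : ℝ) (hε : 0 < ε) : ∃ η ε1 y0 : ℝ, 0 < η ∧ η ≤ 1 / 2 ∧ 0 < ε1 ∧ 1 ≤ y0 ∧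
    ∀ (r ℓ : ℝ) (c : ℕ → ℝ), Rc r c → 1 ≤ r → Ls r ℓ c → ∀ y : ℝ, 1 ≤ y → y0 ≤ y ^ η →
    r ≤ y ^ (η / 4) → PS c (y ^ η) y ≤ ε1 → ℓ * Real.log y ≤ ε * SL c y := by
  obtain ⟨C0, hC0, hran⟩ := ran
  set δ : ℝ := min (ε / 16) (1 / 2) with hδ
  have hδ0 : 0 < δ := lt_min (by positivity) (by norm_num)
  have hδ1 : δ ≤ ε / 16 := min_le_left _ _
  have hδ2 : δ ≤ 1 / 2 := min_le_right _ _
  set A : ℝ := max 1 (C0 - Real.log δ) with hA
  have hA1 : 1 ≤ A := le_max_left _ _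
  have hA2 : C0 - Real.log δ ≤ A := le_max_right _ _
  have hA0 : 0 < A := by linarith
  have hexp : Real.exp (C0 - A) ≤ δ := by
    rw [← Real.exp_log hδ0]
    exact Real.exp_le_exp.2 (by linarith)
  set η : ℝ := 1 / (2 * A) with hη
  have hη0 : 0 < η := by positivity
  have hη1 : η ≤ 1 / 2 := by
    rw [hη]
    exact one_div_le_one_div_of_le (by norm_num) (by linarith)
  have hηA : η * A = 1 / 2 := by
    rw [hη]
    field_simp
  set L : ℝ := Real.log (1 + δ) with hL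
  have hL0 : 0 < L := Real.log_pos (by linarith)
  have hLe : Real.exp L = 1 + δ := Real.exp_log (by linarith)
  refine ⟨η, L / 16, max 8 (max (8 / L) ((320 / ε) ^ 8)), hη0, hη1, by positivity,
    le_trans (by norm_num) (le_max_left _ _), ?_⟩
  intro r ℓ c hc hr hl y hy hy0 hry hPS
  have hyp : 0 < y := by linarith
  set z : ℝ := y ^ η with hz
  have hz8 : 8 ≤ z := (le_max_left _ _).trans hy0
  have hzL : 8 / L ≤ z := (le_max_left _ _).trans ((le_max_right _ _).trans hy0)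
  have hzε : (320 / ε) ^ 8 ≤ z := (le_max_right _ _).trans ((le_max_right _ _).trans hy0)
  have hz0 : 0 < z := by linarith
  have hzy : z ≤ y := by
    rw [hz]
    calc y ^ η ≤ y ^ (1 : ℝ) := Real.rpow_le_rpow_of_exponent_le hy (by linarith)
      _ = y := Real.rpow_one y
  have hx1 : z ^ A = y ^ (1 / 2 : ℝ) := by
    rw [hz, ← Real.rpow_mul hyp.le, hηA]
  have hx1y : z ^ A ≤ y := by
    rw [hx1]
    calc y ^ (1 / 2 : ℝ) ≤ y ^ (1 : ℝ) := Real.rpow_le_rpow_of_exponent_le hy (by norm_num)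
      _ = y := Real.rpow_one y
  have hx1one : 1 ≤ z ^ A := by
    rw [hx1]
    exact Real.one_le_rpow hy (by norm_num)
  have hV0 : 0 < VS c z 1 := vs_pos hc one_pos
  have h1 := hran r c hc z A hz8 hA1
  have h2 : Real.exp (C0 - A) * VS c z 1 ≤ δ * VS c z 1 := mul_le_mul_of_nonneg_right hexp hV0.le
  have h3 : δ * VS c z 1 ≤ 1 / 2 * VS c z 1 := mul_le_mul_of_nonneg_right hδ2 hV0.le
  have h4 : SL c (z ^ A) ≤ SL c y := sl_mono hc hx1y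
  have h5 : VS c z 1 ≤ 2 * SL c y := by linarith
  have h6 : SL c y ≤ VS c y 1 := sl_le hc y
  have h7 := vs_le hc (by linarith : (1 : ℝ) ≤ z) hzy
  have h8 : Real.exp (4 / z + 8 * PS c z y) ≤ 1 + δ := by
    rw [← hLe]
    refine Real.exp_le_exp.2 ?_
    have e1 : 4 / z ≤ L / 2 := by
      rw [div_le_iff₀ hL0] at hzL
      rw [div_le_iff₀ hz0]
      linarith
    linarith
  have h9 : VS c z 1 * Real.exp (4 / z + 8 * PS c z y) ≤ VS c z 1 * (1 + δ) :=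
    mul_le_mul_of_nonneg_left h8 hV0.le
  have h10 : SL c y - SL c (z ^ A) ≤ 2 * (δ * VS c z 1) := by linarith
  have h11 : δ * VS c z 1 ≤ δ * (2 * SL c y) := mul_le_mul_of_nonneg_left h5 hδ0.le
  have h12 : 1 ≤ SL c y := sl_one hc hy
  have h13 : δ * (2 * SL c y) ≤ ε / 16 * (2 * SL c y) :=
    mul_le_mul_of_nonneg_right hδ1 (by linarith)
  have h14 := dif hc hr hl hx1one hx1y
  have h15 : Real.log (y / z ^ A) = 1 / 2 * Real.log y := by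
    rw [hx1, Real.log_div hyp.ne' (by positivity), Real.log_rpow hyp]
    ring
  have h16 : Real.sqrt (z ^ A) = y ^ (1 / 4 : ℝ) := by
    rw [hx1, Real.sqrt_eq_rpow, ← Real.rpow_mul hyp.le]
    norm_num
  have h17 : 40 * r / Real.sqrt (z ^ A) ≤ ε / 8 * SL c y := by
    rw [h16]
    have e1 : r ≤ y ^ (1 / 8 : ℝ) :=
      hry.trans (Real.rpow_le_rpow_of_exponent_le hy (by linarith))
    have e2 : y ^ (1 / 4 : ℝ) = y ^ (1 / 8 : ℝ) * y ^ (1 / 8 : ℝ) := by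
      rw [← Real.rpow_add hyp]
      norm_num
    have e3 : 0 < y ^ (1 / 8 : ℝ) := by positivity
    have e4 : 320 / ε ≤ y ^ (1 / 8 : ℝ) := by
      have f1 : (320 / ε) ^ 8 ≤ y := hzε.trans hzy
      have f2 : ((320 / ε) ^ 8) ^ (1 / 8 : ℝ) = 320 / ε := by
        rw [← Real.rpow_natCast, ← Real.rpow_mul (by positivity)]
        norm_num
      rw [← f2]
      exact Real.rpow_le_rpow (by positivity) f1 (by norm_num)
    have e5 : 40 * r / y ^ (1 / 4 : ℝ) ≤ ε / 8 := by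
      rw [e2, div_le_iff₀ (mul_pos e3 e3)]
      rw [div_le_iff₀ hε] at e4
      have f3 : 40 * r ≤ 40 * y ^ (1 / 8 : ℝ) := by linarith
      have f4 : 320 * y ^ (1 / 8 : ℝ) ≤ (y ^ (1 / 8 : ℝ) * ε) * y ^ (1 / 8 : ℝ) :=
        mul_le_mul_of_nonneg_right e4 e3.le
      linarith
    have e6 : ε / 8 * 1 ≤ ε / 8 * SL c y := mul_le_mul_of_nonneg_left h12 (by positivity)
    linarith
  rw [h15] at h14
  have h18 : 0 < ε * SL c y := by positivity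
  linarith

end Pool.MP_dd84fd_nt.RZ
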