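import Mathlib
import Pool.Agent.Lib.MP_dd84fd_nt.SW.RealPos
import Pool.Agent.Lib.MP_dd84fd_nt.SW.LFBound

/-!
# Project RZ (MP_dd84fd_nt): the exceptional real character has a real zero, definitions (helper98)

`Rc r c`: values of a real character, sums over intervals at most `r`; `Ls r ℓ c`: `ℓ = ∑ c(n)/n`;
`lm c = 1 * c`; `SL c x = ∑_{n ≤ x} lm c n / n`; `VS c z σ`: Euler product of `lm c` over `p ≤ z`;
`PS c z y`: sum of `1/p` over `z < p ≤ y` with `c p ≠ -1`; `cr χ`: real part of the values of `χ`.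
-/

set_option autoImplicit false

namespace Pool.MP_dd84fd_nt.RZ

open Finset

/-- values of a real character, sums over intervals at most `r` -/
structure Rc (r : ℝ) (c : ℕ → ℝ) : Prop where
  one : c 1 = 1
  mul : ∀ m n : ℕ, c (m * n) = c m * c n
  val : ∀ n : ℕ, c n = 1 ∨ c n = 0 ∨ c n = -1
  pv : ∀ a b : ℕ, |∑ n ∈ Ioc a b, c n| ≤ r

/-- `ℓ = ∑ c(n)/n`, with an error bound -/
def Ls (r ℓ : ℝ) (c : ℕ → ℝ) : Prop := ∀ B : ℕ, 1 ≤ B → |∑ n ∈ Icc 1 B, c n / n - ℓ| ≤ 2 * r / B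

/-- `1 * c` -/
noncomputable def lm (c : ℕ → ℝ) (n : ℕ) : ℝ := ∑ d ∈ n.divisors, c d

/-- `∑_{n ≤ x} (1 * c)(n)/n` -/
noncomputable def SL (c : ℕ → ℝ) (x : ℝ) : ℝ := ∑ n ∈ Icc 1 ⌊x⌋₊, lm c n / n

/-- the Euler product of `1 * c` over the primes `≤ z` at `σ` -/
noncomputable def VS (c : ℕ → ℝ) (z σ : ℝ) : ℝ :=
  ∏ p ∈ (Icc 1 ⌊z⌋₊).filter Nat.Prime, ((1 - (p : ℝ) ^ (-σ))⁻¹ * (1 - c p * (p : ℝ) ^ (-σ))⁻¹)

open Classical in
/-- `∑ 1/p` over `z < p ≤ y`, `c p ≠ -1` -/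
noncomputable def PS (c : ℕ → ℝ) (z y : ℝ) : ℝ :=
  ∑ p ∈ (Ioc ⌊z⌋₊ ⌊y⌋₊).filter (fun p => p.Prime ∧ c p ≠ -1), 1 / (p : ℝ)

/-- the real part of the values of `χ` -/
noncomputable def cr {q : ℕ} (χ : DirichletCharacter ℂ q) (n : ℕ) : ℝ := (χ (n : ZMod q)).re

end Pool.MP_dd84fd_nt.RZ
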