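import Pool.Agent.Lib.MP_dd84fd_nt.RZ.NN

/-!
# RZ-Dif: `SL c x - SL c x₁ ≥ ℓ log(x/x₁) - small`.  Prefix aux lemmas `dif_`.

PROOF.  Partial summation (Mathlib: `sum_mul_eq_sub_sub_integral_mul` and variants in Mathlib/NumberTheory/AbelSummation.lean;
here with `f(t) = 1/t`, coefficients `lm c n`): with `N(t) = ∑_{n ≤ t} lm c n = ℓ t + E(t)`, `|E(t)| ≤ 10 r √t` (nn),
`∑_{x₁ < n ≤ x} lm c n/n = N(x)/x - N(x₁)/x₁ + ∫_{x₁}^x N(t)/t² dt = E(x)/x - E(x₁)/x₁ + ℓ log(x/x₁) + ∫_{x₁}^x E(t)/t² dt`,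
`|E(x)/x| ≤ 10 r/√x₁`, `|E(x₁)/x₁| ≤ 10 r/√x₁`, `∫_{x₁}^∞ 10 r t^(-3/2) dt = 20 r/√x₁`.
-/

set_option autoImplicit false

namespace Pool.MP_dd84fd_nt.RZ

open Finset

open MeasureTheory

private theorem dif_zero (c : ℕ → ℝ) : lm c 0 = 0 := by
  simp [lm]

private theorem dif_Icc (u : ℕ → ℝ) (h : u 0 = 0) (n : ℕ) : ∑ k ∈ Icc 0 n, u k = ∑ k ∈ Icc 1 n, u k := by
  have h1 : Icc 0 n = insert 0 (Icc 1 n) := by
    ext k
    simp only [mem_Icc, mem_insert]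
    omega
  rw [h1, sum_insert (by simp), h, zero_add]

private theorem dif_deriv (ℓ r t : ℝ) (ht : 0 < t) :
    HasDerivAt (fun t : ℝ => ℓ * Real.log t + 20 * r * (Real.sqrt t)⁻¹)
      (ℓ * t⁻¹ - 10 * r * (t * Real.sqrt t)⁻¹) t := by
  have hs : 0 < Real.sqrt t := Real.sqrt_pos.2 ht
  have h1 := (Real.hasDerivAt_log ht.ne').const_mul ℓ
  have h2 := ((Real.hasDerivAt_sqrt ht.ne').inv hs.ne').const_mul (20 * r)
  have h3 := h1.add h2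
  have e : ℓ * t⁻¹ + 20 * r * (-(1 / (2 * Real.sqrt t)) / Real.sqrt t ^ 2) =
      ℓ * t⁻¹ - 10 * r * (t * Real.sqrt t)⁻¹ := by
    rw [Real.sq_sqrt ht.le]
    field_simp
    ring
  rw [e] at h3
  exact h3

private theorem dif_cont (ℓ r x₁ x : ℝ) (h1 : 0 < x₁) :
    ContinuousOn (fun t : ℝ => ℓ * t⁻¹ - 10 * r * (t * Real.sqrt t)⁻¹) (Set.Icc x₁ x) := by
  refine ContinuousOn.sub (continuousOn_const.mul (continuousOn_id.inv₀ ?_))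
    (continuousOn_const.mul ((continuousOn_id.mul Real.continuous_sqrt.continuousOn).inv₀ ?_))
  · intro t ht
    exact (lt_of_lt_of_le h1 ht.1).ne'
  · intro t ht
    have h0 := lt_of_lt_of_le h1 ht.1
    exact (mul_pos h0 (Real.sqrt_pos.2 h0)).ne'

theorem dif {r ℓ : ℝ} {c : ℕ → ℝ} (hc : Rc r c) (hr : 1 ≤ r) (hl : Ls r ℓ c) {x₁ x : ℝ}
    (h1 : 1 ≤ x₁) (h2 : x₁ ≤ x) :
    ℓ * Real.log (x / x₁) - 40 * r / Real.sqrt x₁ ≤ SL c x - SL c x₁ := by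
  have hx₁ : 0 < x₁ := by linarith
  have hx : 0 < x := by linarith
  have hfl : ⌊x₁⌋₊ ≤ ⌊x⌋₊ := Nat.floor_le_floor h2
  -- the difference as a sum
  have hsum : SL c x - SL c x₁ = ∑ k ∈ Ioc ⌊x₁⌋₊ ⌊x⌋₊, ((k : ℝ))⁻¹ * lm c k := by
    unfold SL
    have h3 : Icc 1 ⌊x⌋₊ = Icc 1 ⌊x₁⌋₊ ∪ Ioc ⌊x₁⌋₊ ⌊x⌋₊ := by
      ext k
      simp only [mem_Icc, mem_union, mem_Ioc]
      omega
    have h4 : Disjoint (Icc 1 ⌊x₁⌋₊) (Ioc ⌊x₁⌋₊ ⌊x⌋₊) := by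
      rw [Finset.disjoint_left]
      intro k hk hk'
      rw [mem_Icc] at hk
      rw [mem_Ioc] at hk'
      omega
    rw [h3, sum_union h4, add_sub_cancel_left]
    refine sum_congr rfl fun k _ => ?_
    rw [div_eq_inv_mul]
  -- the summatory function
  have hN : ∀ t : ℝ, 1 ≤ t → |∑ k ∈ Icc 0 ⌊t⌋₊, lm c k - ℓ * t| ≤ 10 * r * Real.sqrt t := by
    intro t ht
    rw [dif_Icc _ (dif_zero c)]
    exact nn hc hr hl ht
  have hdf : ∀ t ∈ Set.Icc x₁ x, DifferentiableAt ℝ (fun t : ℝ => t⁻¹) t := by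
    intro t ht
    exact differentiableAt_inv (lt_of_lt_of_le hx₁ ht.1).ne'
  have hder : deriv (fun t : ℝ => t⁻¹) = fun t => -(t ^ 2)⁻¹ := deriv_inv'
  have hcd : ContinuousOn (fun t : ℝ => -(t ^ 2)⁻¹) (Set.Icc x₁ x) := by
    refine ContinuousOn.neg ((continuousOn_id.pow 2).inv₀ ?_)
    intro t ht
    exact (pow_pos (lt_of_lt_of_le hx₁ ht.1) 2).ne'
  have hint : IntegrableOn (deriv fun t : ℝ => t⁻¹) (Set.Icc x₁ x) := by
    rw [hder]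
    exact hcd.integrableOn_Icc
  have habel := sum_mul_eq_sub_sub_integral_mul (lm c) hx₁.le h2 hdf hint
  have hi1 : IntegrableOn (fun t => deriv (fun t : ℝ => t⁻¹) t * ∑ k ∈ Icc 0 ⌊t⌋₊, lm c k)
      (Set.Ioc x₁ x) :=
    (integrableOn_mul_sum_Icc (lm c) hx₁.le hint).mono_set Set.Ioc_subset_Icc_self
  set g : ℝ → ℝ := fun t => ℓ * t⁻¹ - 10 * r * (t * Real.sqrt t)⁻¹ with hg
  have hgc : ContinuousOn g (Set.Icc x₁ x) := dif_cont ℓ r x₁ x hx₁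
  have hi2 : IntegrableOn (fun t => -g t) (Set.Ioc x₁ x) :=
    (hgc.neg.integrableOn_Icc).mono_set Set.Ioc_subset_Icc_self
  have hle : ∫ t in Set.Ioc x₁ x, deriv (fun t : ℝ => t⁻¹) t * ∑ k ∈ Icc 0 ⌊t⌋₊, lm c k ≤
      ∫ t in Set.Ioc x₁ x, -g t := by
    refine setIntegral_mono_on hi1 hi2 measurableSet_Ioc ?_
    intro t ht
    have ht1 : 1 ≤ t := h1.trans ht.1.le
    have ht0 : 0 < t := by linarith
    have hs : 0 < Real.sqrt t := Real.sqrt_pos.2 ht0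
    have h5 := (abs_le.1 (hN t ht1)).1
    rw [hder]
    have h6 : g t = (t ^ 2)⁻¹ * (ℓ * t - 10 * r * Real.sqrt t) := by
      simp only [hg]
      have h7 : Real.sqrt t * Real.sqrt t = t := Real.mul_self_sqrt ht0.le
      have h8 : (t * Real.sqrt t)⁻¹ = (t ^ 2)⁻¹ * Real.sqrt t := by
        rw [← one_div, ← one_div, div_mul_eq_mul_div, div_eq_div_iff (by positivity) (by positivity)]
        linear_combination (-t) * h7
      rw [h8]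
      field_simp
    rw [h6]
    have h9 : 0 < (t ^ 2)⁻¹ := by positivity
    have h10 := mul_le_mul_of_nonneg_left (by linarith : ℓ * t - 10 * r * Real.sqrt t ≤
      ∑ k ∈ Icc 0 ⌊t⌋₊, lm c k) h9.le
    simp only
    linarith
  have hval : ∫ t in Set.Ioc x₁ x, -g t = -((ℓ * Real.log x + 20 * r * (Real.sqrt x)⁻¹) -
      (ℓ * Real.log x₁ + 20 * r * (Real.sqrt x₁)⁻¹)) := by
    rw [integral_neg, ← intervalIntegral.integral_of_le h2]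
    congr 1
    refine intervalIntegral.integral_eq_sub_of_hasDerivAt
      (f := fun t : ℝ => ℓ * Real.log t + 20 * r * (Real.sqrt t)⁻¹) ?_ ?_
    · intro t ht
      rw [Set.uIcc_of_le h2] at ht
      exact dif_deriv ℓ r t (lt_of_lt_of_le hx₁ ht.1)
    · apply ContinuousOn.intervalIntegrable
      rw [Set.uIcc_of_le h2]
      exact hgc
  rw [hsum, habel, Real.log_div hx.ne' hx₁.ne']
  have hs1 : 0 < Real.sqrt x₁ := Real.sqrt_pos.2 hx₁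
  have hs2 : Real.sqrt x₁ ≤ Real.sqrt x := Real.sqrt_le_sqrt h2
  have hs0 : 0 < Real.sqrt x := Real.sqrt_pos.2 hx
  have hinv : (Real.sqrt x)⁻¹ ≤ (Real.sqrt x₁)⁻¹ := inv_anti₀ hs1 hs2
  have hinv0 : 0 < (Real.sqrt x)⁻¹ := inv_pos.2 hs0
  -- the boundary terms
  have hb1 : ℓ - 10 * r * (Real.sqrt x)⁻¹ ≤ x⁻¹ * ∑ k ∈ Icc 0 ⌊x⌋₊, lm c k := by
    have h5 := (abs_le.1 (hN x (h1.trans h2))).1
    have h6 := mul_le_mul_of_nonneg_left (by linarith : ℓ * x - 10 * r * Real.sqrt x ≤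
      ∑ k ∈ Icc 0 ⌊x⌋₊, lm c k) (inv_pos.2 hx).le
    refine le_trans (le_of_eq ?_) h6
    have h7 : Real.sqrt x * Real.sqrt x = x := Real.mul_self_sqrt hx.le
    have h8 : x⁻¹ * Real.sqrt x = (Real.sqrt x)⁻¹ := by
      rw [← one_div, ← one_div, div_mul_eq_mul_div, div_eq_div_iff hx.ne' hs0.ne']
      linear_combination h7
    have h9 : x⁻¹ * (ℓ * x - 10 * r * Real.sqrt x) = ℓ * (x⁻¹ * x) - 10 * r * (x⁻¹ * Real.sqrt x) := by
      ring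
    rw [h9, h8, inv_mul_cancel₀ hx.ne', mul_one]
  have hb2 : x₁⁻¹ * ∑ k ∈ Icc 0 ⌊x₁⌋₊, lm c k ≤ ℓ + 10 * r * (Real.sqrt x₁)⁻¹ := by
    have h5 := (abs_le.1 (hN x₁ h1)).2
    have h6 := mul_le_mul_of_nonneg_left (by linarith : ∑ k ∈ Icc 0 ⌊x₁⌋₊, lm c k ≤
      ℓ * x₁ + 10 * r * Real.sqrt x₁) (inv_pos.2 hx₁).le
    refine le_trans h6 (le_of_eq ?_)
    have h7 : Real.sqrt x₁ * Real.sqrt x₁ = x₁ := Real.mul_self_sqrt hx₁.le
    have h8 : x₁⁻¹ * Real.sqrt x₁ = (Real.sqrt x₁)⁻¹ := by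
      rw [← one_div, ← one_div, div_mul_eq_mul_div, div_eq_div_iff hx₁.ne' hs1.ne']
      linear_combination h7
    have h9 : x₁⁻¹ * (ℓ * x₁ + 10 * r * Real.sqrt x₁) =
        ℓ * (x₁⁻¹ * x₁) + 10 * r * (x₁⁻¹ * Real.sqrt x₁) := by
      ring
    rw [h9, h8, inv_mul_cancel₀ hx₁.ne', mul_one]
  have hr0 : 0 < r := by linarith
  have h40 : 40 * r / Real.sqrt x₁ = 40 * r * (Real.sqrt x₁)⁻¹ := div_eq_mul_inv _ _
  rw [h40]
  have hA : 10 * r * (Real.sqrt x)⁻¹ ≤ 10 * r * (Real.sqrt x₁)⁻¹ :=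
    mul_le_mul_of_nonneg_left hinv (by positivity)
  have hB : 0 ≤ 20 * r * (Real.sqrt x)⁻¹ := by positivity
  linarith

end Pool.MP_dd84fd_nt.RZ
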