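import Pool.Agent.Lib.MP_dd84fd_nt.RZ.LmA

/-!
# RZ-Eul: the Euler product over smooth numbers.  Prefix aux lemmas `eul_`.

PROOF.  Mathlib: `EulerProduct.summable_and_hasSum_smoothNumbers_prod_primesBelow_tsum` (hf₁, hmul on coprime numbers, norms summable on
prime powers) with `f m = lm c m * m^(-σ)` (define `f 0 = 0` is automatic: `lm c 0 = 0`), `N = ⌊z⌋₊ + 1` (`primesBelow N` = primes `≤ ⌊z⌋₊`).
`∑_k f(p^k) = ∑_k x^k ∑_{i ≤ k} c^i = 1/((1-x)(1-cx))`, `x = p^(-σ) < 1`, `c = c(p)` (Cauchy product of two geometric series, lm_pp).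
-/

set_option autoImplicit false

namespace Pool.MP_dd84fd_nt.RZ

open Finset

private theorem eul_geo {c x : ℝ} (hx0 : 0 ≤ x) (hx : x < 1) (hc : |c| ≤ 1) :
    (Summable fun k : ℕ => ‖(∑ i ∈ range (k + 1), c ^ i) * x ^ k‖) ∧
      ∑' k : ℕ, (∑ i ∈ range (k + 1), c ^ i) * x ^ k = (1 - x)⁻¹ * (1 - c * x)⁻¹ := by
  have hcx : ‖c * x‖ < 1 := by
    rw [Real.norm_eq_abs, abs_mul, abs_of_nonneg hx0]
    nlinarith [abs_nonneg c]
  have hxx : ‖x‖ < 1 := by
    rw [Real.norm_eq_abs, abs_of_nonneg hx0]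
    exact hx
  have h1 : Summable (fun k : ℕ => ‖(c * x) ^ k‖) := summable_norm_geometric_of_norm_lt_one hcx
  have h2 : Summable (fun k : ℕ => ‖x ^ k‖) := summable_norm_geometric_of_norm_lt_one hxx
  have h3 : ∀ k : ℕ, ∑ i ∈ range (k + 1), (c * x) ^ i * x ^ (k - i) =
      (∑ i ∈ range (k + 1), c ^ i) * x ^ k := by
    intro k
    rw [sum_mul]
    apply sum_congr rfl
    intro i hi
    have hi' : i ≤ k := Nat.lt_succ_iff.mp (mem_range.mp hi)
    rw [mul_pow, mul_assoc, ← pow_add, Nat.add_sub_cancel' hi']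
  constructor
  · have h := summable_norm_sum_mul_range_of_summable_norm h1 h2
    simpa only [h3] using h
  · have h := tsum_mul_tsum_eq_tsum_sum_range_of_summable_norm h1 h2
    simp only [h3] at h
    rw [← h, tsum_geometric_of_norm_lt_one hcx, tsum_geometric_of_norm_lt_one hxx]
    ring

theorem eul {r : ℝ} {c : ℕ → ℝ} (hc : Rc r c) {z σ : ℝ} (hσ : 0 < σ) :
    HasSum (fun m : Nat.smoothNumbers (⌊z⌋₊ + 1) => lm c m * ((m : ℕ) : ℝ) ^ (-σ)) (VS c z σ) := by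
  classical
  set f : ℕ → ℝ := fun m => lm c m * (m : ℝ) ^ (-σ) with hf
  have hf1 : f 1 = 1 := by
    simp [hf, lm_one hc]
  have hmul : ∀ {m n : ℕ}, Nat.Coprime m n → f (m * n) = f m * f n := by
    intro m n h
    simp only [hf]
    rw [lm_cop hc h, Nat.cast_mul, Real.mul_rpow (Nat.cast_nonneg _) (Nat.cast_nonneg _)]
    ring
  have hpk : ∀ {p : ℕ}, p.Prime → ∀ k : ℕ, f (p ^ k) =
      (∑ i ∈ range (k + 1), c p ^ i) * ((p : ℝ) ^ (-σ)) ^ k := by
    intro p hp k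
    simp only [hf]
    rw [lm_pp hc hp, Nat.cast_pow, ← Real.rpow_natCast, ← Real.rpow_natCast,
      ← Real.rpow_mul (Nat.cast_nonneg _), ← Real.rpow_mul (Nat.cast_nonneg _), mul_comm (k : ℝ)]
  have hx0 : ∀ p : ℕ, 0 ≤ (p : ℝ) ^ (-σ) := fun p => Real.rpow_nonneg (Nat.cast_nonneg _) _
  have hx1 : ∀ {p : ℕ}, p.Prime → (p : ℝ) ^ (-σ) < 1 := by
    intro p hp
    apply Real.rpow_lt_one_of_one_lt_of_neg
    · exact_mod_cast hp.one_lt
    · linarith
  have hcp : ∀ n : ℕ, |c n| ≤ 1 := by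
    intro n
    rcases hc.val n with h | h | h <;> rw [h] <;> norm_num
  have hsum : ∀ {p : ℕ}, p.Prime → Summable (fun n : ℕ => ‖f (p ^ n)‖) := by
    intro p hp
    simp only [hpk hp]
    exact (eul_geo (hx0 p) (hx1 hp) (hcp p)).1
  have h := (EulerProduct.summable_and_hasSum_smoothNumbers_prod_primesBelow_tsum hf1 hmul hsum
    (⌊z⌋₊ + 1)).2
  have hprod : ∏ p ∈ (⌊z⌋₊ + 1).primesBelow, ∑' n : ℕ, f (p ^ n) = VS c z σ := by
    unfold VS
    apply Finset.prod_congr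
    · ext p
      rw [Nat.mem_primesBelow, mem_filter, mem_Icc]
      constructor
      · rintro ⟨h1, h2⟩
        exact ⟨⟨h2.one_lt.le, by omega⟩, h2⟩
      · rintro ⟨⟨h1, h3⟩, h2⟩
        exact ⟨by omega, h2⟩
    · intro p hp
      rw [mem_filter] at hp
      simp only [hpk hp.2]
      exact (eul_geo (hx0 p) (hx1 hp.2) (hcp p)).2
  rw [hprod] at h
  exact h

end Pool.MP_dd84fd_nt.RZ
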