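import Pool.Agent.Lib.MP_dd84fd_nt.QZ.Defs

/-!
# RZ-GDefs: signs on the grid (helper98)

`Wn h i`: the integers in `(Y h i, Y h (i+1)]`; `tt h u k i`: the sign `t` for which `t u(y)` is closest to `u(y / Y h i)`, `y = Y h k`.
-/

set_option autoImplicit false

namespace Pool.MP_dd84fd_nt.RZ

open Finset
open Pool.MP_dd84fd_nt.QZ

/-- the integers in `(Y h i, Y h (i+1)]` -/
noncomputable def Wn (h : ℝ) (i : ℕ) : Finset ℕ := Ioc ⌊Y h i⌋₊ ⌊Y h (i + 1)⌋₊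

open Classical in
/-- the sign of `u(y / Y h i)` relative to `u(y)`, `y = Y h k` -/
noncomputable def tt (h : ℝ) (u : ℝ → ℂ) (k i : ℕ) : ℤ :=
  if 0 ≤ (u (Y h k / Y h i) * (starRingEnd ℂ) (u (Y h k))).re then 1 else -1

end Pool.MP_dd84fd_nt.RZ
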