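import Pool.Agent.Lib.MP_dd84fd_nt.RZ.GDefs

/-!
# RZ-GrdA: the signs of a real heavy function on the grid.  Prefix aux lemmas `grda_`.

PROOF.  `y = Y h k = e^(hk)`, `a_i = u(y/Y_i)`, `b = u(y)`, `t_i = tt h u k i`.  `‖a - t b‖² = ‖a‖² + ‖b‖² - 2 t Re(a conj b)` is smallest for `t = t_i`,
and `‖a + t_i b‖ ≥ ‖b‖` (`≥ ‖a - t_i b‖`, and their sum is `≥ 2‖b‖`).  `C δ0 ≤ lam/80`, `δ0 ≤ 1/2`.  `1 ≤ log z ≤ ε h k ≤ ε k` (`z ≥ e`, `h ≤ δ ≤ 1`).
`m ∈ Wn h i`, `La z m ≠ 0`: `m` is rough, `‖f m‖ = 1`, so `f m = ±1`; `y/m ≤ y/Y_i ≤ (y/m) e^h`: `‖u(y/m) - a_i‖ ≤ C δ` (Sys.slow).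
(1) `i < k`, `Y_i ≥ z`: mass `∑_{Wn h i} La z m/m ≥ h - δh ≥ h/2` (Pm.win, `M = Y_i`, `Y_(i+1) = Y_i e^h`).  If `‖a_i - t_i b‖ > lam/40` then
`‖f m u(y/m) + u y‖ ≥ ‖a_i - t_i b‖ - Cδ ≥ lam/80` for all rough `m` in the window, which gives `≥ (h/2)(lam/80)²` in `DD z f u y` (the windows `i < k` are
disjoint parts of `Icc 1 ⌊y⌋₊`): at most `12800 ε k/lam²` such `i`.  `Y_i < z`: `h i < log z ≤ ε h k`: at most `ε k + 1 ≤ 2 ε k`.
(2) if `i`, `i+1 < k` are both close: `‖(t_(i+1) - t_i) b‖ ≤ lam/20 + Cδ < 2 lam`, so `t_(i+1) = t_i`; (`i + 1 = k`: one index, `1 ≤ ε k`).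
(3) `m ∈ Wn h i`, `La z m ≠ 0`, `f m ≠ -t_i`: `f m = t_i`, `‖f m u(y/m) + u y‖ ≥ ‖t_i a_i + b‖ - Cδ = ‖a_i + t_i b‖ - Cδ ≥ lam/2`; so the sum is `≤ 4 DD/lam²`.
-/

set_option autoImplicit false

namespace Pool.MP_dd84fd_nt.RZ

open Finset
open Pool.MP_dd84fd_nt.QZ

private theorem grda_sgn (a b : ℂ) (t : ℤ)
    (ht : t = if 0 ≤ (a * (starRingEnd ℂ) b).re then 1 else -1) :
    (t = 1 ∨ t = -1) ∧ ‖a - (t : ℂ) * b‖ ≤ ‖a - b‖ ∧ ‖a - (t : ℂ) * b‖ ≤ ‖a + b‖ ∧
      ‖b‖ ≤ ‖a + (t : ℂ) * b‖ := by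
  have h1 : ‖a - b‖ ^ 2 = ‖a‖ ^ 2 + ‖b‖ ^ 2 - 2 * (a * (starRingEnd ℂ) b).re := by
    rw [← Complex.normSq_eq_norm_sq, ← Complex.normSq_eq_norm_sq, ← Complex.normSq_eq_norm_sq,
      Complex.normSq_sub]
  have h2 : ‖a + b‖ ^ 2 = ‖a‖ ^ 2 + ‖b‖ ^ 2 + 2 * (a * (starRingEnd ℂ) b).re := by
    rw [← Complex.normSq_eq_norm_sq, ← Complex.normSq_eq_norm_sq, ← Complex.normSq_eq_norm_sq,
      Complex.normSq_add]
  have ha := sq_nonneg ‖a‖
  split_ifs at ht with hr
  · subst ht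
    rw [Int.cast_one, one_mul]
    refine ⟨Or.inl rfl, le_rfl, ?_, ?_⟩
    · rw [← sq_le_sq₀ (norm_nonneg _) (norm_nonneg _)]
      linarith
    · rw [← sq_le_sq₀ (norm_nonneg _) (norm_nonneg _)]
      linarith
  · subst ht
    push Not at hr
    have e : ((-1 : ℤ) : ℂ) * b = -b := by
      push_cast
      ring
    rw [e, sub_neg_eq_add, ← sub_eq_add_neg]
    refine ⟨Or.inr rfl, ?_, le_rfl, ?_⟩
    · rw [← sq_le_sq₀ (norm_nonneg _) (norm_nonneg _)]
      linarith
    · rw [← sq_le_sq₀ (norm_nonneg _) (norm_nonneg _)]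
      linarith

private theorem grda_mul {s w b : ℂ} (hs : s = 1 ∨ s = -1) : ‖s * w + b‖ = ‖w + s * b‖ := by
  rcases hs with rfl | rfl
  · rw [one_mul, one_mul]
  · rw [neg_one_mul, neg_one_mul, neg_add_eq_sub, ← sub_eq_add_neg, norm_sub_rev]

private theorem grda_Ys (h : ℝ) (i : ℕ) : Y h (i + 1) = Y h i * Real.exp h := by
  unfold Y
  rw [← Real.exp_add]
  congr 1
  push_cast
  ring

private theorem grda_Ypos (h : ℝ) (i : ℕ) : 0 < Y h i := Real.exp_pos _

private theorem grda_Ymono {h : ℝ} (hh : 0 < h) {i j : ℕ} (hij : i ≤ j) : Y h i ≤ Y h j := by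
  unfold Y
  apply Real.exp_le_exp.2
  apply mul_le_mul_of_nonneg_left _ hh.le
  exact_mod_cast hij

private theorem grda_win {h : ℝ} (hh : 0 < h) {i m : ℕ} (hm : m ∈ Wn h i) :
    1 ≤ m ∧ Y h i < m ∧ (m : ℝ) ≤ Y h i * Real.exp h := by
  unfold Wn at hm
  rw [mem_Ioc] at hm
  have h1 : Y h i < m := Nat.lt_of_floor_lt hm.1
  refine ⟨by omega, h1, ?_⟩
  rw [← grda_Ys]
  exact (Nat.cast_le.2 hm.2).trans (Nat.floor_le (grda_Ypos _ _).le)

private theorem grda_slow {C z L δ h : ℝ} {f : ℕ → ℂ} {u : ℝ → ℂ} (hh : 0 < h)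
    (S : Sys C z L δ h f u) {i m k : ℕ} (hm : m ∈ Wn h i) :
    ‖u (Y h k / Y h i) - u (Y h k / m)‖ ≤ C * δ := by
  obtain ⟨h1, h2, h3⟩ := grda_win hh hm
  have hy := grda_Ypos h k
  have hi := grda_Ypos h i
  have hm0 : (0 : ℝ) < m := by exact_mod_cast h1
  refine S.slow _ _ (div_pos hy hm0) (div_le_div_of_nonneg_left hy.le hi h2.le) ?_
  rw [div_mul_eq_mul_div, div_le_div_iff₀ hi hm0, mul_assoc]
  apply mul_le_mul_of_nonneg_left _ hy.le
  rw [mul_comm]
  exact h3

private theorem grda_La_nonneg (z : ℝ) (m : ℕ) : 0 ≤ La z m := by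
  unfold La Pool.MP_dd84fd_nt.En.rho
  split_ifs
  · rw [one_mul]
    exact ArithmeticFunction.vonMangoldt_nonneg
  · rw [zero_mul]

private theorem grda_val {C z L δ h : ℝ} {f : ℕ → ℂ} {u : ℝ → ℂ} (S : Sys C z L δ h f u)
    (hf : ∀ m, f m = 1 ∨ f m = 0 ∨ f m = -1) {m : ℕ} (hm : 1 ≤ m) (hL : La z m ≠ 0) :
    f m = 1 ∨ f m = -1 := by
  have hr : Pool.MP_dd84fd_nt.En.Rough z m := by
    by_contra hc
    apply hL
    unfold La Pool.MP_dd84fd_nt.En.rho
    rw [if_neg hc, zero_mul]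
  have h1 := S.one m hm hr
  rcases hf m with h | h | h
  · exact Or.inl h
  · rw [h, norm_zero] at h1
    exact absurd h1 (by norm_num)
  · exact Or.inr h

private theorem grda_sum {h : ℝ} (hh : 0 < h) (g : ℕ → ℝ) (hg : ∀ m, 0 ≤ g m) (k : ℕ) :
    ∑ i ∈ range k, ∑ m ∈ Wn h i, g m ≤ ∑ m ∈ Icc 1 ⌊Y h k⌋₊, g m := by
  have h1 : ∑ i ∈ range k, ∑ m ∈ Wn h i, g m = ∑ m ∈ Ioc ⌊Y h 0⌋₊ ⌊Y h k⌋₊, g m := by
    induction k with
    | zero => simp
    | succ k ih =>
      rw [sum_range_succ, ih]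
      unfold Wn
      exact sum_Ioc_consecutive g (Nat.floor_mono (grda_Ymono hh (Nat.zero_le k)))
        (Nat.floor_mono (grda_Ymono hh (Nat.le_succ k)))
  rw [h1]
  refine sum_le_sum_of_subset_of_nonneg (fun m hm => ?_) fun m _ _ => hg m
  rw [mem_Ioc] at hm
  rw [mem_Icc]
  omega

private theorem grda_mass {z L δ h : ℝ} (P : Pm z L δ h) (hδ : δ ≤ 1 / 2) {i : ℕ} (hz : z ≤ Y h i)
    (hL : Y h i ≤ Real.exp L) : h / 2 ≤ ∑ m ∈ Wn h i, La z m / m := by
  have h1 := P.win (Y h i) hz hL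
  rw [← grda_Ys] at h1
  have h2 := (abs_le.1 h1).1
  have h3 : δ * h ≤ 1 / 2 * h := mul_le_mul_of_nonneg_right hδ P.h0.le
  unfold Wn
  linarith

open Classical in
theorem grdA (C lam : ℝ) (hC : 1 ≤ C) (hlam : 0 < lam) : ∃ C' δ0 : ℝ, 0 < C' ∧ 0 < δ0 ∧
    ∀ (ε z L δ h : ℝ) (f : ℕ → ℂ) (u : ℝ → ℂ), 0 < ε → Pm z L δ h → δ ≤ δ0 →
    Sys C z L δ h f u → (∀ m, f m = 1 ∨ f m = 0 ∨ f m = -1) → ∀ k : ℕ, Y h k ≤ Real.exp L →
    Real.log z ≤ ε * (h * k) → lam ≤ ‖u (Y h k)‖ → DD z f u (Y h k) ≤ ε * (h * k) →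
    (((range k).filter (fun i =>
      lam / 40 < ‖u (Y h k / Y h i) - (tt h u k i : ℂ) * u (Y h k)‖)).card : ℝ) ≤ C' * ε * k ∧
    (((range k).filter (fun i => tt h u k (i + 1) ≠ tt h u k i)).card : ℝ) ≤ C' * ε * k ∧
    ∑ i ∈ range k, ∑ m ∈ (Wn h i).filter (fun m => f m ≠ -(tt h u k i : ℂ)), La z m / m ≤
      C' * ε * (h * k) := by
  obtain ⟨K, hK⟩ : ∃ K : ℝ, K = 12800 / lam ^ 2 + 2 := ⟨_, rfl⟩
  have hK0 : 0 < K := by
    rw [hK]
    positivity
  refine ⟨2 * K + 1, min (1 / 2) (lam / (80 * C)), by positivity,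
    lt_min (by norm_num) (by positivity), ?_⟩
  intro ε z L δ h f u hε P hδ S hf k hkL hlog hu hDD
  have hδ1 : δ ≤ 1 / 2 := hδ.trans (min_le_left _ _)
  have hCδ : C * δ ≤ lam / 80 := by
    have h1 : δ ≤ lam / (80 * C) := hδ.trans (min_le_right _ _)
    rw [le_div_iff₀ (by positivity)] at h1
    linarith
  have hh := P.h0
  have hh1 : h ≤ 1 := P.h1.trans P.d1
  have hz0 : 0 < z := (Real.exp_pos 1).trans_le P.z0
  have hlog1 : 1 ≤ Real.log z := (Real.le_log_iff_exp_le hz0).2 P.z0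
  have hk0 : (0 : ℝ) ≤ k := Nat.cast_nonneg k
  have hεk : 1 ≤ ε * k := by
    have h1 : h * k ≤ 1 * k := mul_le_mul_of_nonneg_right hh1 hk0
    have h2 : ε * (h * k) ≤ ε * (1 * k) := mul_le_mul_of_nonneg_left h1 hε.le
    linarith
  obtain ⟨b, hb⟩ : ∃ b, b = u (Y h k) := ⟨_, rfl⟩
  obtain ⟨g, hg⟩ : ∃ g : ℕ → ℝ, g = fun m => La z m / m * ‖f m * u (Y h k / m) + b‖ ^ 2 := ⟨_, rfl⟩
  have hg0 : ∀ m, 0 ≤ g m := by
    intro m
    rw [hg]
    have := grda_La_nonneg z m
    positivity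
  have hDg : DD z f u (Y h k) = ∑ m ∈ Icc 1 ⌊Y h k⌋₊, g m := by
    unfold DD
    rw [hg, hb]
  rw [hDg] at hDD
  have hsum := (grda_sum hh g hg0 k).trans hDD
  rw [← hb] at hu
  have hsg : ∀ i, (tt h u k i = 1 ∨ tt h u k i = -1) ∧
      ‖u (Y h k / Y h i) - (tt h u k i : ℂ) * b‖ ≤ ‖u (Y h k / Y h i) - b‖ ∧
      ‖u (Y h k / Y h i) - (tt h u k i : ℂ) * b‖ ≤ ‖u (Y h k / Y h i) + b‖ ∧
      ‖b‖ ≤ ‖u (Y h k / Y h i) + (tt h u k i : ℂ) * b‖ := by
    intro i
    refine grda_sgn _ b _ ?_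
    rw [hb]
    unfold tt
    split_ifs <;> rfl
  -- the bad indices
  obtain ⟨Bad, hBad⟩ : ∃ Bad : Finset ℕ, Bad = (range k).filter (fun i =>
      lam / 40 < ‖u (Y h k / Y h i) - (tt h u k i : ℂ) * u (Y h k)‖) := ⟨_, rfl⟩
  have hmB : ∀ i, i ∈ Bad ↔ i < k ∧ lam / 40 < ‖u (Y h k / Y h i) - (tt h u k i : ℂ) * b‖ := by
    intro i
    rw [hBad, mem_filter, mem_range, hb]
  have hB1 : ((Bad.filter (fun i => z ≤ Y h i)).card : ℝ) ≤ 12800 / lam ^ 2 * (ε * k) := by
    have h1 : ((Bad.filter (fun i => z ≤ Y h i)).card : ℝ) * ((lam / 80) ^ 2 * (h / 2)) ≤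
        ∑ i ∈ Bad.filter (fun i => z ≤ Y h i), ∑ m ∈ Wn h i, g m := by
      rw [← nsmul_eq_mul]
      refine card_nsmul_le_sum _ _ _ fun i hi => ?_
      rw [mem_filter, hmB] at hi
      obtain ⟨⟨hik, hbad⟩, hzi⟩ := hi
      have hmass := grda_mass P hδ1 hzi ((grda_Ymono hh hik.le).trans hkL)
      calc (lam / 80) ^ 2 * (h / 2) ≤ (lam / 80) ^ 2 * ∑ m ∈ Wn h i, La z m / m :=
            mul_le_mul_of_nonneg_left hmass (by positivity)
        _ = ∑ m ∈ Wn h i, (lam / 80) ^ 2 * (La z m / m) := mul_sum _ _ _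
        _ ≤ ∑ m ∈ Wn h i, g m := by
            refine sum_le_sum fun m hm => ?_
            rw [hg]
            simp only
            by_cases hL : La z m = 0
            · rw [hL]
              simp
            obtain ⟨hm1, -, -⟩ := grda_win hh hm
            have hv := grda_val S hf hm1 hL
            have hsl := grda_slow (k := k) hh S hm
            have hLn := grda_La_nonneg z m
            have hn : lam / 80 ≤ ‖f m * u (Y h k / m) + b‖ := by
              rw [grda_mul hv]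
              have h3 : ‖u (Y h k / Y h i) - (tt h u k i : ℂ) * b‖ ≤
                  ‖u (Y h k / Y h i) + f m * b‖ := by
                rcases hv with hv | hv
                · rw [hv, one_mul]
                  exact (hsg i).2.2.1
                · rw [hv, neg_one_mul, ← sub_eq_add_neg]
                  exact (hsg i).2.1
              have h4 : ‖u (Y h k / Y h i) + f m * b‖ ≤
                  ‖u (Y h k / Y h i) - u (Y h k / m)‖ + ‖u (Y h k / m) + f m * b‖ := by
                refine le_trans (le_of_eq ?_) (norm_add_le _ _)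
                congr 1
                ring
              linarith
            rw [mul_comm]
            apply mul_le_mul_of_nonneg_left _ (by positivity)
            exact pow_le_pow_left₀ (by positivity) hn 2
    have h2 : ∑ i ∈ Bad.filter (fun i => z ≤ Y h i), ∑ m ∈ Wn h i, g m ≤
        ∑ i ∈ range k, ∑ m ∈ Wn h i, g m := by
      refine sum_le_sum_of_subset_of_nonneg (fun i hi => ?_)
        fun i _ _ => sum_nonneg fun m _ => hg0 m
      rw [mem_filter, hmB] at hi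
      exact mem_range.2 hi.1.1
    have h3 := (h1.trans h2).trans hsum
    have h4 : ((Bad.filter (fun i => z ≤ Y h i)).card : ℝ) * (lam ^ 2 / 12800) ≤ ε * k := by
      refine le_of_mul_le_mul_right ?_ hh
      calc ((Bad.filter (fun i => z ≤ Y h i)).card : ℝ) * (lam ^ 2 / 12800) * h =
            ((Bad.filter (fun i => z ≤ Y h i)).card : ℝ) * ((lam / 80) ^ 2 * (h / 2)) := by ring
        _ ≤ ε * (h * k) := h3
        _ = ε * k * h := by ring
    have h5 : 0 < lam ^ 2 / 12800 := by positivity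
    rw [← le_div_iff₀ h5] at h4
    refine h4.trans (le_of_eq ?_)
    field_simp
  have hB2 : ((Bad.filter (fun i => ¬ z ≤ Y h i)).card : ℝ) ≤ 2 * (ε * k) := by
    have h1 : Bad.filter (fun i => ¬ z ≤ Y h i) ⊆ range (⌊ε * k⌋₊ + 1) := by
      intro i hi
      rw [mem_filter, not_le] at hi
      have h2 : h * i < Real.log z := by
        have h3 := Real.log_lt_log (grda_Ypos h i) hi.2
        unfold Y at h3
        rwa [Real.log_exp] at h3
      have h4 : h * i < h * (ε * k) := by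
        calc h * i < ε * (h * k) := h2.trans_le hlog
          _ = h * (ε * k) := by ring
      have h5 : (i : ℝ) < ε * k := lt_of_mul_lt_mul_left h4 hh.le
      rw [mem_range, Nat.lt_succ_iff]
      exact Nat.le_floor h5.le
    have h2 := card_le_card h1
    rw [card_range] at h2
    have h3 : ((Bad.filter (fun i => ¬ z ≤ Y h i)).card : ℝ) ≤ (⌊ε * k⌋₊ : ℝ) + 1 := by
      exact_mod_cast h2
    have h4 : (⌊ε * k⌋₊ : ℝ) ≤ ε * k := Nat.floor_le (by positivity)
    linarith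
  have hB : (Bad.card : ℝ) ≤ K * (ε * k) := by
    have h1 : (Bad.filter (fun i => z ≤ Y h i)).card + (Bad.filter (fun i => ¬ z ≤ Y h i)).card =
        Bad.card := card_filter_add_card_filter_not _
    have h2 : (Bad.card : ℝ) = ((Bad.filter (fun i => z ≤ Y h i)).card : ℝ) +
        ((Bad.filter (fun i => ¬ z ≤ Y h i)).card : ℝ) := by
      rw [← h1]
      push_cast
      rfl
    rw [h2, hK]
    linarith
  have hKk : 0 ≤ K * (ε * k) := by positivity
  refine ⟨?_, ?_, ?_⟩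
  · rw [← hBad]
    have : (2 * K + 1) * ε * k = 2 * (K * (ε * k)) + ε * k := by ring
    rw [this]
    linarith
  · have h1 : (range k).filter (fun i => tt h u k (i + 1) ≠ tt h u k i) ⊆
        Bad ∪ (Bad.image (fun i => i - 1) ∪ {k - 1}) := by
      intro i hi
      rw [mem_filter, mem_range] at hi
      obtain ⟨hik, hne⟩ := hi
      rw [mem_union, mem_union, mem_singleton, mem_image]
      by_cases h2 : i + 1 = k
      · right
        right
        omega
      by_cases h3 : i ∈ Bad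
      · exact Or.inl h3
      by_cases h4 : i + 1 ∈ Bad
      · exact Or.inr (Or.inl ⟨i + 1, h4, rfl⟩)
      exfalso
      rw [hmB] at h3 h4
      push Not at h3 h4
      have h5 := h3 hik
      have h6 := h4 (by omega)
      have h7 : ‖u (Y h k / Y h i) - u (Y h k / Y h (i + 1))‖ ≤ C * δ := by
        have hy := grda_Ypos h k
        refine S.slow _ _ (div_pos hy (grda_Ypos _ _))
          (div_le_div_of_nonneg_left hy.le (grda_Ypos _ _) (grda_Ymono hh (Nat.le_succ i))) ?_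
        rw [grda_Ys]
        have h8 := grda_Ypos h i
        have h9 := Real.exp_pos h
        apply le_of_eq
        field_simp
      have h8 : ‖((tt h u k (i + 1) : ℂ) - (tt h u k i : ℂ)) * b‖ ≤
          ‖u (Y h k / Y h (i + 1)) - (tt h u k (i + 1) : ℂ) * b‖ +
            (‖u (Y h k / Y h i) - u (Y h k / Y h (i + 1))‖ +
              ‖u (Y h k / Y h i) - (tt h u k i : ℂ) * b‖) := by
        have e : ((tt h u k (i + 1) : ℂ) - (tt h u k i : ℂ)) * b =
            -(u (Y h k / Y h (i + 1)) - (tt h u k (i + 1) : ℂ) * b) +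
              (-(u (Y h k / Y h i) - u (Y h k / Y h (i + 1))) +
                (u (Y h k / Y h i) - (tt h u k i : ℂ) * b)) := by ring
        rw [e]
        refine (norm_add_le _ _).trans ?_
        rw [norm_neg]
        gcongr
        refine (norm_add_le _ _).trans ?_
        rw [norm_neg]
      have h9 : ‖(tt h u k (i + 1) : ℂ) - (tt h u k i : ℂ)‖ = 2 := by
        rcases (hsg i).1 with h10 | h10 <;> rcases (hsg (i + 1)).1 with h11 | h11
        · exact absurd (h11.trans h10.symm) hne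
        · rw [h10, h11]
          norm_num
        · rw [h10, h11]
          norm_num
        · exact absurd (h11.trans h10.symm) hne
      rw [norm_mul, h9] at h8
      linarith
    have h2 := card_le_card h1
    have h3 : (Bad ∪ (Bad.image (fun i => i - 1) ∪ {k - 1})).card ≤ Bad.card + (Bad.card + 1) := by
      refine (card_union_le _ _).trans (Nat.add_le_add_left ?_ _)
      refine (card_union_le _ _).trans ?_
      rw [card_singleton]
      exact Nat.add_le_add_right card_image_le _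
    have h4 : (((range k).filter (fun i => tt h u k (i + 1) ≠ tt h u k i)).card : ℝ) ≤
        Bad.card + (Bad.card + 1) := by
      exact_mod_cast h2.trans h3
    have h5 : (2 * K + 1) * ε * k = 2 * (K * (ε * k)) + ε * k := by ring
    rw [h5]
    linarith
  · have h1 : ∑ i ∈ range k, ∑ m ∈ (Wn h i).filter (fun m => f m ≠ -(tt h u k i : ℂ)), La z m / m ≤
        ∑ i ∈ range k, ∑ m ∈ Wn h i, 4 / lam ^ 2 * g m := by
      refine sum_le_sum fun i hi => ?_
      rw [mem_range] at hi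
      refine le_trans (sum_le_sum fun m hm => ?_)
        (sum_le_sum_of_subset_of_nonneg (filter_subset _ _) fun m _ _ =>
          mul_nonneg (by positivity) (hg0 m))
      rw [mem_filter] at hm
      obtain ⟨hm, hne⟩ := hm
      rw [hg]
      simp only
      by_cases hL : La z m = 0
      · rw [hL]
        simp
      obtain ⟨hm1, -, -⟩ := grda_win hh hm
      have hv := grda_val S hf hm1 hL
      have hsl := grda_slow (k := k) hh S hm
      have hLn := grda_La_nonneg z m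
      have hft : f m = (tt h u k i : ℂ) := by
        rcases (hsg i).1 with h10 | h10 <;> rcases hv with h11 | h11
        · rw [h10, h11]
          norm_num
        · rw [h10, h11] at hne
          exact absurd (by norm_num) hne
        · rw [h10, h11] at hne
          exact absurd (by norm_num) hne
        · rw [h10, h11]
          norm_num
      have hn : lam / 2 ≤ ‖f m * u (Y h k / m) + b‖ := by
        rw [grda_mul hv]
        have h3 := (hsg i).2.2.2
        rw [← hft] at h3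
        have h4 : ‖u (Y h k / Y h i) + f m * b‖ ≤
            ‖u (Y h k / Y h i) - u (Y h k / m)‖ + ‖u (Y h k / m) + f m * b‖ := by
          refine le_trans (le_of_eq ?_) (norm_add_le _ _)
          congr 1
          ring
        linarith
      have hn2 : (lam / 2) ^ 2 ≤ ‖f m * u (Y h k / m) + b‖ ^ 2 :=
        pow_le_pow_left₀ (by positivity) hn 2
      calc La z m / m = 4 / lam ^ 2 * (La z m / m * (lam / 2) ^ 2) := by
            field_simp
            ring
        _ ≤ 4 / lam ^ 2 * (La z m / m * ‖f m * u (Y h k / m) + b‖ ^ 2) := by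
            apply mul_le_mul_of_nonneg_left _ (by positivity)
            exact mul_le_mul_of_nonneg_left hn2 (by positivity)
    have h2 : ∑ i ∈ range k, ∑ m ∈ Wn h i, 4 / lam ^ 2 * g m =
        4 / lam ^ 2 * ∑ i ∈ range k, ∑ m ∈ Wn h i, g m := by
      rw [mul_sum]
      exact sum_congr rfl fun i _ => (mul_sum _ _ _).symm
    rw [h2] at h1
    refine h1.trans ((mul_le_mul_of_nonneg_left hsum (by positivity)).trans ?_)
    rw [mul_assoc]
    have h3 : 4 / lam ^ 2 ≤ 2 * K + 1 := by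
      have h4 : (0 : ℝ) < 1 / lam ^ 2 := by positivity
      have h5 : 4 / lam ^ 2 = 4 * (1 / lam ^ 2) := by ring
      have h6 : 12800 / lam ^ 2 = 12800 * (1 / lam ^ 2) := by ring
      rw [hK, h5, h6]
      linarith
    exact mul_le_mul_of_nonneg_right h3 (by positivity)

end Pool.MP_dd84fd_nt.RZ
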