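import Pool.Agent.Lib.MP_dd84fd_nt.RZ.GrdA

/-!
# RZ-GrdB: `t_(i+j) = t_i t_j` for most pairs.  Prefix aux lemmas `grdb_`.

PROOF.  Notation of GrdA; `l = log z`, `1 ≤ l ≤ ε h k ≤ ε k`; `θ = lam/40`, `C δ ≤ lam/400`.  Pairs `(i, j)`, `i + j < k`, are discarded if
(a) `Y_i < z` or `Y_j < z` (at most `2 (ε k + 1) k ≤ 4 ε k²`), (b) `i + j + 2 > k` (at most `2k ≤ 2 ε k²`), (c) `i` is not close (grdA (1): `C' ε k²`),
(d) `i + j` is not close (`≤ C' ε k` sums, each `≤ k` pairs), (e) `∑_{m ∈ Wn h j, f m ≠ -t_j} La z m/m ≥ h/8` (grdA (3): `8 C' ε k` indices `j`),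
(f) `∑_{m ∈ Wn h i} ∑_{k' ∈ Wn h j} (La m La k'/(m k')) ‖f k' u(y/(m k')) + u(y/m)‖² > θ² h²`: since `m k' ≤ Y_(i+j+2) ≤ y` and
`∑_{m ≤ y} (La z m/m) DD z f u (y/m) ≤ ε (hk)²` contains all these double sums (disjoint; `(y/m)/k' = y/(m k')`), at most `ε k²/θ²` pairs.
For the other pairs: mass of `Wn h i` `≥ h/2`, mass of `{k' ∈ Wn h j : f k' = -t_j}` `≥ h/2 - h/8`, so by (f) there are `m`, `k'` in them (rough) with
`‖f k' u(y/(m k')) + u(y/m)‖ ≤ 4θ` (else the double sum is `≥ 16 θ² (h/2)(3h/8) > θ² h²`).  `m k' ∈ (Y_(i+j), Y_(i+j) e^(2h)]`: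
`‖u(y/(m k')) - t_(i+j) b‖ ≤ θ + 2Cδ`, `‖u(y/m) - t_i b‖ ≤ θ + Cδ`; so `‖(t_j t_(i+j) - t_i) b‖ ≤ 6θ + 3Cδ < 2 lam`: `t_j t_(i+j) = t_i`, i.e.
`t_(i+j) = t_i t_j`.
-/

set_option autoImplicit false

namespace Pool.MP_dd84fd_nt.RZ

open Finset
open Pool.MP_dd84fd_nt.QZ

private theorem grdb_tt (h : ℝ) (u : ℝ → ℂ) (k i : ℕ) : tt h u k i = 1 ∨ tt h u k i = -1 := by
  unfold tt
  split_ifs
  · exact Or.inl rfl
  · exact Or.inr rfl

private theorem grdb_Yadd (h : ℝ) (i j : ℕ) : Y h (i + j) = Y h i * Y h j := by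
  unfold Y
  rw [← Real.exp_add]
  congr 1
  push_cast
  ring

private theorem grdb_Ys (h : ℝ) (i : ℕ) : Y h (i + 1) = Y h i * Real.exp h := by
  unfold Y
  rw [← Real.exp_add]
  congr 1
  push_cast
  ring

private theorem grdb_Ypos (h : ℝ) (i : ℕ) : 0 < Y h i := Real.exp_pos _

private theorem grdb_Ymono {h : ℝ} (hh : 0 < h) {i j : ℕ} (hij : i ≤ j) : Y h i ≤ Y h j := by
  unfold Y
  apply Real.exp_le_exp.2
  apply mul_le_mul_of_nonneg_left _ hh.le
  exact_mod_cast hij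

private theorem grdb_win {h : ℝ} {i m : ℕ} (hm : m ∈ Wn h i) :
    1 ≤ m ∧ Y h i < m ∧ (m : ℝ) ≤ Y h i * Real.exp h := by
  unfold Wn at hm
  rw [mem_Ioc] at hm
  have h1 : Y h i < m := Nat.lt_of_floor_lt hm.1
  refine ⟨by omega, h1, ?_⟩
  rw [← grdb_Ys]
  exact (Nat.cast_le.2 hm.2).trans (Nat.floor_le (grdb_Ypos _ _).le)

private theorem grdb_slow {C z L δ h : ℝ} {f : ℕ → ℂ} {u : ℝ → ℂ}
    (S : Sys C z L δ h f u) {i m k : ℕ} (hm : m ∈ Wn h i) :
    ‖u (Y h k / Y h i) - u (Y h k / m)‖ ≤ C * δ := by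
  obtain ⟨h1, h2, h3⟩ := grdb_win hm
  have hy := grdb_Ypos h k
  have hi := grdb_Ypos h i
  have hm0 : (0 : ℝ) < m := by exact_mod_cast h1
  refine S.slow _ _ (div_pos hy hm0) (div_le_div_of_nonneg_left hy.le hi h2.le) ?_
  rw [div_mul_eq_mul_div, div_le_div_iff₀ hi hm0, mul_assoc]
  apply mul_le_mul_of_nonneg_left _ hy.le
  rw [mul_comm]
  exact h3

private theorem grdb_slow2 {C z L δ h : ℝ} {f : ℕ → ℂ} {u : ℝ → ℂ} (hh : 0 < h)
    (S : Sys C z L δ h f u) {x x' : ℝ} (hx : 0 < x) (h1 : x ≤ x')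
    (h2 : x' ≤ x * Real.exp h * Real.exp h) : ‖u x' - u x‖ ≤ 2 * (C * δ) := by
  have he : 1 ≤ Real.exp h := Real.one_le_exp hh.le
  have h0 : 0 ≤ C * δ := (norm_nonneg _).trans (S.slow x x hx le_rfl (le_mul_of_one_le_right hx.le he))
  by_cases h3 : x' ≤ x * Real.exp h
  · have := S.slow x x' hx h1 h3
    linarith
  · push Not at h3
    have h4 := S.slow x (x * Real.exp h) hx (le_mul_of_one_le_right hx.le he) le_rfl
    have h5 := S.slow (x * Real.exp h) x' (mul_pos hx (Real.exp_pos h)) h3.le h2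
    have h6 : u x' - u x = (u x' - u (x * Real.exp h)) + (u (x * Real.exp h) - u x) := by ring
    rw [h6]
    refine (norm_add_le _ _).trans ?_
    linarith

private theorem grdb_slow3 {C z L δ h : ℝ} {f : ℕ → ℂ} {u : ℝ → ℂ} (hh : 0 < h)
    (S : Sys C z L δ h f u) {i j m n k : ℕ} (hm : m ∈ Wn h i) (hn : n ∈ Wn h j) :
    ‖u (Y h k / Y h (i + j)) - u (Y h k / m / n)‖ ≤ 2 * (C * δ) := by
  obtain ⟨h1, h2, h3⟩ := grdb_win hm
  obtain ⟨g1, g2, g3⟩ := grdb_win hn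
  have hy := grdb_Ypos h k
  have hi := grdb_Ypos h i
  have hj := grdb_Ypos h j
  have hm0 : (0 : ℝ) < m := by exact_mod_cast h1
  have hn0 : (0 : ℝ) < n := by exact_mod_cast g1
  refine grdb_slow2 hh S (div_pos (div_pos hy hm0) hn0) ?_ ?_
  · rw [div_div, grdb_Yadd]
    exact div_le_div_of_nonneg_left hy.le (mul_pos hi hj) (mul_le_mul h2.le g2.le hj.le hm0.le)
  · rw [div_div, grdb_Yadd, mul_assoc, div_mul_eq_mul_div, div_le_div_iff₀ (mul_pos hi hj)
      (mul_pos hm0 hn0), mul_assoc]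
    apply mul_le_mul_of_nonneg_left _ hy.le
    calc (m : ℝ) * n ≤ (Y h i * Real.exp h) * (Y h j * Real.exp h) :=
          mul_le_mul h3 g3 hn0.le (mul_pos hi (Real.exp_pos h)).le
      _ = Real.exp h * Real.exp h * (Y h i * Y h j) := by ring

private theorem grdb_La_nonneg (z : ℝ) (m : ℕ) : 0 ≤ La z m := by
  unfold La Pool.MP_dd84fd_nt.En.rho
  split_ifs
  · rw [one_mul]
    exact ArithmeticFunction.vonMangoldt_nonneg
  · rw [zero_mul]

private theorem grdb_sum {h : ℝ} (hh : 0 < h) (g : ℕ → ℝ) (hg : ∀ m, 0 ≤ g m) (k : ℕ) {N : ℕ}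
    (hN : ⌊Y h k⌋₊ ≤ N) : ∑ i ∈ range k, ∑ m ∈ Wn h i, g m ≤ ∑ m ∈ Icc 1 N, g m := by
  have h1 : ∑ i ∈ range k, ∑ m ∈ Wn h i, g m = ∑ m ∈ Ioc ⌊Y h 0⌋₊ ⌊Y h k⌋₊, g m := by
    induction k with
    | zero => simp
    | succ k ih =>
      rw [sum_range_succ, ih ((Nat.floor_mono (grdb_Ymono hh (Nat.le_succ k))).trans hN)]
      unfold Wn
      exact sum_Ioc_consecutive g (Nat.floor_mono (grdb_Ymono hh (Nat.zero_le k)))
        (Nat.floor_mono (grdb_Ymono hh (Nat.le_succ k)))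
  rw [h1]
  refine sum_le_sum_of_subset_of_nonneg (fun m hm => ?_) fun m _ _ => hg m
  rw [mem_Ioc] at hm
  rw [mem_Icc]
  omega

private theorem grdb_mass {z L δ h : ℝ} (P : Pm z L δ h) (hδ : δ ≤ 1 / 2) {i : ℕ} (hz : z ≤ Y h i)
    (hL : Y h i ≤ Real.exp L) : h / 2 ≤ ∑ m ∈ Wn h i, La z m / m := by
  have h1 := P.win (Y h i) hz hL
  rw [← grdb_Ys] at h1
  have h2 := (abs_le.1 h1).1
  have h3 : δ * h ≤ 1 / 2 * h := mul_le_mul_of_nonneg_right hδ P.h0.le
  unfold Wn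
  linarith

/-- the double sum of a pair of windows -/
private noncomputable def grdbW (z h : ℝ) (f : ℕ → ℂ) (u : ℝ → ℂ) (y : ℝ) (i j : ℕ) : ℝ :=
  ∑ m ∈ Wn h i, La z m / m * ∑ n ∈ Wn h j, La z n / n * ‖f n * u (y / m / n) + u (y / m)‖ ^ 2

private theorem grdb_term_nonneg (z : ℝ) (f : ℕ → ℂ) (u : ℝ → ℂ) (x : ℝ) (n : ℕ) :
    0 ≤ La z n / n * ‖f n * u (x / n) + u x‖ ^ 2 := by
  have := grdb_La_nonneg z n
  positivity

private theorem grdb_W_nonneg (z h : ℝ) (f : ℕ → ℂ) (u : ℝ → ℂ) (y : ℝ) (i j : ℕ) :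
    0 ≤ grdbW z h f u y i j := by
  unfold grdbW
  refine sum_nonneg fun m _ => mul_nonneg ?_ (sum_nonneg fun n _ => grdb_term_nonneg z f u _ n)
  have := grdb_La_nonneg z m
  positivity

private theorem grdb_W_sum {h : ℝ} (hh : 0 < h) (z : ℝ) (f : ℕ → ℂ) (u : ℝ → ℂ) (k : ℕ) :
    ∑ i ∈ range k, ∑ j ∈ range (k - i - 1), grdbW z h f u (Y h k) i j ≤
      ∑ m ∈ Icc 1 ⌊Y h k⌋₊, La z m / m * DD z f u (Y h k / m) := by
  have hD : ∀ x, 0 ≤ DD z f u x := by
    intro x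
    unfold DD
    exact sum_nonneg fun n _ => grdb_term_nonneg z f u _ n
  have hm0 : ∀ m : ℕ, 0 ≤ La z m / m := by
    intro m
    have := grdb_La_nonneg z m
    positivity
  refine le_trans ?_ (grdb_sum hh (fun m => La z m / m * DD z f u (Y h k / m))
    (fun m => mul_nonneg (hm0 m) (hD _)) k le_rfl)
  refine sum_le_sum fun i hi => ?_
  rw [mem_range] at hi
  unfold grdbW
  rw [sum_comm]
  refine sum_le_sum fun m hm => ?_
  rw [← mul_sum]
  refine mul_le_mul_of_nonneg_left ?_ (hm0 m)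
  unfold DD
  refine grdb_sum hh (fun n => La z n / n * ‖f n * u (Y h k / m / n) + u (Y h k / m)‖ ^ 2)
    (fun n => grdb_term_nonneg z f u _ n) (k - i - 1) (Nat.floor_mono ?_)
  obtain ⟨h1, -, h3⟩ := grdb_win hm
  have hm1 : (0 : ℝ) < m := by exact_mod_cast h1
  rw [le_div_iff₀ hm1]
  have e : Y h k = Y h (k - i - 1) * Y h (i + 1) := by
    rw [← grdb_Yadd]
    congr 1
    omega
  rw [e]
  refine mul_le_mul_of_nonneg_left ?_ (grdb_Ypos _ _).le
  rw [grdb_Ys]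
  exact h3

/-- the good pairs -/
private theorem grdb_good {C z L δ h lam : ℝ} {f : ℕ → ℂ} {u : ℝ → ℂ} (hlam : 0 < lam)
    (P : Pm z L δ h) (hδ : δ ≤ 1 / 2) (hCδ : C * δ ≤ lam / 80) (S : Sys C z L δ h f u)
    {k i j : ℕ} (hkL : Y h k ≤ Real.exp L) (hu : lam ≤ ‖u (Y h k)‖) (hi : z ≤ Y h i) (hj : z ≤ Y h j)
    (hij : i + j < k)
    (hci : ‖u (Y h k / Y h i) - (tt h u k i : ℂ) * u (Y h k)‖ ≤ lam / 40)
    (hcij : ‖u (Y h k / Y h (i + j)) - (tt h u k (i + j) : ℂ) * u (Y h k)‖ ≤ lam / 40)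
    (M : Finset ℕ) (hM : ∀ n, n ∈ M ↔ n ∈ Wn h j ∧ f n ≠ -(tt h u k j : ℂ))
    (hmj : ∑ n ∈ M, La z n / n < h / 8)
    (hW : grdbW z h f u (Y h k) i j ≤ (lam / 40) ^ 2 * h ^ 2) :
    tt h u k (i + j) = tt h u k i * tt h u k j := by
  classical
  have hh := P.h0
  have hm0 : ∀ m : ℕ, 0 ≤ La z m / m := by
    intro m
    have := grdb_La_nonneg z m
    positivity
  have hmi := grdb_mass P hδ hi ((grdb_Ymono hh (by omega)).trans hkL)
  have hmj' := grdb_mass P hδ hj ((grdb_Ymono hh (by omega)).trans hkL)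
  obtain ⟨G, hG⟩ : ∃ G : Finset ℕ, G = (Wn h j).filter (fun n => f n = -(tt h u k j : ℂ)) := ⟨_, rfl⟩
  have hGm : 3 * h / 8 ≤ ∑ n ∈ G, La z n / n := by
    have h1 : ∑ n ∈ Wn h j, La z n / n = ∑ n ∈ G, La z n / n +
        ∑ n ∈ (Wn h j).filter (fun n => ¬ f n = -(tt h u k j : ℂ)), La z n / n := by
      rw [hG, sum_filter_add_sum_filter_not]
    have h2 : (Wn h j).filter (fun n => ¬ f n = -(tt h u k j : ℂ)) = M := by
      ext n
      rw [mem_filter, hM]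
    rw [h2] at h1
    linarith
  -- a good pair of integers
  obtain ⟨m, hm, n, hn, hfn, hle⟩ : ∃ m ∈ Wn h i, ∃ n ∈ Wn h j, f n = -(tt h u k j : ℂ) ∧
      ‖f n * u (Y h k / m / n) + u (Y h k / m)‖ ≤ 4 * (lam / 40) := by
    by_contra hcon
    push Not at hcon
    have h1 : ∀ m ∈ Wn h i, La z m / m * ((4 * (lam / 40)) ^ 2 * (3 * h / 8)) ≤
        La z m / m * ∑ n ∈ Wn h j, La z n / n * ‖f n * u (Y h k / m / n) + u (Y h k / m)‖ ^ 2 := by
      intro m hm
      refine mul_le_mul_of_nonneg_left ?_ (hm0 m)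
      calc (4 * (lam / 40)) ^ 2 * (3 * h / 8) ≤ (4 * (lam / 40)) ^ 2 * ∑ n ∈ G, La z n / n :=
            mul_le_mul_of_nonneg_left hGm (by positivity)
        _ = ∑ n ∈ G, (4 * (lam / 40)) ^ 2 * (La z n / n) := mul_sum _ _ _
        _ ≤ ∑ n ∈ G, La z n / n * ‖f n * u (Y h k / m / n) + u (Y h k / m)‖ ^ 2 := by
            refine sum_le_sum fun n hn => ?_
            rw [hG, mem_filter] at hn
            rw [mul_comm]
            refine mul_le_mul_of_nonneg_left ?_ (hm0 n)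
            exact pow_le_pow_left₀ (by positivity) (hcon m hm n hn.1 hn.2).le 2
        _ ≤ _ := by
            rw [hG]
            exact sum_le_sum_of_subset_of_nonneg (filter_subset _ _)
              fun n _ _ => grdb_term_nonneg z f u _ n
    have h2 := sum_le_sum h1
    rw [← sum_mul] at h2
    have h3 : h / 2 * ((4 * (lam / 40)) ^ 2 * (3 * h / 8)) ≤
        (∑ m ∈ Wn h i, La z m / m) * ((4 * (lam / 40)) ^ 2 * (3 * h / 8)) :=
      mul_le_mul_of_nonneg_right hmi (by positivity)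
    have h4 := (h3.trans h2).trans hW
    have h5 : 0 < (lam / 40) ^ 2 * h ^ 2 := by positivity
    have h6 : h / 2 * ((4 * (lam / 40)) ^ 2 * (3 * h / 8)) = 3 * ((lam / 40) ^ 2 * h ^ 2) := by ring
    linarith
  have s1 := grdb_slow (k := k) S hm
  have s2 := grdb_slow3 (k := k) hh S hm hn
  obtain ⟨b, hb⟩ : ∃ b, b = u (Y h k) := ⟨_, rfl⟩
  rw [← hb] at hci hcij hu
  have htj : ‖(tt h u k j : ℂ)‖ = 1 := by
    rcases grdb_tt h u k j with h1 | h1 <;> rw [h1] <;> norm_num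
  have key : ‖((tt h u k j : ℂ) * (tt h u k (i + j) : ℂ) - (tt h u k i : ℂ)) * b‖ ≤
      lam / 40 + 2 * (C * δ) + 4 * (lam / 40) + C * δ + lam / 40 := by
    have e : ((tt h u k j : ℂ) * (tt h u k (i + j) : ℂ) - (tt h u k i : ℂ)) * b =
        -((tt h u k j : ℂ) * (u (Y h k / Y h (i + j)) - (tt h u k (i + j) : ℂ) * b)) +
        (tt h u k j : ℂ) * (u (Y h k / Y h (i + j)) - u (Y h k / m / n)) +
        -(f n * u (Y h k / m / n) + u (Y h k / m)) +
        -(u (Y h k / Y h i) - u (Y h k / m)) + (u (Y h k / Y h i) - (tt h u k i : ℂ) * b) := by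
      rw [hfn]
      ring
    rw [e]
    refine (norm_add_le _ _).trans (add_le_add ?_ hci)
    refine (norm_add_le _ _).trans (add_le_add ?_ ?_)
    · refine (norm_add_le _ _).trans (add_le_add ?_ ?_)
      · refine (norm_add_le _ _).trans (add_le_add ?_ ?_)
        · rw [norm_neg, norm_mul, htj, one_mul]
          exact hcij
        · rw [norm_mul, htj, one_mul]
          exact s2
      · rw [norm_neg]
        exact hle
    · rw [norm_neg]
      exact s1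
  by_contra hne
  have h9 : ‖(tt h u k j : ℂ) * (tt h u k (i + j) : ℂ) - (tt h u k i : ℂ)‖ = 2 := by
    rcases grdb_tt h u k i with h1 | h1 <;> rcases grdb_tt h u k j with h2 | h2 <;>
      rcases grdb_tt h u k (i + j) with h3 | h3 <;> rw [h1, h2, h3] at hne ⊢ <;>
      first
        | (norm_num; done)
        | (exfalso; apply hne; norm_num)
  rw [norm_mul, h9] at key
  linarith

open Classical in
theorem grdB (C lam : ℝ) (hC : 1 ≤ C) (hlam : 0 < lam) : ∃ C' δ0 : ℝ, 0 < C' ∧ 0 < δ0 ∧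
    ∀ (ε z L δ h : ℝ) (f : ℕ → ℂ) (u : ℝ → ℂ), 0 < ε → Pm z L δ h → δ ≤ δ0 →
    Sys C z L δ h f u → (∀ m, f m = 1 ∨ f m = 0 ∨ f m = -1) → ∀ k : ℕ, Y h k ≤ Real.exp L →
    Real.log z ≤ ε * (h * k) → lam ≤ ‖u (Y h k)‖ → DD z f u (Y h k) ≤ ε * (h * k) →
    ∑ m ∈ Icc 1 ⌊Y h k⌋₊, La z m / m * DD z f u (Y h k / m) ≤ ε * (h * k) ^ 2 →
    ((((range k) ×ˢ (range k)).filter (fun p : ℕ × ℕ => p.1 + p.2 < k ∧
      tt h u k (p.1 + p.2) ≠ tt h u k p.1 * tt h u k p.2)).card : ℝ) ≤ C' * ε * (k : ℝ) ^ 2 := by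
  have hA0 := grdA C lam hC hlam
  obtain ⟨K, δA, hK, hδA, hA⟩ := hA0
  refine ⟨5 + 10 * K + 1600 / lam ^ 2, min δA (min (1 / 2) (lam / (80 * C))), by positivity,
    lt_min hδA (lt_min (by norm_num) (by positivity)), ?_⟩
  intro ε z L δ h f u hε P hδ S hf k hkL hlog hu hDD hTT
  have hδ1 : δ ≤ 1 / 2 := (hδ.trans (min_le_right _ _)).trans (min_le_left _ _)
  have hCδ : C * δ ≤ lam / 80 := by
    have h1 : δ ≤ lam / (80 * C) := (hδ.trans (min_le_right _ _)).trans (min_le_right _ _)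
    rw [le_div_iff₀ (by positivity)] at h1
    linarith
  obtain ⟨hA1, -, hA3⟩ := hA ε z L δ h f u hε P (hδ.trans (min_le_left _ _)) S hf k hkL hlog hu hDD
  have hh := P.h0
  have hh1 : h ≤ 1 := P.h1.trans P.d1
  have hz0 : 0 < z := (Real.exp_pos 1).trans_le P.z0
  have hlog1 : 1 ≤ Real.log z := (Real.le_log_iff_exp_le hz0).2 P.z0
  have hk0 : (0 : ℝ) ≤ k := Nat.cast_nonneg k
  have hεk : 1 ≤ ε * k := by
    have h1 : h * k ≤ 1 * k := mul_le_mul_of_nonneg_right hh1 hk0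
    have h2 : ε * (h * k) ≤ ε * (1 * k) := mul_le_mul_of_nonneg_left h1 hε.le
    linarith
  -- the exceptional sets
  obtain ⟨Lo, hLo⟩ : ∃ Lo : Finset ℕ, Lo = (range k).filter (fun i => ¬ z ≤ Y h i) := ⟨_, rfl⟩
  obtain ⟨Bad, hBad⟩ : ∃ Bad : Finset ℕ, Bad = (range k).filter (fun i =>
      lam / 40 < ‖u (Y h k / Y h i) - (tt h u k i : ℂ) * u (Y h k)‖) := ⟨_, rfl⟩
  rw [← hBad] at hA1
  obtain ⟨φ, hφ⟩ : ∃ φ : ℕ → ℝ, φ = fun i =>
      ∑ m ∈ (Wn h i).filter (fun m => f m ≠ -(tt h u k i : ℂ)), La z m / m := ⟨_, rfl⟩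
  have hφ0 : ∀ i, 0 ≤ φ i := by
    intro i
    rw [hφ]
    refine sum_nonneg fun m _ => ?_
    have := grdb_La_nonneg z m
    positivity
  have hA3' : ∑ i ∈ range k, φ i ≤ K * ε * (h * k) := by
    rw [hφ]
    exact hA3
  obtain ⟨BE, hBE⟩ : ∃ BE : Finset ℕ, BE = (range k).filter (fun j => h / 8 ≤ φ j) := ⟨_, rfl⟩
  obtain ⟨BW, hBW⟩ : ∃ BW : Finset (ℕ × ℕ), BW = ((range k) ×ˢ (range k)).filter (fun p : ℕ × ℕ =>
      p.1 + p.2 + 2 ≤ k ∧ (lam / 40) ^ 2 * h ^ 2 < grdbW z h f u (Y h k) p.1 p.2) := ⟨_, rfl⟩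
  have cLo : (Lo.card : ℝ) ≤ 2 * (ε * k) := by
    have h1 : Lo ⊆ range (⌊ε * k⌋₊ + 1) := by
      intro i hi
      rw [hLo, mem_filter, not_le] at hi
      have h2 : h * i < Real.log z := by
        have h3 := Real.log_lt_log (grdb_Ypos h i) hi.2
        unfold Y at h3
        rwa [Real.log_exp] at h3
      have h4 : h * i < h * (ε * k) := by
        calc h * i < ε * (h * k) := h2.trans_le hlog
          _ = h * (ε * k) := by ring
      have h5 : (i : ℝ) < ε * k := lt_of_mul_lt_mul_left h4 hh.le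
      rw [mem_range, Nat.lt_succ_iff]
      exact Nat.le_floor h5.le
    have h2 := card_le_card h1
    rw [card_range] at h2
    have h3 : (Lo.card : ℝ) ≤ (⌊ε * k⌋₊ : ℝ) + 1 := by exact_mod_cast h2
    have h4 : (⌊ε * k⌋₊ : ℝ) ≤ ε * k := Nat.floor_le (by positivity)
    linarith
  have cBE : (BE.card : ℝ) ≤ 8 * K * (ε * k) := by
    have h1 : (BE.card : ℝ) * (h / 8) ≤ ∑ j ∈ BE, φ j := by
      rw [← nsmul_eq_mul]
      refine card_nsmul_le_sum _ _ _ fun j hj => ?_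
      rw [hBE, mem_filter] at hj
      exact hj.2
    have h2 : ∑ j ∈ BE, φ j ≤ ∑ j ∈ range k, φ j := by
      rw [hBE]
      exact sum_le_sum_of_subset_of_nonneg (filter_subset _ _) fun j _ _ => hφ0 j
    have h3 := (h1.trans h2).trans hA3'
    refine le_of_mul_le_mul_right ?_ (show 0 < h / 8 by positivity)
    calc (BE.card : ℝ) * (h / 8) ≤ K * ε * (h * k) := h3
      _ = 8 * K * (ε * k) * (h / 8) := by ring
  have cBW : (BW.card : ℝ) ≤ 1600 / lam ^ 2 * (ε * k * k) := by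
    have h1 : (BW.card : ℝ) * ((lam / 40) ^ 2 * h ^ 2) ≤
        ∑ p ∈ BW, grdbW z h f u (Y h k) p.1 p.2 := by
      rw [← nsmul_eq_mul]
      refine card_nsmul_le_sum _ _ _ fun p hp => ?_
      rw [hBW, mem_filter] at hp
      exact hp.2.2.le
    have h2 : ∑ p ∈ BW, grdbW z h f u (Y h k) p.1 p.2 ≤
        ∑ i ∈ range k, ∑ j ∈ range (k - i - 1), grdbW z h f u (Y h k) i j := by
      rw [sum_sigma' (range k) (fun i => range (k - i - 1))
        (fun i j => grdbW z h f u (Y h k) i j)]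
      have h3 : ∑ p ∈ BW, grdbW z h f u (Y h k) p.1 p.2 =
          ∑ x ∈ BW.image (fun p : ℕ × ℕ => (⟨p.1, p.2⟩ : (_ : ℕ) × ℕ)),
            grdbW z h f u (Y h k) x.1 x.2 := by
        rw [sum_image]
        intro p _ q _ hpq
        have h4 := congrArg Sigma.fst hpq
        have h5 := congrArg (fun x : (_ : ℕ) × ℕ => x.2) hpq
        exact Prod.ext h4 h5
      rw [h3]
      refine sum_le_sum_of_subset_of_nonneg ?_ fun x _ _ => grdb_W_nonneg _ _ _ _ _ _ _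
      intro x hx
      rw [mem_image] at hx
      obtain ⟨p, hp, rfl⟩ := hx
      rw [hBW, mem_filter, mem_product, mem_range, mem_range] at hp
      rw [mem_sigma, mem_range, mem_range]
      exact ⟨hp.1.1, by show p.2 < k - p.1 - 1; omega⟩
    have h3 := ((h1.trans h2).trans (grdb_W_sum hh z f u k)).trans hTT
    have hh2 : 0 < (lam / 40) ^ 2 * h ^ 2 := by positivity
    refine le_of_mul_le_mul_right ?_ hh2
    refine h3.trans (le_of_eq ?_)
    field_simp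
    ring
  -- the covering
  have hcov : ((range k) ×ˢ (range k)).filter (fun p : ℕ × ℕ => p.1 + p.2 < k ∧
      tt h u k (p.1 + p.2) ≠ tt h u k p.1 * tt h u k p.2) ⊆
      (Lo ×ˢ range k) ∪ ((range k ×ˢ Lo) ∪ ((range k).image (fun i => (i, k - 1 - i)) ∪
        ((Bad ×ˢ range k) ∪ ((Bad ×ˢ range k).image (fun p : ℕ × ℕ => (p.2, p.1 - p.2)) ∪
          ((range k ×ˢ BE) ∪ BW))))) := by
    intro p hp
    rw [mem_filter, mem_product, mem_range, mem_range] at hp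
    obtain ⟨⟨hi, hj⟩, hij, hne⟩ := hp
    by_contra hcon
    simp only [mem_union, mem_product, mem_range, not_or, mem_image, not_exists, not_and] at hcon
    obtain ⟨n1, n2, n3, n4, n5, n6, n7⟩ := hcon
    have m1 : z ≤ Y h p.1 := by
      by_contra hc
      exact n1 (by rw [hLo, mem_filter, mem_range]; exact ⟨hi, hc⟩) hj
    have m2 : z ≤ Y h p.2 := by
      by_contra hc
      exact n2 hi (by rw [hLo, mem_filter, mem_range]; exact ⟨hj, hc⟩)
    have m3 : p.1 + p.2 + 2 ≤ k := by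
      by_contra hc
      refine n3 p.1 hi (Prod.ext rfl ?_)
      show k - 1 - p.1 = p.2
      omega
    have m4 : ‖u (Y h k / Y h p.1) - (tt h u k p.1 : ℂ) * u (Y h k)‖ ≤ lam / 40 := by
      by_contra hc
      push Not at hc
      exact n4 (by rw [hBad, mem_filter, mem_range]; exact ⟨hi, hc⟩) hj
    have m5 : ‖u (Y h k / Y h (p.1 + p.2)) - (tt h u k (p.1 + p.2) : ℂ) * u (Y h k)‖ ≤
        lam / 40 := by
      by_contra hc
      push Not at hc
      refine n5 (p.1 + p.2, p.1) ⟨?_, hi⟩ (Prod.ext rfl ?_)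
      · show p.1 + p.2 ∈ Bad
        rw [hBad, mem_filter, mem_range]
        exact ⟨hij, hc⟩
      · show p.1 + p.2 - p.1 = p.2
        omega
    have m6 : φ p.2 < h / 8 := by
      by_contra hc
      push Not at hc
      exact n6 hi (by rw [hBE, mem_filter, mem_range]; exact ⟨hj, hc⟩)
    have m7 : grdbW z h f u (Y h k) p.1 p.2 ≤ (lam / 40) ^ 2 * h ^ 2 := by
      by_contra hc
      push Not at hc
      exact n7 (by
        rw [hBW, mem_filter, mem_product, mem_range, mem_range]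
        exact ⟨⟨hi, hj⟩, m3, hc⟩)
    rw [hφ] at m6
    exact hne (grdb_good hlam P hδ1 hCδ S hkL hu m1 m2 hij m4 m5 _
      (fun n => by rw [mem_filter]) m6 m7)
  have c1 := card_le_card hcov
  have c2 : ((Lo ×ˢ range k) ∪ ((range k ×ˢ Lo) ∪ ((range k).image (fun i => (i, k - 1 - i)) ∪
        ((Bad ×ˢ range k) ∪ ((Bad ×ˢ range k).image (fun p : ℕ × ℕ => (p.2, p.1 - p.2)) ∪
          ((range k ×ˢ BE) ∪ BW)))))).card ≤
      Lo.card * k + (k * Lo.card + (k + (Bad.card * k + (Bad.card * k + (k * BE.card + BW.card))))) := by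
    refine (card_union_le _ _).trans (Nat.add_le_add (by rw [card_product, card_range]) ?_)
    refine (card_union_le _ _).trans (Nat.add_le_add (by rw [card_product, card_range]) ?_)
    refine (card_union_le _ _).trans (Nat.add_le_add (card_image_le.trans (by rw [card_range])) ?_)
    refine (card_union_le _ _).trans (Nat.add_le_add (by rw [card_product, card_range]) ?_)
    refine (card_union_le _ _).trans (Nat.add_le_add
      (card_image_le.trans (by rw [card_product, card_range])) ?_)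
    exact (card_union_le _ _).trans (Nat.add_le_add (by rw [card_product, card_range]) le_rfl)
  have c3 := c1.trans c2
  have c4 : ((((range k) ×ˢ (range k)).filter (fun p : ℕ × ℕ => p.1 + p.2 < k ∧
      tt h u k (p.1 + p.2) ≠ tt h u k p.1 * tt h u k p.2)).card : ℝ) ≤
      Lo.card * k + (k * Lo.card + (k + (Bad.card * k + (Bad.card * k + (k * BE.card + BW.card))))) := by
    exact_mod_cast c3
  refine c4.trans ?_
  have e1 : (Lo.card : ℝ) * k ≤ 2 * (ε * k) * k := mul_le_mul_of_nonneg_right cLo hk0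
  have e2 : (Bad.card : ℝ) * k ≤ K * ε * k * k := mul_le_mul_of_nonneg_right hA1 hk0
  have e3 : (BE.card : ℝ) * k ≤ 8 * K * (ε * k) * k := mul_le_mul_of_nonneg_right cBE hk0
  have e4 : 1 * (k : ℝ) ≤ ε * k * k := mul_le_mul_of_nonneg_right hεk hk0
  have e5 : (5 + 10 * K + 1600 / lam ^ 2) * ε * (k : ℝ) ^ 2 = 2 * (2 * (ε * k) * k) + ε * k * k +
      2 * (K * ε * k * k) + 8 * K * (ε * k) * k + 1600 / lam ^ 2 * (ε * k * k) := by ring
  rw [e5]
  linarith [mul_comm (k : ℝ) (Lo.card : ℝ), mul_comm (k : ℝ) (BE.card : ℝ)]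

end Pool.MP_dd84fd_nt.RZ
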