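import Pool.Agent.Lib.MP_dd84fd_nt.RZ.ASm
import Pool.Agent.Lib.MP_dd84fd_nt.QZ.QDefs
import Pool.Agent.Lib.MP_dd84fd_nt.SW.LamChar
import Pool.Agent.Lib.MP_dd84fd_nt.XP.Big

/-!
# RZ-Inf: arbitrarily large `X` without an exceptional modulus (helper44)

For arbitrarily large `X` no primitive character of conductor `≤ X^δ` has a heavy interval: otherwise
the heavy characters of the scales `X` and `X + 1` coincide by the theorem `QZ.za` for all large `X`, and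
one fixed character would be heavy at all scales, against the prime number theorem in progressions.
So for these `X` the even numbers `X/2 < n ≤ X` with a prime factor `> X^(1-1/N)` have no divisor among
the moduli at all.
-/

set_option autoImplicit false

namespace Pool.MP_dd84fd_nt.RZ

open Finset Filter
open Pool.MP_dd84fd_nt.BX (PC pv IsPC)
open Pool.MP_dd84fd_nt.QZ (Hvy)

/-- a fixed character is not heavy for all large `X` -/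
theorem fix_hvy (lam c : ℝ) (hlam : 0 < lam) (hc : 0 < c) (B : ℕ) (ψ : PC) (h1 : IsPC ψ)
    (h2 : 2 ≤ ψ.1) : ∃ X0 : ℕ, ∀ X : ℕ, X0 ≤ X → ¬ Hvy lam c B X ψ := by
  obtain ⟨X1, hX1⟩ := SW.lam_char (B + 1) 1
  have hχ : ψ.2 ≠ 1 := by
    intro h
    have h4 : ψ.2.conductor = ψ.1 := h1.2
    rw [h] at h4
    have : NeZero ψ.1 := ⟨by omega⟩
    rw [DirichletCharacter.conductor_one] at h4
    omega
  -- the partial sums
  have hlog : Tendsto (fun X : ℕ => Real.log (X : ℝ)) atTop atTop :=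
    Real.tendsto_log_atTop.comp tendsto_natCast_atTop_atTop
  obtain ⟨X2, hX2⟩ := eventually_atTop.1 (hlog.eventually_ge_atTop (ψ.1 : ℝ))
  have hS : ∀ N : ℕ, max X1 X2 ≤ N →
      ‖∑ n ∈ Icc 1 N, ((ArithmeticFunction.vonMangoldt n : ℝ) : ℂ) * pv ψ n‖ ≤
        N / Real.log N ^ (B + 1) := by
    intro N hN
    have i1 := hX1 N ((le_max_left _ _).trans hN) ψ.1 ψ.2 h1.1
      (by rw [pow_one]; exact hX2 N ((le_max_right _ _).trans hN)) hχ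
    exact i1
  obtain ⟨Q, hQ⟩ : ∃ Q : ℝ, Q = 8 * (2 / c) ^ (B + 1) / lam := ⟨_, rfl⟩
  have hQ0 : 0 < Q := by rw [hQ]; positivity
  have hpow : Tendsto (fun X : ℕ => (X : ℝ) ^ (c / 2)) atTop atTop :=
    (tendsto_rpow_atTop (by linarith)).comp tendsto_natCast_atTop_atTop
  obtain ⟨X3, hX3⟩ := eventually_atTop.1
    (((hlog.eventually_ge_atTop (Q + 1)).and (eventually_ge_atTop 1)).and
      ((hpow.eventually_ge_atTop (2 : ℝ)).and
        (hpow.eventually_ge_atTop ((max X1 X2 : ℕ) : ℝ))))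
  refine ⟨X3, fun X hX hh => ?_⟩
  obtain ⟨⟨y1, y2⟩, y3, y4⟩ := hX3 X hX
  obtain ⟨x, H, a1, a2, a3, a4, a5, a6⟩ := hh
  have hXR : (1 : ℝ) ≤ X := by exact_mod_cast y2
  have hXp : (0 : ℝ) < X := by linarith
  obtain ⟨L, hL⟩ : ∃ L : ℝ, L = Real.log X := ⟨_, rfl⟩
  rw [← hL] at y1 a5
  have hL0 : 0 < L := by linarith
  -- `⌊x⌋ ≥ X^(c/2)`
  have hxx : (X : ℝ) ^ (c / 2) * (X : ℝ) ^ (c / 2) ≤ x := by
    refine le_trans (le_of_eq ?_) a2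
    rw [← Real.rpow_add hXp]
    congr 1
    ring
  have hxlo : (X : ℝ) ^ (c / 2) + 1 ≤ x := by nlinarith
  have hx0 : 0 < x := by linarith
  have hfl : (X : ℝ) ^ (c / 2) ≤ (⌊x⌋₊ : ℝ) := by
    have := Nat.lt_floor_add_one x
    linarith
  have hfx : (⌊x⌋₊ : ℝ) ≤ x := Nat.floor_le hx0.le
  have hfy : (⌊x + H⌋₊ : ℝ) ≤ x + H := Nat.floor_le (by linarith)
  have hff : ⌊x⌋₊ ≤ ⌊x + H⌋₊ := Nat.floor_le_floor (by linarith)
  have hbd : ∀ N : ℕ, ⌊x⌋₊ ≤ N → (N : ℝ) ≤ 2 * x →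
      ‖∑ n ∈ Icc 1 N, ((ArithmeticFunction.vonMangoldt n : ℝ) : ℂ) * pv ψ n‖ ≤
        2 * x * (2 / c) ^ (B + 1) / L ^ (B + 1) := by
    intro N hN1 hN2
    have hN3 : (X : ℝ) ^ (c / 2) ≤ N := hfl.trans (by exact_mod_cast hN1)
    have hN4 : max X1 X2 ≤ N := by
      have : ((max X1 X2 : ℕ) : ℝ) ≤ N := y4.trans hN3
      exact_mod_cast this
    have hN5 : c / 2 * L ≤ Real.log N := by
      rw [hL, ← Real.log_rpow hXp]
      exact Real.log_le_log (by positivity) hN3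
    have hN0 : (0 : ℝ) ≤ N := Nat.cast_nonneg _
    refine (hS N hN4).trans ?_
    have hpos : 0 < c / 2 * L := by positivity
    calc (N : ℝ) / Real.log N ^ (B + 1) ≤ N / (c / 2 * L) ^ (B + 1) :=
          div_le_div_of_nonneg_left hN0 (by positivity) (pow_le_pow_left₀ hpos.le hN5 _)
      _ ≤ 2 * x / (c / 2 * L) ^ (B + 1) := div_le_div_of_nonneg_right hN2 (by positivity)
      _ = _ := by
          rw [mul_pow, _root_.div_pow, _root_.div_pow]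
          field_simp
  have hsplit : ∑ n ∈ Ioc ⌊x⌋₊ ⌊x + H⌋₊, ((ArithmeticFunction.vonMangoldt n : ℝ) : ℂ) * pv ψ n =
      ∑ n ∈ Icc 1 ⌊x + H⌋₊, ((ArithmeticFunction.vonMangoldt n : ℝ) : ℂ) * pv ψ n -
        ∑ n ∈ Icc 1 ⌊x⌋₊, ((ArithmeticFunction.vonMangoldt n : ℝ) : ℂ) * pv ψ n := by
    rw [eq_sub_iff_add_eq, add_comm]
    have e1 : Icc 1 ⌊x + H⌋₊ = Icc 1 ⌊x⌋₊ ∪ Ioc ⌊x⌋₊ ⌊x + H⌋₊ := by
      ext n
      rw [mem_union, mem_Icc, mem_Icc, mem_Ioc]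
      omega
    rw [e1, sum_union]
    rw [disjoint_left]
    intro n hn hn'
    rw [mem_Icc] at hn
    rw [mem_Ioc] at hn'
    omega
  have h3 : lam * H ≤ 4 * x * (2 / c) ^ (B + 1) / L ^ (B + 1) := by
    refine a6.trans ?_
    rw [hsplit]
    refine (norm_sub_le _ _).trans ?_
    have i1 := hbd ⌊x + H⌋₊ hff (by linarith)
    have i2 := hbd ⌊x⌋₊ le_rfl (by linarith)
    calc _ ≤ 2 * x * (2 / c) ^ (B + 1) / L ^ (B + 1) + 2 * x * (2 / c) ^ (B + 1) / L ^ (B + 1) :=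
          add_le_add i1 i2
      _ = _ := by ring
  have h4 : 4 * x * (2 / c) ^ (B + 1) / L ^ (B + 1) ≤ 4 * H * (2 / c) ^ (B + 1) / L := by
    rw [div_le_div_iff₀ (by positivity) hL0, pow_succ L B]
    have hcp : 0 < (2 / c) ^ (B + 1) := by positivity
    calc 4 * x * (2 / c) ^ (B + 1) * L = (4 * (2 / c) ^ (B + 1) * L) * x := by ring
      _ ≤ (4 * (2 / c) ^ (B + 1) * L) * (H * L ^ B) := mul_le_mul_of_nonneg_left a5 (by positivity)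
      _ = _ := by ring
  have h5 : lam * H ≤ 4 * H * (2 / c) ^ (B + 1) / L := h3.trans h4
  rw [le_div_iff₀ hL0] at h5
  have h6 : lam * Q = 8 * (2 / c) ^ (B + 1) := by
    rw [hQ]
    field_simp
  have h7 : 0 < (2 / c) ^ (B + 1) := by positivity
  have h8 : lam * H * Q ≤ lam * H * L := mul_le_mul_of_nonneg_left (by linarith) (by positivity)
  have h9 : lam * H * Q = H * (8 * (2 / c) ^ (B + 1)) := by rw [← h6]; ring
  have h10 : 0 < H * (2 / c) ^ (B + 1) := mul_pos a1 h7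
  nlinarith

/-- arbitrarily large `X` without a heavy character of small conductor -/
theorem inf_hvy (lam c : ℝ) (hlam : 0 < lam) (hc : 0 < c) (B : ℕ) : ∃ δ : ℝ, 0 < δ ∧
    ∀ X0 : ℕ, ∃ X : ℕ, X0 ≤ X ∧ ∀ ψ : PC, IsPC ψ → 2 ≤ ψ.1 → (ψ.1 : ℝ) ≤ (X : ℝ) ^ δ →
      ¬ Hvy lam c B X ψ := by
  obtain ⟨δ, hδ, hza⟩ := QZ.za lam (c / 2) hlam (by linarith)
  obtain ⟨X1, hza⟩ := hza B
  refine ⟨δ, hδ, fun X0 => ?_⟩
  by_contra hcon
  push Not at hcon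
  have hall : ∀ X : ℕ, ∃ ψ : PC, X0 ≤ X → IsPC ψ ∧ 2 ≤ ψ.1 ∧ (ψ.1 : ℝ) ≤ (X : ℝ) ^ δ ∧
      Hvy lam c B X ψ := by
    intro X
    by_cases hX : X0 ≤ X
    · obtain ⟨ψ, b1, b2, b3, b4⟩ := hcon X hX
      exact ⟨ψ, fun _ => ⟨b1, b2, b3, b4⟩⟩
    · exact ⟨⟨1, 1⟩, fun h => absurd h hX⟩
  choose ψ hψ using hall
  obtain ⟨X2, hX2⟩ : ∃ X2 : ℕ, X2 = max (max X0 X1) 3 := ⟨_, rfl⟩
  have hstep : ∀ X : ℕ, X2 ≤ X → ψ (X + 1) = ψ X := by
    intro X hX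
    rw [hX2] at hX
    simp only [max_le_iff] at hX
    obtain ⟨⟨x0, x1⟩, x3⟩ := hX
    obtain ⟨b1, b2, b3, b4⟩ := hψ X x0
    obtain ⟨c1, c2, c3, c4⟩ := hψ (X + 1) (by omega)
    have hXR : (3 : ℝ) ≤ X := by exact_mod_cast x3
    have hcast : ((X + 1 : ℕ) : ℝ) = (X : ℝ) + 1 := by push_cast; ring
    have hle : (X : ℝ) ≤ ((X + 1 : ℕ) : ℝ) := by rw [hcast]; linarith
    have hl0 : 0 ≤ Real.log X := Real.log_nonneg (by linarith)
    have hll : Real.log X ≤ Real.log ((X + 1 : ℕ) : ℝ) := Real.log_le_log (by linarith) hle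
    have hpw : ((X + 1 : ℕ) : ℝ) ^ (c / 2) ≤ (X : ℝ) ^ c := by
      have e1 : (X : ℝ) ^ c = ((X : ℝ) ^ 2) ^ (c / 2) := by
        rw [← Real.rpow_natCast, ← Real.rpow_mul (by linarith)]
        congr 1
        push_cast
        ring
      rw [e1]
      refine Real.rpow_le_rpow (by positivity) ?_ (by linarith)
      rw [hcast]
      nlinarith
    refine (hza (X + 1) (by omega) (ψ (X + 1)) (ψ X) c1 b1 c2 b2 c3
      (b3.trans (Real.rpow_le_rpow (by linarith) hle hδ.le)) ?_ ?_)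
    · obtain ⟨x, H, a1, a2, a3, a4, a5, a6⟩ := c4
      refine ⟨x, H, a1, le_trans ?_ a2, a3, a4, a5, a6⟩
      exact Real.rpow_le_rpow_of_exponent_le (by rw [hcast]; linarith) (by linarith)
    · obtain ⟨x, H, a1, a2, a3, a4, a5, a6⟩ := b4
      exact ⟨x, H, a1, hpw.trans a2, a3.trans hle, a4,
        a5.trans (mul_le_mul_of_nonneg_left (pow_le_pow_left₀ hl0 hll B) a1.le), a6⟩
  have hconst : ∀ k : ℕ, ψ (X2 + k) = ψ X2 := by
    intro k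
    induction k with
    | zero => rfl
    | succ k ih => rw [← add_assoc, hstep (X2 + k) (by omega), ih]
  have hX20 : X0 ≤ X2 := by
    rw [hX2]
    exact (le_max_left _ _).trans (le_max_left _ _)
  obtain ⟨e1, e2, -, -⟩ := hψ X2 hX20
  obtain ⟨X3, hX3⟩ := fix_hvy lam c hlam hc B (ψ X2) e1 e2
  refine hX3 (X2 + X3) (by omega) ?_
  have := (hψ (X2 + X3) (by omega)).2.2.2
  rwa [hconst X3] at this

/-- arbitrarily large `X` without a small modulus -/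
theorem inf_m (M : ℕ) (hM : 1 ≤ M) : ∃ N : ℕ, M ≤ N ∧ ∀ X1 : ℕ, ∃ X : ℕ, X1 ≤ X ∧
    ∀ d : ℕ, 2 ≤ d → (d : ℝ) < (X : ℝ) ^ (1 / (N : ℝ)) → ¬ QX M X d := by
  have hMR : (1 : ℝ) ≤ M := by exact_mod_cast hM
  obtain ⟨δ, hδ, h⟩ := inf_hvy (1 / (M : ℝ)) (1 / 11) (by positivity) (by norm_num) M
  obtain ⟨N, hN⟩ := exists_nat_ge (2 / δ)
  refine ⟨M + N, by omega, fun X1 => ?_⟩
  have hpow : Tendsto (fun X : ℕ => (X : ℝ) ^ (δ / 2)) atTop atTop :=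
    (tendsto_rpow_atTop (by linarith)).comp tendsto_natCast_atTop_atTop
  obtain ⟨X2, hX2⟩ := eventually_atTop.1 (hpow.eventually_ge_atTop (M : ℝ))
  obtain ⟨X, hX, hno⟩ := h (max X1 (max X2 1))
  simp only [max_le_iff] at hX
  obtain ⟨x1, x2, x3⟩ := hX
  have hXR : (1 : ℝ) ≤ X := by exact_mod_cast x3
  have hXp : (0 : ℝ) < X := by linarith
  refine ⟨X, x1, fun d hd2 hd hq => ?_⟩
  obtain ⟨r, k, χ, g1, g2, g3, g4, g5, -⟩ := hq
  have hr2 : 2 ≤ r := by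
    rw [← g4]
    calc 2 ≤ d := hd2
      _ = d * 1 := (mul_one d).symm
      _ ≤ d * k := Nat.mul_le_mul_left d g2
  have hNR : (0 : ℝ) < (M + N : ℕ) := by
    have : 0 < M + N := by omega
    exact_mod_cast this
  have hdX : (X : ℝ) ^ (1 / ((M + N : ℕ) : ℝ)) ≤ (X : ℝ) ^ (δ / 2) := by
    refine Real.rpow_le_rpow_of_exponent_le hXR ?_
    rw [div_le_iff₀ hNR]
    have e1 : 2 / δ ≤ ((M + N : ℕ) : ℝ) := by
      push_cast
      linarith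
    rw [div_le_iff₀ hδ] at e1
    linarith
  have hrX : (r : ℝ) ≤ (X : ℝ) ^ δ := by
    have e1 : (r : ℝ) = d * k := by rw [← g4]; push_cast; ring
    have e2 : (k : ℝ) ≤ (X : ℝ) ^ (δ / 2) := le_trans (by exact_mod_cast g3) (hX2 X x2)
    have e3 : (X : ℝ) ^ δ = (X : ℝ) ^ (δ / 2) * (X : ℝ) ^ (δ / 2) := by
      rw [← Real.rpow_add hXp]
      congr 1
      ring
    rw [e1, e3]
    exact mul_le_mul (hd.le.trans hdX) e2 (Nat.cast_nonneg _) (by positivity)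
  exact hno ⟨r, χ⟩ ⟨by show 1 ≤ r; omega, g1⟩ hr2 hrX g5

open Classical in
/-- arbitrarily large `X` for which no modulus matters for the `n` with a large prime factor -/
theorem inf_big (M : ℕ) (hM : 1 ≤ M) : ∃ N : ℕ, M ≤ N ∧ ∀ (P : ℕ → Prop) (θ b : ℝ),
    1 / (N : ℝ) ≤ θ →
    (∃ X₀ : ℕ, ∀ X : ℕ, X₀ ≤ X → ∃ D : Finset ℕ,
      (∀ d ∈ D, 2 ≤ d ∧ (d : ℝ) ≤ (X : ℝ) ^ (1 - θ) ∧ QX M X d) ∧
      (((Icc 1 X).filter (fun n : ℕ => X < 2 * n ∧ Even n ∧ (∀ d ∈ D, ¬ d ∣ n) ∧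
        P n)).card : ℝ) ≤ (X : ℝ) ^ b) →
    ∀ X₁ : ℕ, ∃ X : ℕ, X₁ ≤ X ∧ (((Icc 1 X).filter (fun n : ℕ => X < 2 * n ∧ Even n ∧
      (∃ p : ℕ, p.Prime ∧ p ∣ n ∧ (X : ℝ) ^ (1 - 1 / (N : ℝ)) < p) ∧ P n)).card : ℝ) ≤
        (X : ℝ) ^ b := by
  obtain ⟨N, hN, h⟩ := inf_m M hM
  refine ⟨N, hN, fun P θ b hθ hD X₁ => ?_⟩
  obtain ⟨X0, hX0⟩ := hD
  obtain ⟨X, hX, hno⟩ := h (max X₁ (max X0 1))
  simp only [max_le_iff] at hX
  obtain ⟨x1, x2, x3⟩ := hX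
  obtain ⟨D, d1, d2⟩ := hX0 X x2
  refine ⟨X, x1, le_trans ?_ (XP.big_of hθ x3 (fun d hd => (d1 d hd).2.1) d2)⟩
  refine Nat.cast_le.2 (card_le_card fun n hn => ?_)
  rw [mem_filter] at hn ⊢
  exact ⟨hn.1, hn.2.1, hn.2.2.1, hn.2.2.2.1,
    fun d hd hds => absurd (d1 d hd).2.2 (hno d (d1 d hd).1 hds), hn.2.2.2.2⟩

end Pool.MP_dd84fd_nt.RZ
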