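import Pool.Agent.Lib.MP_dd84fd_nt.RZ.Defs

/-!
# RZ-Lone: `∑_{n ≤ B} χ(n)/n = L(1, χ) + O(q/B)`; real characters.  Prefix aux lemmas `lone_`.

PROOF of lone.  As in SW/LFBound.lean (`LF_bound`; copy the part which shows, by analytic continuation of the Mellin transform, that
`L(s, χ) = s ∫_{Ioi 1} S(t) t^(-s-1) dt` for `Re s > 0`, `S(t) = ∑_{n ≤ t} χ(n)`, `|S| ≤ q`; at `s = 1`):
`L(1, χ) = ∫_1^∞ S(t) t^(-2) dt`; partial summation: `∑_{n ≤ B} χ(n)/n = S(B)/B + ∫_1^B S(t) t^(-2) dt`.  The difference is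
`S(B)/B - ∫_B^∞ S(t) t^(-2) dt`, at most `2q/B`.
(Another way: the partial sums converge to a limit `ℓ'` with `|∑_{n ≤ B} - ℓ'| ≤ 2q/B`, and `ℓ' = L(1, χ)` by the continuity of `L` at 1+ and
uniform tails; both are fine.)
rc_cr: `χ² = 1` gives `χ(n) ∈ {0, 1, -1}` (RealPos: chi_cases is private there, copy it); periods: `∑` over a complete period vanishes for `χ ≠ 1`
(LFBound: lfb_sum is private, copy it; for `Ioc a b` remove complete periods).
-/

set_option autoImplicit false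

namespace Pool.MP_dd84fd_nt.RZ

open Finset

/-- a shifted complete period -/
private lemma lone_per (q : ℕ) [NeZero q] (χ : DirichletCharacter ℂ q) (hχ : χ ≠ 1) (a : ℕ) :
    ∑ k ∈ range q, χ ((a + k : ℕ) : ZMod q) = 0 := by
  have h1 : ∑ k ∈ range q, χ ((a + k : ℕ) : ZMod q) = ∑ x : ZMod q, χ ((a : ZMod q) + x) := by
    refine Finset.sum_nbij' (fun k => (k : ZMod q)) (fun x => x.val) ?_ ?_ ?_ ?_ ?_
    · intro k _; exact mem_univ _
    · intro x _; exact mem_range.2 (ZMod.val_lt x)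
    · intro k hk; exact ZMod.val_cast_of_lt (mem_range.1 hk)
    · intro x _; exact ZMod.natCast_zmod_val x
    · intro k _; push_cast; rfl
  rw [h1, ← MulChar.sum_eq_zero_of_ne_one hχ]
  exact Fintype.sum_equiv (Equiv.addLeft (a : ZMod q)) _ _ (fun x => rfl)

private lemma lone_sum (q : ℕ) [NeZero q] (χ : DirichletCharacter ℂ q) (hχ : χ ≠ 1) (a n : ℕ) :
    ‖∑ k ∈ range n, χ ((a + k : ℕ) : ZMod q)‖ ≤ q := by
  have hq : 0 < q := NeZero.pos q
  have h2 : ∀ m r : ℕ, ∑ k ∈ range (q * m + r), χ ((a + k : ℕ) : ZMod q) =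
      ∑ k ∈ range r, χ ((a + k : ℕ) : ZMod q) := by
    intro m
    induction m with
    | zero => intro r; simp
    | succ m ih =>
      intro r
      have e : q * (m + 1) + r = q + (q * m + r) := by ring
      rw [e, Finset.sum_range_add, lone_per q χ hχ, zero_add, ← ih r]
      refine Finset.sum_congr rfl ?_
      intro k _
      congr 1
      push_cast
      rw [ZMod.natCast_self]
      ring
  rw [← Nat.div_add_mod n q, h2]
  calc ‖∑ k ∈ range (n % q), χ ((a + k : ℕ) : ZMod q)‖ ≤ ∑ k ∈ range (n % q), (1 : ℝ) := by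
        refine (norm_sum_le _ _).trans (Finset.sum_le_sum ?_)
        intro k _
        exact χ.norm_le_one _
    _ = ((n % q : ℕ) : ℝ) := by simp
    _ ≤ q := by exact_mod_cast (Nat.mod_lt _ hq).le

private lemma lone_zero (q : ℕ) [NeZero q] (χ : DirichletCharacter ℂ q) (hχ : χ ≠ 1) :
    χ ((0 : ℕ) : ZMod q) = 0 := by
  have hq : 0 < q := NeZero.pos q
  have hq1 : q ≠ 1 := by
    rintro rfl
    exact hχ (Subsingleton.elim _ _)
  rw [Nat.cast_zero]
  exact χ.map_nonunit (by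
    intro h
    rw [isUnit_zero_iff] at h
    have : Fact (1 < q) := ⟨by omega⟩
    exact zero_ne_one h)

private lemma lone_sum0 (q : ℕ) [NeZero q] (χ : DirichletCharacter ℂ q) (hχ : χ ≠ 1) (n : ℕ) :
    ‖∑ k ∈ Icc 0 n, χ (k : ZMod q)‖ ≤ q := by
  have h := lone_sum q χ hχ 0 (n + 1)
  have h1 : ∑ k ∈ Icc 0 n, χ (k : ZMod q) = ∑ k ∈ range (n + 1), χ ((0 + k : ℕ) : ZMod q) := by
    have : Icc 0 n = range (n + 1) := by ext k; simp
    rw [this]
    simp
  rw [h1]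
  exact h

private lemma lone_icc (q : ℕ) [NeZero q] (χ : DirichletCharacter ℂ q) (hχ : χ ≠ 1) (n : ℕ) :
    ∑ k ∈ Icc 1 n, χ (k : ZMod q) = ∑ k ∈ Icc 0 n, χ (k : ZMod q) := by
  have h0 : (Icc 0 n) = insert 0 (Icc 1 n) := by ext k; simp; omega
  rw [h0, Finset.sum_insert (by simp), lone_zero q χ hχ, zero_add]

private lemma lone_meas (q : ℕ) (χ : DirichletCharacter ℂ q) :
    Measurable (fun t : ℝ => ∑ k ∈ Icc 0 ⌊t⌋₊, χ (k : ZMod q)) := by
  have : (fun t : ℝ => ∑ k ∈ Icc 0 ⌊t⌋₊, χ (k : ZMod q)) =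
      (fun n : ℕ => ∑ k ∈ Icc 0 n, χ (k : ZMod q)) ∘ (fun t : ℝ => ⌊t⌋₊) := rfl
  rw [this]
  exact (measurable_from_top).comp Nat.measurable_floor

/-- `L(1, χ)` as an integral -/
private lemma lone_int (q : ℕ) [NeZero q] (χ : DirichletCharacter ℂ q) (hχ : χ ≠ 1) :
    χ.LFunction 1 = ∫ t in Set.Ioi (1 : ℝ), (∑ k ∈ Icc 0 ⌊t⌋₊, χ (k : ZMod q)) * ((t : ℂ) ^ 2)⁻¹ := by
  set S : ℝ → ℂ := fun t => ∑ k ∈ Icc 0 ⌊t⌋₊, χ (k : ZMod q) with hS
  have hSb : ∀ t, ‖S t‖ ≤ q := fun t => lone_sum0 q χ hχ _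
  have hSm : Measurable S := lone_meas q χ
  set F : ℝ → ℂ := (Set.Ioi (1 : ℝ)).indicator S with hF
  have hFm : Measurable F := hSm.indicator measurableSet_Ioi
  have hFb : ∀ t, ‖F t‖ ≤ q := by
    intro t
    rw [hF]
    refine (norm_indicator_le_norm_self _ _).trans (hSb t)
  -- the Mellin transform
  have hmel : ∀ z : ℂ, mellin F (-z) = ∫ t in Set.Ioi (1 : ℝ), S t * (t : ℂ) ^ (-(z + 1)) := by
    intro z
    rw [mellin, hF]
    have h1 : ∀ t : ℝ, (t : ℂ) ^ (-z - 1) • (Set.Ioi (1 : ℝ)).indicator S t =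
        (Set.Ioi (1 : ℝ)).indicator (fun t => S t * (t : ℂ) ^ (-(z + 1))) t := by
      intro t
      by_cases ht : t ∈ Set.Ioi (1 : ℝ)
      · rw [Set.indicator_of_mem ht, Set.indicator_of_mem ht, smul_eq_mul, mul_comm]
        congr 2
        ring
      · rw [Set.indicator_of_notMem ht, Set.indicator_of_notMem ht, smul_zero]
    simp_rw [h1]
    rw [MeasureTheory.setIntegral_indicator measurableSet_Ioi]
    congr 2
    ext t
    simp only [Set.mem_inter_iff, Set.mem_Ioi]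
    constructor
    · rintro ⟨_, h⟩; exact h
    · intro h; exact ⟨by linarith, h⟩
  have hdiff : ∀ z : ℂ, 0 < z.re → DifferentiableAt ℂ (mellin F) (-z) := by
    intro z hz
    refine mellin_differentiableAt_of_isBigO_rpow (a := 0) (b := -z.re - 1) ?_ ?_ ?_ ?_ ?_
    · refine MeasureTheory.LocallyIntegrable.locallyIntegrableOn ?_ _
      intro x
      refine ⟨Metric.ball x 1, Metric.ball_mem_nhds x one_pos, ?_⟩
      refine MeasureTheory.Measure.integrableOn_of_bounded (M := (q : ℝ)) ?_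
        hFm.aestronglyMeasurable ?_
      · exact (MeasureTheory.measure_ball_lt_top).ne
      · exact Filter.Eventually.of_forall hFb
    · refine Asymptotics.IsBigO.of_bound (q : ℝ) ?_
      refine Filter.Eventually.of_forall ?_
      intro t
      simpa using hFb t
    · simp [hz]
    · refine Asymptotics.IsBigO.of_bound 0 ?_
      have : Set.Iio (1 : ℝ) ∈ nhdsWithin (0 : ℝ) (Set.Ioi 0) :=
        mem_nhdsWithin_of_mem_nhds (Iio_mem_nhds one_pos)
      filter_upwards [this] with t ht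
      rw [hF, Set.indicator_of_notMem (by
        simp only [Set.mem_Ioi, not_lt]
        exact (Set.mem_Iio.1 ht).le)]
      simp
    · simp
  set H : ℂ → ℂ := fun z => z * mellin F (-z) with hH
  have hHdiff : DifferentiableOn ℂ H {z : ℂ | 0 < z.re} := by
    intro z hz
    refine DifferentiableAt.differentiableWithinAt ?_
    refine differentiableAt_id.mul ?_
    exact (hdiff z hz).comp z differentiableAt_id.neg
  have hopen : IsOpen {z : ℂ | 0 < z.re} := isOpen_lt continuous_const Complex.continuous_re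
  have hSS : ∀ t : ℝ, S t = ∑ k ∈ Icc 1 ⌊t⌋₊, χ (k : ZMod q) := fun t =>
    (lone_icc q χ hχ _).symm
  have hEq : Set.EqOn (χ.LFunction) H {z : ℂ | 0 < z.re} := by
    refine AnalyticOnNhd.eqOn_of_preconnected_of_eventuallyEq
      ((DirichletCharacter.differentiable_LFunction hχ).differentiableOn.analyticOnNhd hopen)
      (hHdiff.analyticOnNhd hopen) ?_ (z₀ := 2) (by simp) ?_
    · exact (convex_halfSpace_re_gt 0).isPreconnected
    · have hn : {z : ℂ | 1 < z.re} ∈ nhds (2 : ℂ) :=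
        (isOpen_lt continuous_const Complex.continuous_re).mem_nhds (by simp)
      filter_upwards [hn] with z hz
      rw [DirichletCharacter.LFunction_eq_LSeries χ hz]
      rw [LSeries_eq_mul_integral (fun n => χ (n : ZMod q)) (le_refl (0 : ℝ))
        (by linarith [show (1 : ℝ) < z.re from hz])
        (DirichletCharacter.LSeriesSummable_of_one_lt_re χ hz)]
      · rw [hH]
        simp only
        rw [hmel]
        simp only [hSS]
      · refine Asymptotics.IsBigO.of_bound (q : ℝ) ?_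
        refine Filter.Eventually.of_forall ?_
        intro n
        have := lone_sum0 q χ hχ n
        rw [← lone_icc q χ hχ n] at this
        simpa using this
  have h1 : (0 : ℝ) < (1 : ℂ).re := by simp
  rw [hEq h1, hH]
  simp only
  rw [one_mul, hmel]
  refine MeasureTheory.setIntegral_congr_fun measurableSet_Ioi ?_
  intro t _
  simp only
  congr 1
  have h2 : (-((1 : ℂ) + 1)) = -(((2 : ℕ) : ℂ)) := by push_cast; norm_num
  rw [h2, Complex.cpow_neg, Complex.cpow_natCast]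

theorem lone (q : ℕ) [NeZero q] (χ : DirichletCharacter ℂ q) (h1 : χ ≠ 1) (B : ℕ) (hB : 1 ≤ B) :
    ‖∑ n ∈ Icc 1 B, χ (n : ZMod q) / (n : ℂ) - χ.LFunction 1‖ ≤ 2 * q / B := by
  have hB1 : (1 : ℝ) ≤ (B : ℝ) := by exact_mod_cast hB
  have hB0 : (0 : ℝ) < (B : ℝ) := by linarith
  set S : ℝ → ℂ := fun t => ∑ k ∈ Icc 0 ⌊t⌋₊, χ (k : ZMod q) with hS
  have hSb : ∀ t, ‖S t‖ ≤ q := fun t => lone_sum0 q χ h1 _
  have hSm : Measurable S := lone_meas q χ
  have hder : ∀ t : ℝ, 0 < t → HasDerivAt (fun t : ℝ => ((t : ℂ))⁻¹) (-((t : ℂ) ^ 2)⁻¹) t := by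
    intro t ht
    have h2 : HasDerivAt (fun z : ℂ => z⁻¹) (-((t : ℂ) ^ 2)⁻¹) (t : ℂ) :=
      hasDerivAt_inv (by exact_mod_cast ht.ne')
    exact h2.comp_ofReal
  have hint : ∀ a : ℝ, 0 < a → MeasureTheory.IntegrableOn (fun t : ℝ => S t * ((t : ℂ) ^ 2)⁻¹) (Set.Ioi a) := by
    intro a ha
    have hg : MeasureTheory.IntegrableOn (fun t : ℝ => (q : ℝ) * t ^ (-2 : ℝ)) (Set.Ioi a) :=
      (integrableOn_Ioi_rpow_of_lt (by norm_num) ha).const_mul _
    refine MeasureTheory.Integrable.mono' hg ?_ ?_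
    · exact (hSm.mul (by fun_prop)).aestronglyMeasurable
    · refine (MeasureTheory.ae_restrict_mem measurableSet_Ioi).mono ?_
      intro t ht
      have ht0 : (0 : ℝ) < t := lt_trans ha ht
      rw [norm_mul, norm_inv, norm_pow, Complex.norm_real, Real.norm_eq_abs, abs_of_pos ht0]
      have h3 : t ^ (-2 : ℝ) = (t ^ 2)⁻¹ := by
        rw [show (-2 : ℝ) = -((2 : ℕ) : ℝ) by norm_num, Real.rpow_neg ht0.le, Real.rpow_natCast]
      rw [h3]
      exact mul_le_mul_of_nonneg_right (hSb t) (by positivity)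
  -- partial summation
  have hab := sum_mul_eq_sub_integral_mul₀' (𝕜 := ℂ) (f := fun t : ℝ => ((t : ℂ))⁻¹)
    (fun k : ℕ => χ (k : ZMod q)) (lone_zero q χ h1) B
    (fun t ht => (hder t (lt_of_lt_of_le one_pos ht.1)).differentiableAt) (by
      have hc : ContinuousOn (fun t : ℝ => -((t : ℂ) ^ 2)⁻¹) (Set.Icc (1 : ℝ) B) := by
        refine ContinuousOn.neg (ContinuousOn.inv₀ (by fun_prop) ?_)
        intro t ht
        have : (0 : ℝ) < t := lt_of_lt_of_le one_pos ht.1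
        exact pow_ne_zero 2 (by exact_mod_cast this.ne')
      refine (hc.integrableOn_compact isCompact_Icc).congr_fun ?_ measurableSet_Icc
      intro t ht
      exact ((hder t (lt_of_lt_of_le one_pos ht.1)).deriv).symm)
  have hlhs : ∑ k ∈ Icc 0 B, ((k : ℝ) : ℂ)⁻¹ * χ (k : ZMod q) = ∑ n ∈ Icc 1 B, χ (n : ZMod q) / (n : ℂ) := by
    have h0 : (Icc 0 B) = insert 0 (Icc 1 B) := by ext k; simp; omega
    rw [h0, Finset.sum_insert (by simp), lone_zero q χ h1, mul_zero, zero_add]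
    refine Finset.sum_congr rfl fun k _ => ?_
    rw [div_eq_inv_mul]
    push_cast
    rfl
  have hrhs : ∫ t in Set.Ioc (1 : ℝ) B, deriv (fun t : ℝ => ((t : ℂ))⁻¹) t * ∑ k ∈ Icc 0 ⌊t⌋₊, χ (k : ZMod q) =
      -∫ t in Set.Ioc (1 : ℝ) B, S t * ((t : ℂ) ^ 2)⁻¹ := by
    rw [← MeasureTheory.integral_neg]
    refine MeasureTheory.setIntegral_congr_fun measurableSet_Ioc ?_
    intro t ht
    simp only
    rw [(hder t (lt_trans one_pos ht.1)).deriv]
    ring
  have hLint := lone_int q χ h1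
  have hsplit : ∫ t in Set.Ioi (1 : ℝ), S t * ((t : ℂ) ^ 2)⁻¹ =
      (∫ t in Set.Ioc (1 : ℝ) B, S t * ((t : ℂ) ^ 2)⁻¹) + ∫ t in Set.Ioi (B : ℝ), S t * ((t : ℂ) ^ 2)⁻¹ := by
    rw [← MeasureTheory.setIntegral_union (Set.Ioc_disjoint_Ioi le_rfl) measurableSet_Ioi
      ((hint 1 one_pos).mono_set (fun t ht => ht.1)) (hint B hB0), Set.Ioc_union_Ioi_eq_Ioi hB1]
  have hfin : ∑ n ∈ Icc 1 B, χ (n : ZMod q) / (n : ℂ) - χ.LFunction 1 =
      ((B : ℝ) : ℂ)⁻¹ * S B - ∫ t in Set.Ioi (B : ℝ), S t * ((t : ℂ) ^ 2)⁻¹ := by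
    have h4 : S (B : ℝ) = ∑ k ∈ Icc 0 B, χ (k : ZMod q) := by
      simp only [hS, Nat.floor_natCast]
    rw [← hlhs]
    rw [hab, hrhs, hLint]
    change _ - ∫ t in Set.Ioi (1 : ℝ), S t * ((t : ℂ) ^ 2)⁻¹ = _
    rw [hsplit, h4]
    ring
  rw [hfin]
  have h5 : ‖((B : ℝ) : ℂ)⁻¹ * S B‖ ≤ q / B := by
    rw [norm_mul, norm_inv, Complex.norm_real, Real.norm_eq_abs, abs_of_pos hB0, div_eq_inv_mul]
    exact mul_le_mul_of_nonneg_left (hSb _) (by positivity)
  have h6 : ‖∫ t in Set.Ioi (B : ℝ), S t * ((t : ℂ) ^ 2)⁻¹‖ ≤ q / B := by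
    have hg : MeasureTheory.IntegrableOn (fun t : ℝ => (q : ℝ) * t ^ (-2 : ℝ)) (Set.Ioi (B : ℝ)) :=
      (integrableOn_Ioi_rpow_of_lt (by norm_num) hB0).const_mul _
    have h7 := MeasureTheory.norm_integral_le_of_norm_le (f := fun t : ℝ => S t * ((t : ℂ) ^ 2)⁻¹)
      (g := fun t : ℝ => (q : ℝ) * t ^ (-2 : ℝ)) (μ := MeasureTheory.volume.restrict (Set.Ioi (B : ℝ))) hg ?_
    · refine h7.trans (le_of_eq ?_)
      rw [MeasureTheory.integral_const_mul, integral_Ioi_rpow_of_lt (by norm_num) hB0]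
      have h8 : (B : ℝ) ^ ((-2 : ℝ) + 1) = (B : ℝ)⁻¹ := by
        rw [show (-2 : ℝ) + 1 = -1 by norm_num, Real.rpow_neg_one]
      rw [h8]
      field_simp
      norm_num
    · refine (MeasureTheory.ae_restrict_mem measurableSet_Ioi).mono ?_
      intro t ht
      have ht0 : (0 : ℝ) < t := lt_trans hB0 ht
      rw [norm_mul, norm_inv, norm_pow, Complex.norm_real, Real.norm_eq_abs, abs_of_pos ht0]
      have h3 : t ^ (-2 : ℝ) = (t ^ 2)⁻¹ := by
        rw [show (-2 : ℝ) = -((2 : ℕ) : ℝ) by norm_num, Real.rpow_neg ht0.le, Real.rpow_natCast]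
      rw [h3]
      exact mul_le_mul_of_nonneg_right (hSb t) (by positivity)
  calc ‖((B : ℝ) : ℂ)⁻¹ * S B - ∫ t in Set.Ioi (B : ℝ), S t * ((t : ℂ) ^ 2)⁻¹‖
      ≤ ‖((B : ℝ) : ℂ)⁻¹ * S B‖ + ‖∫ t in Set.Ioi (B : ℝ), S t * ((t : ℂ) ^ 2)⁻¹‖ := norm_sub_le _ _
    _ ≤ q / B + q / B := add_le_add h5 h6
    _ = 2 * q / B := by ring

private theorem lone_cases {N : ℕ} [NeZero N] (χ : DirichletCharacter ℂ N) (h : χ ^ 2 = 1)
    (a : ZMod N) : χ a = 0 ∨ χ a = 1 ∨ χ a = -1 := by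
  by_cases ha : IsUnit a
  · right
    have h1 : (χ ^ 2) a = 1 := by
      rw [h]
      exact MulChar.one_apply ha
    rw [MulChar.pow_apply' _ two_ne_zero] at h1
    exact sq_eq_one_iff.mp h1
  · left
    exact χ.map_nonunit ha

theorem cr_eq (q : ℕ) [NeZero q] (χ : DirichletCharacter ℂ q) (h : χ ^ 2 = 1) (n : ℕ) :
    ((cr χ n : ℝ) : ℂ) = χ (n : ZMod q) := by
  unfold cr
  rcases lone_cases χ h (n : ZMod q) with h1 | h1 | h1 <;> rw [h1] <;> simp

theorem rc_cr (q : ℕ) [NeZero q] (χ : DirichletCharacter ℂ q) (h : χ ^ 2 = 1) (h1 : χ ≠ 1) :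
    Rc q (cr χ) where
  one := by
    unfold cr
    rw [Nat.cast_one, map_one]
    simp
  mul := by
    intro m n
    have h2 : ((cr χ (m * n) : ℝ) : ℂ) = ((cr χ m * cr χ n : ℝ) : ℂ) := by
      rw [Complex.ofReal_mul, cr_eq q χ h, cr_eq q χ h, cr_eq q χ h, Nat.cast_mul, map_mul]
    exact_mod_cast h2
  val := by
    intro n
    unfold cr
    rcases lone_cases χ h (n : ZMod q) with h2 | h2 | h2 <;> rw [h2] <;> simp
  pv := by
    intro a b
    have h2 : ((∑ n ∈ Ioc a b, cr χ n : ℝ) : ℂ) = ∑ n ∈ Ioc a b, χ (n : ZMod q) := by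
      push_cast
      exact Finset.sum_congr rfl fun n _ => cr_eq q χ h n
    have h3 : ∑ n ∈ Ioc a b, χ (n : ZMod q) = ∑ k ∈ range (b - a), χ ((a + 1 + k : ℕ) : ZMod q) := by
      have e : Ioc a b = Ico (a + 1) (b + 1) := by ext k; simp
      rw [e, Finset.sum_Ico_eq_sum_range]
      have e2 : b + 1 - (a + 1) = b - a := by omega
      rw [e2]
    have h4 := lone_sum q χ h1 (a + 1) (b - a)
    rw [← h3, ← h2, Complex.norm_real] at h4
    exact h4

theorem ls_cr (q : ℕ) [NeZero q] (χ : DirichletCharacter ℂ q) (h : χ ^ 2 = 1) (h1 : χ ≠ 1) :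
    Ls q (χ.LFunction 1).re (cr χ) := by
  intro B hB
  have h2 := lone q χ h1 B hB
  have h3 : ((∑ n ∈ Icc 1 B, cr χ n / n : ℝ) : ℂ) = ∑ n ∈ Icc 1 B, χ (n : ZMod q) / (n : ℂ) := by
    push_cast
    exact Finset.sum_congr rfl fun n _ => by rw [cr_eq q χ h n]
  have h4 : (∑ n ∈ Icc 1 B, χ (n : ZMod q) / (n : ℂ) - χ.LFunction 1).re =
      ∑ n ∈ Icc 1 B, cr χ n / n - (χ.LFunction 1).re := by
    rw [Complex.sub_re, ← h3, Complex.ofReal_re]
  rw [← h4]
  exact (Complex.abs_re_le_norm _).trans h2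

end Pool.MP_dd84fd_nt.RZ
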