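import Pool.Agent.Lib.MP_dd84fd_nt.RZ.NN
import Pool.Agent.Lib.MP_dd84fd_nt.RZ.Lone

/-!
# RZ-Mel: `ζ(σ) L(σ, χ)` for `1/2 < σ < 1` by the Mellin transform of the error term.  Prefix aux lemmas `mel_`.

PROOF.  `N(t) = ∑_{n ≤ t} lm (cr χ) n`, `E(t) = N(t) - ℓ t`, `ℓ = Re L(1, χ)`, `|E(t)| ≤ 10 q √t` for `t ≥ 1` (nn).
For `Re s > 1`: `ζ(s) L(s, χ) = LSeries (lm ..) s` (product of LSeries: `LSeries_mul'`/`LSeries_convolution'`; see SW/Coeff.lean)
`= s ∫_{Ioi 1} N(t) t^(-s-1) dt` (`LSeries_eq_mul_integral`) `= ℓ s/(s-1) + s ∫_{Ioi 1} E(t) t^(-s-1) dt`.  The right-hand side (times `s - 1`)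
is analytic for `Re s > 1/2` (`mellin_differentiableAt_of_isBigO_rpow`, exactly as in SW/LFBound.lean), and so is
`(s-1) ζ(s) L(s, χ)` (Function.update at 1, see `zeta_neg` in SW/RealPos.lean; or use the identity principle on the connected open set
`{Re s > 1/2} \ {1}`).  Take `s = σ` real and real parts (`t^(-σ-1)` real).
-/

set_option autoImplicit false

namespace Pool.MP_dd84fd_nt.RZ

open Finset

private theorem mel_Z : ∃ Z : ℂ → ℂ, Differentiable ℂ Z ∧
    ∀ s : ℂ, s ≠ 1 → Z s = (s - 1) * riemannZeta s := by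
  obtain ⟨Z, hZd⟩ : ∃ Z : ℂ → ℂ, Z = Function.update (fun s => (s - 1) * riemannZeta s) 1 1 :=
    ⟨_, rfl⟩
  have hZ : ∀ s : ℂ, s ≠ 1 → Z s = (s - 1) * riemannZeta s := fun s hs => by
    rw [hZd]
    exact Function.update_of_ne hs _ _
  have hcont1 : ContinuousAt Z 1 := by
    rw [hZd, continuousAt_update_same]
    exact riemannZeta_residue_one
  have hdiff1 : ∀ s : ℂ, s ≠ 1 → DifferentiableAt ℂ Z s := by
    intro s hs
    have h2 : DifferentiableAt ℂ (fun s => (s - 1) * riemannZeta s) s :=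
      (differentiableAt_id.sub_const 1).mul (differentiableAt_riemannZeta hs)
    refine h2.congr_of_eventuallyEq ?_
    filter_upwards [isOpen_ne.mem_nhds hs] with z hz
    exact hZ z hz
  refine ⟨Z, fun s => ?_, hZ⟩
  by_cases hs : s = 1
  · subst hs
    refine (Complex.analyticAt_of_differentiable_on_punctured_nhds_of_continuousAt ?_
      hcont1).differentiableAt
    filter_upwards [self_mem_nhdsWithin] with z hz
    exact hdiff1 z hz
  · exact hdiff1 s hs

private noncomputable def melA {N : ℕ} (χ : DirichletCharacter ℂ N) : ArithmeticFunction ℂ :=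
  toArithmeticFunction (χ ·)

private theorem melA_apply {N : ℕ} (χ : DirichletCharacter ℂ N) {n : ℕ} (hn : n ≠ 0) :
    melA χ n = χ n := by
  show (if n = 0 then (0 : ℂ) else χ (n : ZMod N)) = _
  rw [if_neg hn]

private theorem melA_summable {N : ℕ} (χ : DirichletCharacter ℂ N) {s : ℂ} (hs : 1 < s.re) :
    LSeriesSummable (fun n => melA χ n) s := by
  refine LSeriesSummable_of_bounded_of_one_lt_re (m := 1) (fun n hn => ?_) hs
  rw [melA_apply χ hn]
  exact DirichletCharacter.norm_le_one χ _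

private theorem melA_LSeries {N : ℕ} [NeZero N] (χ : DirichletCharacter ℂ N) {s : ℂ}
    (hs : 1 < s.re) : LSeries (fun n => melA χ n) s = χ.LFunction s := by
  rw [DirichletCharacter.LFunction_eq_LSeries χ hs]
  exact LSeries_congr (fun {n} hn => melA_apply χ hn) s

private theorem mel_lm (q : ℕ) [NeZero q] (χ : DirichletCharacter ℂ q) (h : χ ^ 2 = 1) (n : ℕ) :
    ((lm (cr χ) n : ℝ) : ℂ) = ((ArithmeticFunction.zeta : ArithmeticFunction ℂ) * melA χ) n := by
  unfold lm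
  rw [Complex.ofReal_sum, ArithmeticFunction.coe_zeta_mul_apply]
  refine sum_congr rfl fun d hd => ?_
  rw [cr_eq q χ h d, melA_apply χ (Nat.pos_of_mem_divisors hd).ne']

private theorem mel_ser (q : ℕ) [NeZero q] (χ : DirichletCharacter ℂ q) (h : χ ^ 2 = 1) {s : ℂ}
    (hs : 1 < s.re) : LSeriesSummable (fun n => ((lm (cr χ) n : ℝ) : ℂ)) s ∧
      LSeries (fun n => ((lm (cr χ) n : ℝ) : ℂ)) s = riemannZeta s * χ.LFunction s := by
  have e : (fun n => ((lm (cr χ) n : ℝ) : ℂ)) =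
      fun n => ((ArithmeticFunction.zeta : ArithmeticFunction ℂ) * melA χ) n :=
    funext (mel_lm q χ h)
  rw [e]
  have s1 : LSeriesSummable (fun n => (ArithmeticFunction.zeta : ArithmeticFunction ℂ) n) s :=
    ArithmeticFunction.LSeriesSummable_zeta_iff.mpr hs
  refine ⟨ArithmeticFunction.LSeriesSummable_mul s1 (melA_summable _ hs), ?_⟩
  have h4 : LSeries (fun n => ((ArithmeticFunction.zeta : ArithmeticFunction ℂ) * melA χ) n) s =
      LSeries (fun n => (ArithmeticFunction.zeta : ArithmeticFunction ℂ) n) s *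
        LSeries (fun n => melA χ n) s :=
    ArithmeticFunction.LSeries_mul' s1 (melA_summable _ hs)
  rw [h4, melA_LSeries _ hs]
  congr 1
  exact ArithmeticFunction.LSeries_zeta_eq_riemannZeta hs

private noncomputable def melE (q : ℕ) [NeZero q] (χ : DirichletCharacter ℂ q) (t : ℝ) : ℝ :=
  ∑ n ∈ Icc 1 ⌊t⌋₊, lm (cr χ) n - (χ.LFunction 1).re * t

private theorem melE_meas (q : ℕ) [NeZero q] (χ : DirichletCharacter ℂ q) :
    Measurable (melE q χ) := by
  have h1 : Measurable fun t : ℝ => ∑ n ∈ Icc 1 ⌊t⌋₊, lm (cr χ) n := by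
    have e : (fun t : ℝ => ∑ n ∈ Icc 1 ⌊t⌋₊, lm (cr χ) n) =
        (fun n : ℕ => ∑ k ∈ Icc 1 n, lm (cr χ) k) ∘ (fun t : ℝ => ⌊t⌋₊) := rfl
    rw [e]
    exact (measurable_from_top).comp Nat.measurable_floor
  exact h1.sub (measurable_const.mul measurable_id)

private theorem melE_bd (q : ℕ) [NeZero q] (χ : DirichletCharacter ℂ q) (h : χ ^ 2 = 1)
    (h1 : χ ≠ 1) {t : ℝ} (ht : 1 ≤ t) : |melE q χ t| ≤ 10 * q * Real.sqrt t :=
  nn (rc_cr q χ h h1) (by exact_mod_cast NeZero.pos q) (ls_cr q χ h h1) ht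

private theorem mel_int (q : ℕ) [NeZero q] (χ : DirichletCharacter ℂ q) (h : χ ^ 2 = 1)
    (h1 : χ ≠ 1) {z : ℂ} (hz : 1 / 2 < z.re) :
    MeasureTheory.IntegrableOn (fun t : ℝ => ((melE q χ t : ℝ) : ℂ) * (t : ℂ) ^ (-(z + 1)))
      (Set.Ioi 1) := by
  have hg : MeasureTheory.IntegrableOn (fun t : ℝ => (10 * q : ℝ) * t ^ (-z.re - 1 / 2))
      (Set.Ioi 1) :=
    (integrableOn_Ioi_rpow_of_lt (by linarith) one_pos).const_mul _
  refine MeasureTheory.Integrable.mono' hg ?_ ?_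
  · refine MeasureTheory.AEStronglyMeasurable.mul ?_ ?_
    · exact (Complex.measurable_ofReal.comp (melE_meas q χ)).aestronglyMeasurable
    · exact (Complex.measurable_ofReal.pow_const _).aestronglyMeasurable
  · refine (MeasureTheory.ae_restrict_mem measurableSet_Ioi).mono ?_
    intro t ht
    have ht1 : (1 : ℝ) < t := ht
    have ht0 : (0 : ℝ) < t := by linarith
    rw [norm_mul, Complex.norm_cpow_eq_rpow_re_of_pos ht0, Complex.norm_real, Real.norm_eq_abs]
    have e1 : (-(z + 1)).re = -z.re - 1 := by simp; ring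
    rw [e1]
    have e2 : t ^ (-z.re - 1 / 2) = Real.sqrt t * t ^ (-z.re - 1) := by
      rw [Real.sqrt_eq_rpow, ← Real.rpow_add ht0]
      congr 1
      ring
    rw [e2, ← mul_assoc]
    exact mul_le_mul_of_nonneg_right (melE_bd q χ h h1 ht1.le) (by positivity)

private theorem mel_key (q : ℕ) [NeZero q] (χ : DirichletCharacter ℂ q) (h : χ ^ 2 = 1)
    (h1 : χ ≠ 1) {z : ℂ} (hz : 1 < z.re) :
    riemannZeta z * χ.LFunction z = z * (∫ t in Set.Ioi (1 : ℝ), ((melE q χ t : ℝ) : ℂ) *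
      (t : ℂ) ^ (-(z + 1))) + (χ.LFunction 1).re * z / (z - 1) := by
  obtain ⟨hs, he⟩ := mel_ser q χ h hz
  obtain ⟨l, hl⟩ : ∃ l, l = (χ.LFunction 1).re := ⟨_, rfl⟩
  rw [← he]
  rw [LSeries_eq_mul_integral (fun n => ((lm (cr χ) n : ℝ) : ℂ)) (zero_le_one' ℝ) hz hs]
  · have hI1 := mel_int q χ h h1 (z := z) (by linarith)
    have hI2 : MeasureTheory.IntegrableOn (fun t : ℝ => (l : ℂ) * (t : ℂ) ^ (-z)) (Set.Ioi 1) :=
      (integrableOn_Ioi_cpow_of_lt (by simpa using hz) one_pos).const_mul _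
    have e1 : ∫ t in Set.Ioi (1 : ℝ), (∑ k ∈ Icc 1 ⌊t⌋₊, ((lm (cr χ) k : ℝ) : ℂ)) *
        (t : ℂ) ^ (-(z + 1)) = ∫ t in Set.Ioi (1 : ℝ), (((melE q χ t : ℝ) : ℂ) *
          (t : ℂ) ^ (-(z + 1)) + (l : ℂ) * (t : ℂ) ^ (-z)) := by
      refine MeasureTheory.setIntegral_congr_fun measurableSet_Ioi ?_
      intro t ht
      have ht1 : (1 : ℝ) < t := ht
      have ht0 : (t : ℂ) ≠ 0 := by
        have : (0 : ℝ) < t := by linarith
        exact_mod_cast this.ne'
      have e2 : (t : ℂ) ^ (-z) = (t : ℂ) * (t : ℂ) ^ (-(z + 1)) := by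
        have : -z = 1 + (-(z + 1)) := by ring
        rw [this, Complex.cpow_add _ _ ht0, Complex.cpow_one]
      show (∑ k ∈ Icc 1 ⌊t⌋₊, ((lm (cr χ) k : ℝ) : ℂ)) * (t : ℂ) ^ (-(z + 1)) =
        ((melE q χ t : ℝ) : ℂ) * (t : ℂ) ^ (-(z + 1)) + (l : ℂ) * (t : ℂ) ^ (-z)
      rw [e2]
      unfold melE
      rw [← hl]
      push_cast
      ring
    rw [e1, MeasureTheory.integral_add hI1 hI2, MeasureTheory.integral_const_mul,
      integral_Ioi_cpow_of_lt (by simpa using hz) one_pos, ← hl]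
    have hz1 : z - 1 ≠ 0 := by
      intro h0
      have : z = 1 := sub_eq_zero.1 h0
      rw [this] at hz
      simp at hz
    have hz2 : -z + 1 ≠ 0 := by
      intro h0
      apply hz1
      linear_combination -h0
    have e3 : (l : ℂ) * (-((1 : ℝ) : ℂ) ^ (-z + 1) / (-z + 1)) = (l : ℂ) / (z - 1) := by
      rw [Complex.ofReal_one, Complex.one_cpow]
      field_simp
      ring
    rw [e3]
    ring
  · refine Asymptotics.IsBigO.of_bound (|l| + 10 * q) ?_
    filter_upwards [Filter.eventually_ge_atTop 1] with n hn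
    have hn1 : (1 : ℝ) ≤ n := by exact_mod_cast hn
    have h2 := melE_bd q χ h h1 hn1
    unfold melE at h2
    rw [← hl, Nat.floor_natCast] at h2
    have h3 : Real.sqrt n ≤ n := by
      rw [Real.sqrt_le_left (by linarith)]
      nlinarith
    rw [← Complex.ofReal_sum, Complex.norm_real, Real.norm_eq_abs, Real.rpow_one, Real.norm_eq_abs,
      abs_of_nonneg (by linarith : (0 : ℝ) ≤ n)]
    have hq0 : (0 : ℝ) ≤ q := Nat.cast_nonneg q
    have h4 : |∑ k ∈ Icc 1 n, lm (cr χ) k| ≤ |∑ k ∈ Icc 1 n, lm (cr χ) k - l * n| + |l * n| := by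
      have := abs_add_le (∑ k ∈ Icc 1 n, lm (cr χ) k - l * n) (l * n)
      rwa [sub_add_cancel] at this
    have h5 : |l * (n : ℝ)| = |l| * n := by
      rw [abs_mul, abs_of_nonneg (by linarith : (0 : ℝ) ≤ n)]
    have h6 : 10 * (q : ℝ) * Real.sqrt n ≤ 10 * q * n := mul_le_mul_of_nonneg_left h3 (by positivity)
    rw [add_mul]
    linarith

private theorem mel_all (q : ℕ) [NeZero q] (χ : DirichletCharacter ℂ q) (h : χ ^ 2 = 1)
    (h1 : χ ≠ 1) {s : ℂ} (hs : 1 / 2 < s.re) (hs1 : s ≠ 1) :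
    riemannZeta s * χ.LFunction s = s * (∫ t in Set.Ioi (1 : ℝ), ((melE q χ t : ℝ) : ℂ) *
      (t : ℂ) ^ (-(s + 1))) + (χ.LFunction 1).re * s / (s - 1) := by
  obtain ⟨Z, hZd, hZ⟩ := mel_Z
  obtain ⟨S, hS⟩ : ∃ S : ℝ → ℂ, S = fun t => ((melE q χ t : ℝ) : ℂ) := ⟨_, rfl⟩
  have hSm : Measurable S := by
    rw [hS]
    exact Complex.measurable_ofReal.comp (melE_meas q χ)
  obtain ⟨F, hF⟩ : ∃ F : ℝ → ℂ, F = (Set.Ioi (1 : ℝ)).indicator S := ⟨_, rfl⟩
  have hFm : Measurable F := by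
    rw [hF]
    exact hSm.indicator measurableSet_Ioi
  have hFb : ∀ t, ‖F t‖ ≤ 10 * q * Real.sqrt t := by
    intro t
    rw [hF]
    by_cases ht : t ∈ Set.Ioi (1 : ℝ)
    · rw [Set.indicator_of_mem ht, hS]
      show ‖((melE q χ t : ℝ) : ℂ)‖ ≤ _
      rw [Complex.norm_real, Real.norm_eq_abs]
      exact melE_bd q χ h h1 (le_of_lt ht)
    · rw [Set.indicator_of_notMem ht, norm_zero]
      positivity
  have hmel : ∀ z : ℂ, mellin F (-z) = ∫ t in Set.Ioi (1 : ℝ), ((melE q χ t : ℝ) : ℂ) *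
      (t : ℂ) ^ (-(z + 1)) := by
    intro z
    rw [mellin, hF]
    have h2 : ∀ t : ℝ, (t : ℂ) ^ (-z - 1) • (Set.Ioi (1 : ℝ)).indicator S t =
        (Set.Ioi (1 : ℝ)).indicator (fun t => S t * (t : ℂ) ^ (-(z + 1))) t := by
      intro t
      by_cases ht : t ∈ Set.Ioi (1 : ℝ)
      · rw [Set.indicator_of_mem ht, Set.indicator_of_mem ht, smul_eq_mul, mul_comm]
        congr 2
        ring
      · rw [Set.indicator_of_notMem ht, Set.indicator_of_notMem ht, smul_zero]
    simp_rw [h2]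
    rw [MeasureTheory.setIntegral_indicator measurableSet_Ioi, hS]
    congr 2
    ext t
    simp only [Set.mem_inter_iff, Set.mem_Ioi]
    constructor
    · rintro ⟨_, h⟩; exact h
    · intro h; exact ⟨by linarith, h⟩
  have hdiff : ∀ z : ℂ, 1 / 2 < z.re → DifferentiableAt ℂ (mellin F) (-z) := by
    intro z hz
    refine mellin_differentiableAt_of_isBigO_rpow (a := -(1 / 2)) (b := -z.re - 1) ?_ ?_ ?_ ?_ ?_
    · refine MeasureTheory.LocallyIntegrable.locallyIntegrableOn ?_ _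
      intro x
      refine ⟨Metric.ball x 1, Metric.ball_mem_nhds x one_pos, ?_⟩
      refine MeasureTheory.Measure.integrableOn_of_bounded (M := 10 * q * Real.sqrt (|x| + 1)) ?_
        hFm.aestronglyMeasurable ?_
      · exact (MeasureTheory.measure_ball_lt_top).ne
      · refine (MeasureTheory.ae_restrict_mem Metric.isOpen_ball.measurableSet).mono ?_
        intro t ht
        refine (hFb t).trans (mul_le_mul_of_nonneg_left (Real.sqrt_le_sqrt ?_) (by positivity))
        rw [Metric.mem_ball, Real.dist_eq, abs_lt] at ht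
        linarith [le_abs_self x, ht.2]
    · refine Asymptotics.IsBigO.of_bound (10 * q : ℝ) ?_
      filter_upwards [Filter.eventually_ge_atTop 0] with t ht
      rw [neg_neg, ← Real.sqrt_eq_rpow, Real.norm_eq_abs, abs_of_nonneg (Real.sqrt_nonneg t)]
      exact hFb t
    · simp only [Complex.neg_re]
      linarith
    · refine Asymptotics.IsBigO.of_bound 0 ?_
      have : Set.Iio (1 : ℝ) ∈ nhdsWithin (0 : ℝ) (Set.Ioi 0) :=
        mem_nhdsWithin_of_mem_nhds (Iio_mem_nhds one_pos)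
      filter_upwards [this] with t ht
      rw [hF, Set.indicator_of_notMem (by
        simp only [Set.mem_Ioi, not_lt]
        exact (Set.mem_Iio.1 ht).le)]
      simp
    · simp
  obtain ⟨H, hH⟩ : ∃ H : ℂ → ℂ, H = fun z => (z - 1) * (z * mellin F (-z)) +
      ((χ.LFunction 1).re : ℂ) * z := ⟨_, rfl⟩
  have hHdiff : DifferentiableOn ℂ H {z : ℂ | 1 / 2 < z.re} := by
    intro z hz
    refine DifferentiableAt.differentiableWithinAt ?_
    rw [hH]
    refine DifferentiableAt.add ?_ ((differentiableAt_const _).mul differentiableAt_id)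
    refine (differentiableAt_id.sub_const 1).mul (differentiableAt_id.mul ?_)
    exact (hdiff z hz).comp z differentiableAt_id.neg
  have hopen : IsOpen {z : ℂ | 1 / 2 < z.re} := isOpen_lt continuous_const Complex.continuous_re
  have hEq : Set.EqOn (fun z => Z z * χ.LFunction z) H {z : ℂ | 1 / 2 < z.re} := by
    refine AnalyticOnNhd.eqOn_of_preconnected_of_eventuallyEq
      ((hZd.mul (DirichletCharacter.differentiable_LFunction h1)).differentiableOn.analyticOnNhd
        hopen)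
      (hHdiff.analyticOnNhd hopen) ?_ (z₀ := 2) (by simp; norm_num) ?_
    · exact (convex_halfSpace_re_gt (1 / 2)).isPreconnected
    · have hn : {z : ℂ | 1 < z.re} ∈ nhds (2 : ℂ) :=
        (isOpen_lt continuous_const Complex.continuous_re).mem_nhds (by simp)
      filter_upwards [hn] with z hz
      have hz1 : z ≠ 1 := by
        rintro rfl
        simp at hz
      have hz0 : z - 1 ≠ 0 := sub_ne_zero.2 hz1
      rw [hZ z hz1, mul_assoc, mel_key q χ h h1 hz, hH]
      show _ = (z - 1) * (z * mellin F (-z)) + ((χ.LFunction 1).re : ℂ) * z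
      rw [hmel]
      field_simp
  have h3 := hEq hs
  rw [hH] at h3
  simp only at h3
  rw [hZ s hs1, hmel, mul_assoc] at h3
  have hs0 : s - 1 ≠ 0 := sub_ne_zero.2 hs1
  have h4 : riemannZeta s * χ.LFunction s = ((s - 1) * (riemannZeta s * χ.LFunction s)) / (s - 1) := by
    field_simp
  rw [h4, h3]
  field_simp

theorem mel (q : ℕ) [NeZero q] (χ : DirichletCharacter ℂ q) (h : χ ^ 2 = 1) (h1 : χ ≠ 1) {σ : ℝ}
    (hσ : 1 / 2 < σ) (hσ1 : σ < 1) :
    MeasureTheory.IntegrableOn (fun t : ℝ =>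
      (∑ n ∈ Icc 1 ⌊t⌋₊, lm (cr χ) n - (χ.LFunction 1).re * t) * t ^ (-σ - 1)) (Set.Ioi 1) ∧
    (riemannZeta σ * χ.LFunction σ).re = -((χ.LFunction 1).re * σ / (1 - σ)) +
      σ * ∫ t in Set.Ioi (1 : ℝ),
        (∑ n ∈ Icc 1 ⌊t⌋₊, lm (cr χ) n - (χ.LFunction 1).re * t) * t ^ (-σ - 1) := by
  have hσc : 1 / 2 < ((σ : ℝ) : ℂ).re := by simpa using hσ
  have hi := mel_int q χ h h1 hσc
  have hcong : ∀ t ∈ Set.Ioi (1 : ℝ), ((melE q χ t : ℝ) : ℂ) * (t : ℂ) ^ (-((σ : ℂ) + 1)) =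
      ((melE q χ t * t ^ (-σ - 1) : ℝ) : ℂ) := by
    intro t ht
    have ht1 : (1 : ℝ) < t := ht
    have ht0 : (0 : ℝ) ≤ t := by linarith
    rw [Complex.ofReal_mul, Complex.ofReal_cpow ht0]
    congr 2
    push_cast
    ring
  have hi2 : MeasureTheory.IntegrableOn (fun t : ℝ => melE q χ t * t ^ (-σ - 1)) (Set.Ioi 1) := by
    have h2 : MeasureTheory.IntegrableOn (fun t : ℝ => ((melE q χ t * t ^ (-σ - 1) : ℝ) : ℂ))
        (Set.Ioi 1) := hi.congr_fun hcong measurableSet_Ioi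
    have h3 := h2.re
    unfold MeasureTheory.IntegrableOn
    simpa using h3
  have hσ1' : (σ : ℂ) ≠ 1 := by
    intro h0
    have : σ = 1 := by exact_mod_cast h0
    linarith
  refine ⟨hi2, ?_⟩
  rw [mel_all q χ h h1 hσc hσ1', MeasureTheory.setIntegral_congr_fun measurableSet_Ioi hcong,
    integral_complex_ofReal]
  have e1 : (σ : ℂ) * ((∫ t in Set.Ioi (1 : ℝ), melE q χ t * t ^ (-σ - 1) : ℝ) : ℂ) +
      ((χ.LFunction 1).re : ℂ) * (σ : ℂ) / ((σ : ℂ) - 1) =
      ((σ * (∫ t in Set.Ioi (1 : ℝ), melE q χ t * t ^ (-σ - 1)) +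
        (χ.LFunction 1).re * σ / (σ - 1) : ℝ) : ℂ) := by
    push_cast
    ring
  rw [e1, Complex.ofReal_re]
  have e2 : (χ.LFunction 1).re * σ / (σ - 1) = -((χ.LFunction 1).re * σ / (1 - σ)) := by
    rw [← div_neg, neg_sub]
  rw [e2, add_comm]
  rfl

end Pool.MP_dd84fd_nt.RZ
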