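import Pool.Agent.Lib.MP_dd84fd_nt.RZ.Defs

/-!
# RZ-NN: the hyperbola method, `∑_{n ≤ x} (1 * c)(n) = ℓ x + O(r √x)`.  Prefix aux lemmas `nn_`.

PROOF.  `N = ⌊x⌋`, `B = ⌊√x⌋ ≥ √x/2`, `B ≥ 1`.  `∑_{n ≤ N} ∑_{d ∣ n} c(d) = ∑_{d ≤ N} c(d) (N/d)` (natural division)
`= ∑_{d ≤ B} c(d) (N/d) + ∑_{B < d ≤ N} c(d) (N/d)`.  Second sum `= ∑_{1 ≤ a ≤ N/(B+1)} ∑_{B < d ≤ N/a} c(d)`, absolute value
`≤ r N/(B+1) ≤ r √x`.  First: `|N/d - x/d| ≤ 1` (⌊x/d⌋ = N/d), so it is `x ∑_{d ≤ B} c(d)/d + O(B) = x ℓ + O(2 r x/B) + O(√x)`,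
`x/B ≤ 2 √x`.  Total `≤ r √x + 4 r √x + √x ≤ 6 r √x`.
-/

set_option autoImplicit false

namespace Pool.MP_dd84fd_nt.RZ

open Finset

private lemma nn_swap (c : ℕ → ℝ) (N : ℕ) :
    ∑ n ∈ Icc 1 N, lm c n = ∑ d ∈ Icc 1 N, c d * ((N / d : ℕ) : ℝ) := by
  unfold lm
  have h1 : ∀ n ∈ Icc 1 N, ∑ d ∈ n.divisors, c d = ∑ d ∈ Icc 1 N, if d ∣ n then c d else 0 := by
    intro n hn
    rw [mem_Icc] at hn
    rw [← sum_filter]
    refine sum_congr ?_ fun _ _ => rfl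
    ext d
    rw [Nat.mem_divisors, mem_filter, mem_Icc]
    constructor
    · rintro ⟨h, h0⟩
      have h2 := Nat.le_of_dvd (by omega) h
      have h3 := Nat.pos_of_dvd_of_pos h (by omega)
      exact ⟨⟨h3, by omega⟩, h⟩
    · rintro ⟨-, h⟩
      exact ⟨h, by omega⟩
  rw [sum_congr rfl h1, sum_comm]
  refine sum_congr rfl fun d _ => ?_
  rw [← sum_filter, sum_const, nsmul_eq_mul, mul_comm]
  congr 2
  have h2 := Nat.Ioc_filter_dvd_card_eq_div N d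
  rw [← h2]
  congr 1

private lemma nn_tail {r : ℝ} {c : ℕ → ℝ} (hc : Rc r c) (B N : ℕ) :
    |∑ d ∈ Ioc B N, c d * ((N / d : ℕ) : ℝ)| ≤ ((N / (B + 1) : ℕ) : ℝ) * r := by
  have h1 : ∀ d ∈ Ioc B N, c d * ((N / d : ℕ) : ℝ) =
      ∑ a ∈ Icc 1 (N / (B + 1)), if d ≤ N / a then c d else 0 := by
    intro d hd
    rw [mem_Ioc] at hd
    rw [← sum_filter, sum_const, nsmul_eq_mul, mul_comm]
    congr 2
    have h2 : (Icc 1 (N / (B + 1))).filter (fun a => d ≤ N / a) = Icc 1 (N / d) := by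
      ext a
      rw [mem_filter, mem_Icc, mem_Icc]
      constructor
      · rintro ⟨⟨h3, -⟩, h5⟩
        refine ⟨h3, ?_⟩
        rw [Nat.le_div_iff_mul_le (by omega)] at h5 ⊢
        rw [mul_comm]; exact h5
      · rintro ⟨h3, h4⟩
        refine ⟨⟨h3, h4.trans (Nat.div_le_div_left (by omega) (by omega))⟩, ?_⟩
        rw [Nat.le_div_iff_mul_le (by omega)] at h4 ⊢
        rw [mul_comm]; exact h4
    rw [h2, Nat.card_Icc, Nat.add_sub_cancel]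
  rw [sum_congr rfl h1, sum_comm]
  refine (abs_sum_le_sum_abs _ _).trans ?_
  have h3 : ∀ a ∈ Icc 1 (N / (B + 1)), |∑ d ∈ Ioc B N, if d ≤ N / a then c d else 0| ≤ r := by
    intro a ha
    rw [mem_Icc] at ha
    rw [← sum_filter]
    have h4 : (Ioc B N).filter (fun d => d ≤ N / a) = Ioc B (N / a) := by
      ext d
      rw [mem_filter, mem_Ioc, mem_Ioc]
      have h5 := Nat.div_le_self N a
      constructor
      · rintro ⟨⟨h6, _⟩, h7⟩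
        exact ⟨h6, h7⟩
      · rintro ⟨h6, h7⟩
        exact ⟨⟨h6, h7.trans h5⟩, h7⟩
    rw [h4]
    exact hc.pv B (N / a)
  refine (sum_le_card_nsmul _ _ _ h3).trans (le_of_eq ?_)
  rw [Nat.card_Icc, Nat.add_sub_cancel, nsmul_eq_mul]

private lemma nn_head {r ℓ : ℝ} {c : ℕ → ℝ} (hc : Rc r c) (hl : Ls r ℓ c) (x : ℝ) (hx : 0 ≤ x)
    (B : ℕ) (hB : 1 ≤ B) :
    |∑ d ∈ Icc 1 B, c d * ((⌊x⌋₊ / d : ℕ) : ℝ) - ℓ * x| ≤ B + x * (2 * r / B) := by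
  have h1 : ∑ d ∈ Icc 1 B, c d * ((⌊x⌋₊ / d : ℕ) : ℝ) - ℓ * x =
      ∑ d ∈ Icc 1 B, c d * (((⌊x⌋₊ / d : ℕ) : ℝ) - x / d) + x * (∑ d ∈ Icc 1 B, c d / d - ℓ) := by
    rw [mul_sub, mul_sum, mul_comm x ℓ, ← add_sub_assoc, ← sum_add_distrib]
    congr 1
    refine sum_congr rfl fun d _ => ?_
    ring
  rw [h1]
  refine (abs_add_le _ _).trans (add_le_add ?_ ?_)
  · refine (abs_sum_le_sum_abs _ _).trans ?_
    have h2 : ∀ d ∈ Icc 1 B, |c d * (((⌊x⌋₊ / d : ℕ) : ℝ) - x / d)| ≤ 1 := by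
      intro d hd
      rw [mem_Icc] at hd
      rw [abs_mul]
      have h3 : |c d| ≤ 1 := by
        rcases hc.val d with h | h | h <;> rw [h] <;> norm_num
      have h4 : |((⌊x⌋₊ / d : ℕ) : ℝ) - x / d| ≤ 1 := by
        rw [← Nat.floor_div_natCast]
        have h5 := Nat.floor_le (div_nonneg hx (Nat.cast_nonneg d) : 0 ≤ x / (d : ℝ))
        have h6 := Nat.lt_floor_add_one (x / (d : ℝ))
        rw [abs_le]
        constructor <;> linarith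
      calc |c d| * |((⌊x⌋₊ / d : ℕ) : ℝ) - x / d| ≤ 1 * 1 :=
            mul_le_mul h3 h4 (abs_nonneg _) zero_le_one
        _ = 1 := one_mul 1
    refine (sum_le_card_nsmul _ _ _ h2).trans (le_of_eq ?_)
    rw [Nat.card_Icc, Nat.add_sub_cancel, nsmul_eq_mul, mul_one]
  · rw [abs_mul, abs_of_nonneg hx]
    exact mul_le_mul_of_nonneg_left (hl B hB) hx

theorem nn {r ℓ : ℝ} {c : ℕ → ℝ} (hc : Rc r c) (hr : 1 ≤ r) (hl : Ls r ℓ c) {x : ℝ} (hx : 1 ≤ x) :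
    |∑ n ∈ Icc 1 ⌊x⌋₊, lm c n - ℓ * x| ≤ 10 * r * Real.sqrt x := by
  obtain ⟨B, hBd⟩ : ∃ B : ℕ, B = ⌊Real.sqrt x⌋₊ := ⟨_, rfl⟩
  obtain ⟨N, hN⟩ : ∃ N : ℕ, N = ⌊x⌋₊ := ⟨_, rfl⟩
  have hx0 : 0 ≤ x := by linarith
  have hs1 : 1 ≤ Real.sqrt x := Real.one_le_sqrt.2 hx
  have hss : Real.sqrt x * Real.sqrt x = x := Real.mul_self_sqrt hx0
  have hB1 : 1 ≤ B := by rw [hBd]; exact Nat.le_floor (by rw [Nat.cast_one]; exact hs1)
  have hBle : (B : ℝ) ≤ Real.sqrt x := by rw [hBd]; exact Nat.floor_le (Real.sqrt_nonneg x)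
  have hBlt : Real.sqrt x < (B : ℝ) + 1 := by rw [hBd]; exact Nat.lt_floor_add_one _
  have hB1' : (1 : ℝ) ≤ B := by exact_mod_cast hB1
  have hBN : B ≤ N := by
    rw [hN]
    refine Nat.le_floor (hBle.trans ?_)
    nlinarith
  have hNx : (N : ℝ) ≤ x := by rw [hN]; exact Nat.floor_le hx0
  have h1 := nn_head hc hl x hx0 B hB1
  have h2 := nn_tail hc B N
  rw [← hN] at h1 ⊢
  rw [nn_swap]
  have h3 : ∑ d ∈ Icc 1 N, c d * ((N / d : ℕ) : ℝ) =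
      ∑ d ∈ Icc 1 B, c d * ((N / d : ℕ) : ℝ) + ∑ d ∈ Ioc B N, c d * ((N / d : ℕ) : ℝ) := by
    rw [← sum_union]
    · refine sum_congr ?_ fun _ _ => rfl
      ext d
      rw [mem_union, mem_Icc, mem_Icc, mem_Ioc]
      omega
    · rw [Finset.disjoint_left]
      intro d h4 h5
      rw [mem_Icc] at h4
      rw [mem_Ioc] at h5
      omega
  rw [h3]
  have h4 : ((N / (B + 1) : ℕ) : ℝ) ≤ Real.sqrt x := by
    have h5 : ((N / (B + 1) : ℕ) : ℝ) ≤ (N : ℝ) / ((B + 1 : ℕ) : ℝ) := Nat.cast_div_le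
    refine h5.trans ?_
    rw [div_le_iff₀ (by positivity)]
    push_cast
    nlinarith
  have h6 : x * (2 * r / B) ≤ 4 * r * Real.sqrt x := by
    have h7 : Real.sqrt x ≤ 2 * B := by linarith
    rw [mul_div_assoc', div_le_iff₀ (by linarith)]
    calc x * (2 * r) = (Real.sqrt x * Real.sqrt x) * (2 * r) := by rw [hss]
      _ ≤ (Real.sqrt x * (2 * B)) * (2 * r) := by
          refine mul_le_mul_of_nonneg_right ?_ (by linarith)
          exact mul_le_mul_of_nonneg_left h7 (Real.sqrt_nonneg x)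
      _ = 4 * r * Real.sqrt x * B := by ring
  have h8 : ((N / (B + 1) : ℕ) : ℝ) * r ≤ Real.sqrt x * r :=
    mul_le_mul_of_nonneg_right h4 (by linarith)
  have h9 : Real.sqrt x ≤ r * Real.sqrt x := by
    have := mul_le_mul_of_nonneg_right hr (Real.sqrt_nonneg x)
    linarith
  have h10 : 0 ≤ r * Real.sqrt x := by positivity
  rw [abs_le] at h1 h2 ⊢
  constructor
  · linarith [h1.1, h2.1]
  · linarith [h1.2, h2.2]

end Pool.MP_dd84fd_nt.RZ
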