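import Pool.Agent.Lib.MP_dd84fd_nt.RZ.GrdB
import Pool.Agent.Lib.MP_dd84fd_nt.RZ.Cmb
import Pool.Agent.Lib.MP_dd84fd_nt.QZ.Seq
import Pool.Agent.Lib.MP_dd84fd_nt.QZ.Dfc

/-!
# RZ-RCore: a real heavy function is `-1` at most primes of some scale.  Prefix aux lemmas `rcore_`.

PROOF.  As QZ-Core (QZ_mod_Core.lean in the store; copy the set-up) with `f1 = f2 = f`, `u1 = u2 = u`, `y1 = y2`: `G k = ‖u (Y h k)‖²`,
`K = kk h y1`, Seq with a small `ε'` instead of `ε` gives `k ≤ K` with `log z ≤ ε' h k`, `lam²/8 ≤ G k` or so, `Dh h u k ≤ ε' h k`,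
`h ∑_{i<k} Dh h u i ≤ ε' (hk)²`; `y = Y h k` (`z ≤ y ≤ exp L`, `log y = h k`).  defect: `DD z f u y ≤ C'' ε' h k`, defect_sum:
`∑ (La/m) DD(y/m) ≤ C'' ε' (hk)²`.  grdA, grdB with `C'' ε'` in place of `ε`, then cmb (`C' C'' ε' ≤ 1`): at most `6 √(C' C'' ε') k + 2` indices `i < k` with
`tt h u k i ≠ 1`.  `Icc 1 ⌊y⌋₊` is `{1}` and the windows `Wn h i`, `i < k` (`La z 1 = 0`); on the windows with `tt = 1` use grdA (3), on the others the mass is
`≤ 2h` (Pm.win1): total `≤ C' C'' ε' h k + 2h (6 √.. k + 2) ≤ ε h k` (`2 ≤ 2 ε' k`).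
-/

set_option autoImplicit false

namespace Pool.MP_dd84fd_nt.RZ

open Finset
open Pool.MP_dd84fd_nt.QZ
open Pool.MP_dd84fd_nt.En (Rough rho)

private theorem rcore_kk (h : ℝ) (hh : 0 < h) (k : ℕ) : kk h (Y h k) = k := by
  unfold kk Y
  rw [Real.log_exp, mul_div_cancel_left₀ _ hh.ne', Nat.floor_natCast]

private theorem rcore_logY (h : ℝ) (k : ℕ) : Real.log (Y h k) = h * k := by
  unfold Y
  rw [Real.log_exp]

private theorem rcore_DD_nonneg (z : ℝ) (f : ℕ → ℂ) (u : ℝ → ℂ) (y : ℝ) : 0 ≤ DD z f u y := by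
  unfold DD La
  refine sum_nonneg fun m _ => mul_nonneg (div_nonneg (mul_nonneg ?_ ?_) (Nat.cast_nonneg _)) (sq_nonneg _)
  · unfold rho
    split_ifs <;> norm_num
  · exact ArithmeticFunction.vonMangoldt_nonneg

/-- the grid point below `y` -/
private theorem rcore_start (C lam c z L δ h : ℝ) (f : ℕ → ℂ) (u : ℝ → ℂ) (hC : 1 ≤ C) (hlam : 0 < lam)
    (hc : 0 < c) (hPm : Pm z L δ h) (hS : Sys C z L δ h f u) (hδ1 : δ ≤ lam / (2 * C))
    (hδ2 : δ ≤ c / 2) (y : ℝ) (hy1 : Real.exp (c * L) ≤ y) (hy : lam ≤ ‖u y‖) :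
    c / 2 * L ≤ h * kk h y ∧ Y h (kk h y) ≤ y ∧ lam ^ 2 / 4 ≤ ‖u (Y h (kk h y))‖ ^ 2 := by
  have hh := hPm.h0
  have hδ0 := hPm.d0
  have hz0 := hPm.z0
  have hy0 : 0 < y := lt_of_lt_of_le (Real.exp_pos _) hy1
  have hlz : 1 ≤ Real.log z := by
    rw [Real.le_log_iff_exp_le (lt_of_lt_of_le (Real.exp_pos 1) hz0)]
    exact hz0
  have hzL := hPm.zL
  have hδL : 1 ≤ δ * L := by rw [← hzL]; exact hlz
  have hL0 : 0 < L := by
    by_contra hcon
    push Not at hcon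
    have := mul_nonpos_of_nonneg_of_nonpos hδ0.le hcon
    linarith
  have hlogy : c * L ≤ Real.log y := by
    rw [Real.le_log_iff_exp_le hy0]
    exact hy1
  have hlogy0 : 0 ≤ Real.log y / h := by
    apply div_nonneg _ hh.le
    have : 0 < c * L := by positivity
    linarith
  have hf1 : ((kk h y : ℕ) : ℝ) ≤ Real.log y / h := Nat.floor_le hlogy0
  have hf2 : Real.log y / h < (kk h y : ℕ) + 1 := Nat.lt_floor_add_one _
  have g1 : h * kk h y ≤ Real.log y := by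
    rw [le_div_iff₀ hh] at hf1
    linarith
  have g2 : Real.log y < h * kk h y + h := by
    rw [div_lt_iff₀ hh] at hf2
    linarith
  have hYy : Y h (kk h y) ≤ y := by
    unfold Y
    calc Real.exp (h * kk h y) ≤ Real.exp (Real.log y) := Real.exp_le_exp.2 g1
      _ = y := Real.exp_log hy0
  have hyY : y ≤ Y h (kk h y) * Real.exp h := by
    unfold Y
    rw [← Real.exp_add]
    calc y = Real.exp (Real.log y) := (Real.exp_log hy0).symm
      _ ≤ _ := Real.exp_le_exp.2 g2.le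
  have hY0 : 0 < Y h (kk h y) := Real.exp_pos _
  refine ⟨?_, hYy, ?_⟩
  · have h1 : h ≤ c / 2 * L := by
      have h2 : h ≤ δ := hPm.h1
      have h3 : δ * 1 ≤ δ * (δ * L) := mul_le_mul_of_nonneg_left hδL hδ0.le
      have h4 : δ * (δ * L) ≤ 1 * (δ * L) := by
        apply mul_le_mul_of_nonneg_right hPm.d1 (by linarith)
      have h5 : δ * L ≤ c / 2 * L := mul_le_mul_of_nonneg_right hδ2 hL0.le
      linarith
    have : c * L = c / 2 * L + c / 2 * L := by ring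
    linarith
  · have h1 := hS.slow (Y h (kk h y)) y hY0 hYy hyY
    have h2 : ‖u y‖ ≤ ‖u (Y h (kk h y))‖ + ‖u y - u (Y h (kk h y))‖ := by
      have := norm_add_le (u (Y h (kk h y))) (u y - u (Y h (kk h y)))
      simpa using this
    have h3 : C * δ ≤ lam / 2 := by
      have h4 : C * δ ≤ C * (lam / (2 * C)) := mul_le_mul_of_nonneg_left hδ1 (by linarith)
      have h5 : C * (lam / (2 * C)) = lam / 2 := by field_simp
      linarith
    have h4 : lam / 2 ≤ ‖u (Y h (kk h y))‖ := by linarith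
    calc lam ^ 2 / 4 = (lam / 2) ^ 2 := by ring
      _ ≤ _ := pow_le_pow_left₀ (by positivity) h4 2

private theorem rcore_La_nonneg (z : ℝ) (m : ℕ) : 0 ≤ La z m / m := by
  unfold La
  refine div_nonneg (mul_nonneg ?_ ?_) (Nat.cast_nonneg _)
  · unfold rho
    split_ifs <;> norm_num
  · exact ArithmeticFunction.vonMangoldt_nonneg

private theorem rcore_La_one (z : ℝ) : La z 1 = 0 := by
  unfold La
  rw [ArithmeticFunction.vonMangoldt_apply_one, mul_zero]

private theorem rcore_Y0 (h : ℝ) : Y h 0 = 1 := by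
  unfold Y
  rw [Nat.cast_zero, mul_zero, Real.exp_zero]

private theorem rcore_Ys (h : ℝ) (i : ℕ) : Y h (i + 1) = Y h i * Real.exp h := by
  unfold Y
  rw [← Real.exp_add]
  congr 1
  push_cast
  ring

private theorem rcore_split (h : ℝ) (hYm : ∀ i j : ℕ, i ≤ j → Y h i ≤ Y h j) (g : ℕ → ℝ) (k : ℕ) :
    ∑ m ∈ Ioc 1 ⌊Y h k⌋₊, g m = ∑ i ∈ range k, ∑ m ∈ Wn h i, g m := by
  induction k with
  | zero => rw [rcore_Y0]; simp
  | succ k ih =>
    rw [sum_range_succ, ← ih]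
    unfold Wn
    have h1 : (1 : ℕ) ≤ ⌊Y h k⌋₊ := by
      have h2 := hYm 0 k (Nat.zero_le _)
      rw [rcore_Y0] at h2
      exact Nat.le_floor (by exact_mod_cast h2)
    exact (sum_Ioc_consecutive g h1 (Nat.floor_le_floor (hYm k (k + 1) (Nat.le_succ k)))).symm

open Classical in
theorem rcore (C lam c ε : ℝ) (hC : 1 ≤ C) (hlam : 0 < lam) (hc : 0 < c) (hε : 0 < ε) :
    ∃ δ0 : ℝ, 0 < δ0 ∧ ∀ (z L δ h : ℝ) (f : ℕ → ℂ) (u : ℝ → ℂ), Pm z L δ h → δ ≤ δ0 →
    Sys C z L δ h f u → (∀ m, f m = 1 ∨ f m = 0 ∨ f m = -1) →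
    ∀ y1 : ℝ, Real.exp (c * L) ≤ y1 → y1 ≤ Real.exp L → lam ≤ ‖u y1‖ →
    ∃ y : ℝ, z ≤ y ∧ y ≤ Real.exp L ∧ Real.log z ≤ ε * Real.log y ∧
      ∑ m ∈ (Icc 1 ⌊y⌋₊).filter (fun m => f m ≠ -1), La z m / m ≤ ε * Real.log y := by
  have hC0 : 0 < C := by linarith
  obtain ⟨C1, hC1, hdef⟩ := defect C hC0
  obtain ⟨C2, hC2, hdsum⟩ := defect_sum C hC0
  obtain ⟨CA, δA, hCA, hδA, hgA⟩ := grdA C (lam / 3) hC (by positivity)
  obtain ⟨CB, δB, hCB, hδB, hgB⟩ := grdB C (lam / 3) hC (by positivity)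
  obtain ⟨η, hηd⟩ : ∃ η : ℝ, η = min 1 (ε / 17) := ⟨_, rfl⟩
  have hη0 : 0 < η := by rw [hηd]; exact lt_min one_pos (by positivity)
  have hη1 : η ≤ 1 := by rw [hηd]; exact min_le_left _ _
  have hη2 : 17 * η ≤ ε := by
    have : η ≤ ε / 17 := by rw [hηd]; exact min_le_right _ _
    linarith
  obtain ⟨Q, hQ⟩ : ∃ Q : ℝ, Q = (CA + CB) * (1 + C1 + C2) := ⟨_, rfl⟩
  have hQ0 : 0 < Q := by rw [hQ]; positivity
  obtain ⟨e, he⟩ : ∃ e : ℝ, e = η ^ 2 / (1 + Q) := ⟨_, rfl⟩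
  have he0 : 0 < e := by rw [he]; positivity
  have hη22 : η ^ 2 ≤ η := by
    have : η * η ≤ η * 1 := mul_le_mul_of_nonneg_left hη1 hη0.le
    calc η ^ 2 = η * η := by ring
      _ ≤ _ := by linarith
  have he1 : e ≤ η ^ 2 := by
    rw [he]
    exact div_le_self (sq_nonneg η) (by linarith)
  have heη : e ≤ η := he1.trans hη22
  have heQ : Q * e ≤ η ^ 2 := by
    rw [he, ← mul_div_assoc, div_le_iff₀ (by positivity)]
    have : 0 ≤ η ^ 2 := sq_nonneg η
    nlinarith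
  obtain ⟨A, hA⟩ : ∃ A : ℝ, A = max 1 (max (C ^ 2) C1) := ⟨_, rfl⟩
  have hA1 : 1 ≤ A := by rw [hA]; exact le_max_left _ _
  have hAC : C ^ 2 ≤ A := by rw [hA]; exact (le_max_left _ _).trans (le_max_right _ _)
  have hAC1 : C1 ≤ A := by rw [hA]; exact (le_max_right _ _).trans (le_max_right _ _)
  obtain ⟨δ1, hδ1, hseq⟩ := seq A (lam ^ 2 / 4) e (c / 2) hA1 (by positivity) he0
    (by positivity)
  refine ⟨min (min δ1 (min δA δB)) (min (lam / (2 * C)) (c / 2)),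
    lt_min (lt_min hδ1 (lt_min hδA hδB)) (lt_min (by positivity) (by positivity)), ?_⟩
  intro z L δ h f u hPm hδ hS hf y1 hy1 hy1' hu1
  have hδa : δ ≤ δ1 := hδ.trans ((min_le_left _ _).trans (min_le_left _ _))
  have hδA' : δ ≤ δA :=
    hδ.trans ((min_le_left _ _).trans ((min_le_right _ _).trans (min_le_left _ _)))
  have hδB' : δ ≤ δB :=
    hδ.trans ((min_le_left _ _).trans ((min_le_right _ _).trans (min_le_right _ _)))
  have hδb : δ ≤ lam / (2 * C) := hδ.trans ((min_le_right _ _).trans (min_le_left _ _))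
  have hδc : δ ≤ c / 2 := hδ.trans ((min_le_right _ _).trans (min_le_right _ _))
  have hh := hPm.h0
  have hδ0 := hPm.d0
  have hzL := hPm.zL
  have hzpos : 0 < z := lt_of_lt_of_le (Real.exp_pos 1) hPm.z0
  have hlz : 1 ≤ Real.log z := by
    rw [Real.le_log_iff_exp_le hzpos]
    exact hPm.z0
  have hL0 : 0 < L := by
    by_contra hcon
    push Not at hcon
    have := mul_nonpos_of_nonneg_of_nonpos hδ0.le hcon
    linarith
  obtain ⟨a1, a2, a3⟩ := rcore_start C lam c z L δ h f u hC hlam hc hPm hS hδb hδc y1 hy1 hu1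
  have hYmono : ∀ i j : ℕ, i ≤ j → Y h i ≤ Y h j := by
    intro i j hij
    unfold Y
    apply Real.exp_le_exp.2
    have : (i : ℝ) ≤ j := by exact_mod_cast hij
    exact mul_le_mul_of_nonneg_left this hh.le
  have hY1 : ∀ i : ℕ, 1 ≤ Y h i := by
    intro i
    unfold Y
    exact Real.one_le_exp (by positivity)
  have hDq : ∀ K : ℕ, Y h K ≤ Real.exp L →
      ∀ k ≤ K, |DD z f u (Y h k) - Dq h (fun i => ‖u (Y h i)‖ ^ 2) k| ≤ C1 * Real.log z := by
    intro K hK k hk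
    have h1 := hdef z L δ h f u hPm hS (Y h k) (hY1 k) ((hYmono k K hk).trans hK)
    rw [rcore_kk h hh k] at h1
    exact h1
  have hDqlow : ∀ K : ℕ, Y h K ≤ Real.exp L →
      ∀ k ≤ K, -(A * Real.log z) ≤ Dq h (fun i => ‖u (Y h i)‖ ^ 2) k := by
    intro K hK k hk
    have h1 := (abs_le.1 (hDq K hK k hk)).2
    have h2 := rcore_DD_nonneg z f u (Y h k)
    have h3 : C1 * Real.log z ≤ A * Real.log z := mul_le_mul_of_nonneg_right hAC1 (by linarith)
    linarith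
  have hGb : ∀ k : ℕ, 0 ≤ ‖u (Y h k)‖ ^ 2 ∧ ‖u (Y h k)‖ ^ 2 ≤ A := by
    intro k
    exact ⟨by positivity, (pow_le_pow_left₀ (norm_nonneg _) (hS.bd _) 2).trans hAC⟩
  have hYK1 : Y h (kk h y1) ≤ Real.exp L := a2.trans hy1'
  obtain ⟨k, hk1, -, hkl, hG1, -, hE1, -, hF1, -⟩ := hseq h (Real.log z) L
    (fun i => ‖u (Y h i)‖ ^ 2) (fun i => ‖u (Y h i)‖ ^ 2) (kk h y1) (kk h y1) hh
    (by linarith [hPm.h1, hPm.d1]) hL0
    (by rw [hzL]; exact mul_le_mul_of_nonneg_right hδa hL0.le) a1 a1 hGb hGb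
    (hDqlow _ hYK1) (hDqlow _ hYK1) a3 a3
  have hw0 : 0 < h * k := by
    by_contra hcon
    push Not at hcon
    have := mul_nonpos_of_nonneg_of_nonpos he0.le hcon
    linarith
  have hwl : Real.log z ≤ h * k := by
    have : e * (h * k) ≤ 1 * (h * k) := mul_le_mul_of_nonneg_right (heη.trans hη1) hw0.le
    linarith
  have hzy : z ≤ Y h k := by
    unfold Y
    calc z = Real.exp (Real.log z) := (Real.exp_log hzpos).symm
      _ ≤ _ := Real.exp_le_exp.2 hwl
  have hyL : Y h k ≤ Real.exp L := (hYmono k _ hk1).trans hYK1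
  obtain ⟨e2, he2⟩ : ∃ e2 : ℝ, e2 = (1 + C1 + C2) * e := ⟨_, rfl⟩
  have he20 : 0 < e2 := by rw [he2]; positivity
  have hee2 : e ≤ e2 := by
    rw [he2]
    have : 0 ≤ (C1 + C2) * e := by positivity
    linarith
  have hDD : DD z f u (Y h k) ≤ e2 * (h * k) := by
    have h1 := (abs_le.1 (hDq k hyL k le_rfl)).2
    have h2 : C1 * Real.log z ≤ C1 * (e * (h * k)) := mul_le_mul_of_nonneg_left hkl hC1.le
    have h3 : e2 * (h * k) = e * (h * k) + C1 * (e * (h * k)) + C2 * (e * (h * k)) := by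
      rw [he2]
      ring
    have h4 : 0 ≤ C2 * (e * (h * k)) := by positivity
    linarith
  have hSS : ∑ m ∈ Icc 1 ⌊Y h k⌋₊, La z m / m * DD z f u (Y h k / m) ≤ e2 * (h * k) ^ 2 := by
    have h1 := hdsum z L δ h f u hPm hS (Y h k) hzy hyL
    rw [rcore_kk h hh k, rcore_logY] at h1
    have h2 : C2 * Real.log z * (h * k) ≤ C2 * (e * (h * k)) * (h * k) := by
      apply mul_le_mul_of_nonneg_right _ hw0.le
      exact mul_le_mul_of_nonneg_left hkl hC2.le
    have h3 : e2 * (h * k) ^ 2 =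
        e * (h * k) ^ 2 + C2 * (e * (h * k)) * (h * k) + C1 * (e * (h * k) ^ 2) := by
      rw [he2]
      ring
    have h4 : h * ∑ i ∈ range k, Dh h u i ≤ e * (h * k) ^ 2 := hF1
    have h5 : 0 ≤ C1 * (e * (h * k) ^ 2) := by positivity
    linarith
  have hlz2 : Real.log z ≤ e2 * (h * k) :=
    hkl.trans (mul_le_mul_of_nonneg_right hee2 hw0.le)
  have hlam3 : lam / 3 ≤ ‖u (Y h k)‖ := by
    have h1 : lam ^ 2 / 4 / 2 ≤ ‖u (Y h k)‖ ^ 2 := hG1
    refine le_of_sq_le_sq ?_ (norm_nonneg _)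
    have h2 : (lam / 3) ^ 2 ≤ lam ^ 2 / 4 / 2 := by
      have := sq_nonneg lam
      nlinarith
    exact h2.trans h1
  obtain ⟨-, A2, A3⟩ := hgA e2 z L δ h f u he20 hPm hδA' hS hf k hyL hlz2 hlam3 hDD
  have B1 := hgB e2 z L δ h f u he20 hPm hδB' hS hf k hyL hlz2 hlam3 hDD hSS
  obtain ⟨E, hE⟩ : ∃ E : ℝ, E = Q * e := ⟨_, rfl⟩
  have hE0 : 0 < E := by rw [hE]; positivity
  have hE2 : E ≤ η ^ 2 := by rw [hE]; exact heQ
  have hE1' : E ≤ 1 := hE2.trans (hη22.trans hη1)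
  have hEA : CA * e2 ≤ E := by
    have h1 : E = CA * e2 + CB * e2 := by
      rw [hE, hQ, he2]
      ring
    have : 0 ≤ CB * e2 := by positivity
    linarith
  have hEB : CB * e2 ≤ E := by
    have h1 : E = CA * e2 + CB * e2 := by
      rw [hE, hQ, he2]
      ring
    have : 0 ≤ CA * e2 := by positivity
    linarith
  have htt : ∀ i, tt h u k i = 1 ∨ tt h u k i = -1 := by
    intro i
    unfold tt
    split_ifs
    · exact Or.inl rfl
    · exact Or.inr rfl
  have hk0 : (0 : ℝ) ≤ k := Nat.cast_nonneg k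
  have hcmb := cmb hE0 hE1' (tt h u k) htt k
    ((by convert B1 : _ ≤ CB * e2 * (k : ℝ) ^ 2).trans
      (mul_le_mul_of_nonneg_right hEB (sq_nonneg _)))
    ((by convert A2 : _ ≤ CA * e2 * (k : ℝ)).trans (mul_le_mul_of_nonneg_right hEA hk0))
  have hsE : Real.sqrt E ≤ η := by
    rw [Real.sqrt_le_left hη0.le]
    exact hE2
  refine ⟨Y h k, hzy, hyL, ?_, ?_⟩
  · rw [rcore_logY]
    refine hkl.trans (mul_le_mul_of_nonneg_right ?_ hw0.le)
    linarith
  · rw [rcore_logY]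
    have hN1 : 1 ≤ ⌊Y h k⌋₊ := Nat.le_floor (by exact_mod_cast hY1 k)
    have s1 : ∑ m ∈ (Icc 1 ⌊Y h k⌋₊).filter (fun m => f m ≠ -1), La z m / m =
        ∑ i ∈ range k, ∑ m ∈ Wn h i, (if f m ≠ -1 then La z m / m else 0) := by
      rw [← rcore_split h hYmono _ k, sum_filter]
      rw [Finset.Icc_eq_cons_Ioc hN1, sum_cons]
      rw [rcore_La_one]
      simp
    have s2 : ∀ i ∈ range k, ∑ m ∈ Wn h i, (if f m ≠ -1 then La z m / m else 0) ≤
        ∑ m ∈ (Wn h i).filter (fun m => f m ≠ -(tt h u k i : ℂ)), La z m / m +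
          (if tt h u k i ≠ 1 then 2 * h else 0) := by
      intro i hi
      by_cases ht : tt h u k i = 1
      · rw [if_neg (not_not.2 ht), add_zero, ht, sum_filter, Int.cast_one]
      · rw [if_pos ht]
        have h1 : ∑ m ∈ Wn h i, (if f m ≠ -1 then La z m / m else 0) ≤
            ∑ m ∈ Wn h i, La z m / m := by
          refine sum_le_sum fun m _ => ?_
          split_ifs
          · exact le_rfl
          · exact rcore_La_nonneg z m
        have h2 : ∑ m ∈ Wn h i, La z m / m ≤ 2 * h := by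
          have h3 := hPm.win1 (Y h i) (hY1 i) ((hYmono i k (mem_range.1 hi).le).trans hyL)
          rw [← rcore_Ys] at h3
          exact h3
        have h3 : 0 ≤ ∑ m ∈ (Wn h i).filter (fun m => f m ≠ -(tt h u k i : ℂ)), La z m / m :=
          sum_nonneg fun m _ => rcore_La_nonneg z m
        linarith
    have s3 : ∑ i ∈ range k, (if tt h u k i ≠ 1 then 2 * h else 0) =
        2 * h * (((range k).filter (fun i => tt h u k i ≠ 1)).card : ℝ) := by
      rw [← sum_filter, sum_const, nsmul_eq_mul]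
      ring
    rw [s1]
    refine (sum_le_sum s2).trans ?_
    rw [sum_add_distrib, s3]
    have t1 : CA * e2 * (h * k) ≤ η * (h * k) :=
      mul_le_mul_of_nonneg_right (hEA.trans (hE2.trans hη22)) hw0.le
    have t2 : 2 * h * (((range k).filter (fun i => tt h u k i ≠ 1)).card : ℝ) ≤
        2 * h * (6 * Real.sqrt E * k + 2) :=
      mul_le_mul_of_nonneg_left hcmb (by positivity)
    have t3 : 2 * h * (6 * Real.sqrt E * k + 2) ≤ 12 * (η * (h * k)) + 4 * h := by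
      have : Real.sqrt E * (h * k) ≤ η * (h * k) := mul_le_mul_of_nonneg_right hsE hw0.le
      have e1 : 2 * h * (6 * Real.sqrt E * k + 2) = 12 * (Real.sqrt E * (h * k)) + 4 * h := by ring
      rw [e1]
      linarith
    have t4 : h ≤ η * (h * k) := by
      have h1 : h ≤ Real.log z := by linarith [hPm.h1, hPm.d1]
      exact h1.trans (hkl.trans (mul_le_mul_of_nonneg_right heη hw0.le))
    have t5 : 17 * η * (h * k) ≤ ε * (h * k) := mul_le_mul_of_nonneg_right hη2 hw0.le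
    linarith

end Pool.MP_dd84fd_nt.RZ
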