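import Pool.Agent.Lib.MP_dd84fd_nt.RZ.AWin
import Pool.Agent.Lib.MP_dd84fd_nt.RZ.Inf
import Pool.Agent.Lib.MP_dd84fd_nt.ZR.Hz

/-!
# RZ-Top: all clauses for a property `P`, the moduli given by zeros

`QW M X d`: `d = r/h`, `h ≤ M`, `r` the conductor of a primitive character with a zero
`Re ρ ≥ 1 - M log log X/log X`, `|Im ρ| ≤ (log X)^M` (and a heavy interval); for `d < X^(1/M)` it is real
with a real zero `≥ 1 - M/log X`.  `D X`: the moduli at the scale `X`.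
-/

set_option autoImplicit false

namespace Pool.MP_dd84fd_nt.RZ

open Finset
open Pool.MP_dd84fd_nt.BX (PC pv IsPC)
open Pool.MP_dd84fd_nt.QZ (Hvy)

/-- a zero near `1` of small height -/
def CZero (M X r : ℕ) (χ : DirichletCharacter ℂ r) : Prop :=
  ∃ ρ : ℂ, 1 - M * Real.log (Real.log X) / Real.log X ≤ ρ.re ∧ ρ.re < 1 ∧
    |ρ.im| ≤ Real.log X ^ M ∧ ∃ _ : NeZero r, χ.LFunction ρ = 0

/-- `d = r/h`, `h ≤ M`, `r` the conductor of a primitive character with a zero near `1` -/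
def QW (M X d : ℕ) : Prop :=
  ∃ (r h : ℕ) (χ : DirichletCharacter ℂ r), χ.IsPrimitive ∧ 1 ≤ h ∧ h ≤ M ∧ d * h = r ∧
    Hvy (1 / (M : ℝ)) (1 / 11) M X ⟨r, χ⟩ ∧ CZero M X r χ ∧
    ((d : ℝ) < (X : ℝ) ^ (1 / (M : ℝ)) → χ ^ 2 = 1 ∧ RZero M X r χ)

theorem CZero.mono {M N X r : ℕ} {χ : DirichletCharacter ℂ r} (h : CZero M X r χ) (h1 : M ≤ N)
    (hL : 1 ≤ Real.log X) : CZero N X r χ := by
  obtain ⟨ρ, z1, z2, z3, z4⟩ := h
  refine ⟨ρ, le_trans ?_ z1, z2, z3.trans (pow_le_pow_right₀ hL h1), z4⟩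
  have e0 : 0 ≤ Real.log (Real.log X) := Real.log_nonneg hL
  have e1 : (M : ℝ) * Real.log (Real.log X) / Real.log X ≤
      N * Real.log (Real.log X) / Real.log X := by
    have : (M : ℝ) ≤ N := by exact_mod_cast h1
    gcongr
  linarith

/-- a divisor `d ≤ X^(1-θ)` of an `n ≤ X` with a prime factor `p > X^(1-θ)` is `≤ X/p` -/
theorem big_div {X : ℕ} {b : ℝ} {n p d : ℕ} (hn : 1 ≤ n) (hnX : n ≤ X) (hp : p.Prime)
    (hpn : p ∣ n) (hpX : b < p) (hd : (d : ℝ) ≤ b) (hdn : d ∣ n) : (d : ℝ) ≤ X / p := by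
  have hd0 : 0 < d := Nat.pos_of_dvd_of_pos hdn hn
  have h2 : d < p := by exact_mod_cast lt_of_le_of_lt hd hpX
  have h3 : Nat.Coprime p d := (Nat.Prime.coprime_iff_not_dvd hp).2 fun h =>
    absurd (Nat.le_of_dvd hd0 h) (by omega)
  have h4 : p * d ∣ n := h3.mul_dvd_of_dvd_of_dvd hpn hdn
  have h5 : p * d ≤ X := (Nat.le_of_dvd hn h4).trans hnX
  have h6 : (p : ℝ) * d ≤ X := by exact_mod_cast h5
  have hp0 : (0 : ℝ) < p := by exact_mod_cast hp.pos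
  rw [le_div_iff₀ hp0]
  linarith

open Classical in
/-- the clauses about the set `D` -/
def Mods (P : ℕ → Prop) (θ ε : ℝ) (M K X : ℕ) (D : Finset ℕ) : Prop :=
  D.card ≤ M ∧
    (∀ d ∈ D, Real.log X ^ K ≤ (d : ℝ) ∧ (d : ℝ) ≤ (X : ℝ) ^ (1 - θ) ∧ QW M X d) ∧
    (D.filter (fun d : ℕ => (d : ℝ) < (X : ℝ) ^ (1 / (M : ℝ)))).card ≤ 1 ∧
    (((Icc 1 X).filter (fun n : ℕ => X < 2 * n ∧ Even n ∧ (∀ d ∈ D, ¬ d ∣ n) ∧
      P n)).card : ℝ) ≤ (X : ℝ) ^ (θ + ε) ∧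
    (((Icc 1 X).filter (fun n : ℕ => X < 2 * n ∧ Even n ∧
      (∃ p : ℕ, p.Prime ∧ p ∣ n ∧ ((X : ℝ) / Real.log X ^ K < p ∨
        ((X : ℝ) ^ (1 - 1 / (M : ℝ)) < p ∧
          ∀ d ∈ D, (d : ℝ) < (X : ℝ) ^ (1 / (M : ℝ)) → ¬ d ∣ n))) ∧ P n)).card : ℝ) ≤
        (X : ℝ) ^ (θ + ε)

open Classical in
theorem top {P : ℕ → Prop} {θ ε : ℝ} (hθ : 0 < θ) (hε : 0 < ε) (M0 M N1 N2 : ℕ)
    (hM01 : 1 ≤ M0) (hM : 2 * M0 + N1 + N2 + 1 ≤ M) (hMθ : 1 / (M : ℝ) ≤ θ)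
    (hinf : ∀ X1 : ℕ, ∃ X : ℕ, X1 ≤ X ∧
      ∀ d : ℕ, 2 ≤ d → (d : ℝ) < (X : ℝ) ^ (1 / (N1 : ℝ)) → ¬ QX M0 X d)
    (hN1 : 1 ≤ N1)
    (hzero : ∃ X0 : ℕ, ∀ X : ℕ, X0 ≤ X →
      ∀ ψ : PC, IsPC ψ → 2 ≤ ψ.1 → ψ.1 ≤ X → Hvy (1 / (M0 : ℝ)) (1 / 11) M0 X ψ →
      CZero N2 X ψ.1 ψ.2)
    (hres : ∀ K : ℕ, ∃ X₀ : ℕ, ∀ X : ℕ, X₀ ≤ X → ∃ D : Finset ℕ, D.card ≤ M0 ∧
        (∀ d ∈ D, Real.log X ^ K ≤ (d : ℝ) ∧ (d : ℝ) ≤ (X : ℝ) ^ (1 - θ) ∧ QX M0 X d) ∧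
        (D.filter (fun d : ℕ => (d : ℝ) < (X : ℝ) ^ (1 / (M0 : ℝ)))).card ≤ 1 ∧
        (((Icc 1 X).filter (fun n : ℕ => X < 2 * n ∧ Even n ∧ (∀ d ∈ D, ¬ d ∣ n) ∧
          P n)).card : ℝ) ≤ (X : ℝ) ^ (θ + ε / 4)) (K : ℕ) :
    ∃ D : ℕ → Finset ℕ, (∃ X₀ : ℕ, ∀ X : ℕ, X₀ ≤ X → WinC P θ ε M K X ∧
      Mods P θ ε M K X (D X)) ∧
      ∀ X₁ : ℕ, ∃ X : ℕ, X₁ ≤ X ∧ ∀ d ∈ D X, (X : ℝ) ^ (1 / (M : ℝ)) ≤ d := by
  obtain ⟨X1, hX1⟩ := hres (K + 1)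
  obtain ⟨X2, hX2⟩ := comb (P := P) hθ hε M0 M (by omega) hMθ hres K
  obtain ⟨X3, hX3⟩ := hzero
  have ht3 : Filter.Tendsto (fun X : ℕ => Real.log (X : ℝ)) Filter.atTop Filter.atTop :=
    Real.tendsto_log_atTop.comp tendsto_natCast_atTop_atTop
  obtain ⟨X4, hX4⟩ := Filter.eventually_atTop.1 (ht3.eventually_ge_atTop (2 : ℝ))
  have hev5 : ∀ᶠ X : ℕ in Filter.atTop, (M0 : ℝ) ≤ (X : ℝ) ^ θ :=
    (((tendsto_rpow_atTop hθ).comp tendsto_natCast_atTop_atTop).eventually_ge_atTop (M0 : ℝ))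
  obtain ⟨X5, hX5⟩ := Filter.eventually_atTop.1 hev5
  have hev6 : ∀ᶠ X : ℕ in Filter.atTop, Real.log X ^ K ≤ (X : ℝ) ^ (θ / 2) := by
    have h := (isLittleO_log_rpow_rpow_atTop (s := θ / 2) (K : ℝ) (by linarith)).bound
      (show (0 : ℝ) < 1 by norm_num)
    have h2 := (tendsto_natCast_atTop_atTop (R := ℝ)).eventually h
    filter_upwards [h2, Filter.eventually_ge_atTop 1] with X h3 hX
    have hX1 : (1 : ℝ) ≤ X := by exact_mod_cast hX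
    rw [Real.rpow_natCast, Real.norm_eq_abs, Real.norm_eq_abs, one_mul,
      abs_of_nonneg (Real.rpow_nonneg (by linarith) _)] at h3
    exact (le_abs_self _).trans h3
  obtain ⟨X6, hX6⟩ := Filter.eventually_atTop.1 hev6
  -- the sets
  set Z : ℕ := max (max X1 X2) (max (max X3 X4) (max (max X5 X6) 2)) with hZ
  have hex : ∀ X : ℕ, Z ≤ X → ∃ D : Finset ℕ, D.card ≤ M0 ∧
        (∀ d ∈ D, Real.log X ^ (K + 1) ≤ (d : ℝ) ∧ (d : ℝ) ≤ (X : ℝ) ^ (1 - θ) ∧ QX M0 X d) ∧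
        (D.filter (fun d : ℕ => (d : ℝ) < (X : ℝ) ^ (1 / (M0 : ℝ)))).card ≤ 1 ∧
        (((Icc 1 X).filter (fun n : ℕ => X < 2 * n ∧ Even n ∧ (∀ d ∈ D, ¬ d ∣ n) ∧
          P n)).card : ℝ) ≤ (X : ℝ) ^ (θ + ε / 4) := by
    intro X hX
    simp only [hZ, max_le_iff] at hX
    exact hX1 X hX.1.1
  set D : ℕ → Finset ℕ := fun X => if h : Z ≤ X then (hex X h).choose else ∅ with hD
  have hDs : ∀ X : ℕ, ∀ h : Z ≤ X, (D X).card ≤ M0 ∧
        (∀ d ∈ D X, Real.log X ^ (K + 1) ≤ (d : ℝ) ∧ (d : ℝ) ≤ (X : ℝ) ^ (1 - θ) ∧ QX M0 X d) ∧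
        ((D X).filter (fun d : ℕ => (d : ℝ) < (X : ℝ) ^ (1 / (M0 : ℝ)))).card ≤ 1 ∧
        (((Icc 1 X).filter (fun n : ℕ => X < 2 * n ∧ Even n ∧ (∀ d ∈ D X, ¬ d ∣ n) ∧
          P n)).card : ℝ) ≤ (X : ℝ) ^ (θ + ε / 4) := by
    intro X h
    have h1 := (hex X h).choose_spec
    simp only [hD, dif_pos h]
    exact h1
  refine ⟨D, ⟨Z, fun X hX => ?_⟩, fun X₁ => ?_⟩
  · obtain ⟨d1, d2, d3, d4⟩ := hDs X hX
    simp only [hZ, max_le_iff] at hX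
    obtain ⟨⟨x1, x2⟩, ⟨x3, x4⟩, ⟨x5, x6⟩, x7⟩ := hX
    have hX1R : (1 : ℝ) ≤ X := by
      have : 1 ≤ X := by omega
      exact_mod_cast this
    have hXp : (0 : ℝ) < X := by linarith
    have hL : 2 ≤ Real.log X := hX4 X x4
    have hL1 : 1 ≤ Real.log X := by linarith
    have hpow : ∀ {a b : ℝ}, a ≤ b → (X : ℝ) ^ a ≤ (X : ℝ) ^ b := fun h =>
      Real.rpow_le_rpow_of_exponent_le hX1R h
    have hM0p : (0 : ℝ) < (M0 : ℝ) := by exact_mod_cast hM01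
    have hMR : (M0 : ℝ) ≤ M := by
      have : M0 ≤ M := by omega
      exact_mod_cast this
    have hexc : (((Icc 1 X).filter (fun n : ℕ => X < 2 * n ∧ Even n ∧ (∀ d ∈ D X, ¬ d ∣ n) ∧
        P n)).card : ℝ) ≤ (X : ℝ) ^ (θ + ε) := d4.trans (hpow (by linarith))
    have hKK : Real.log X ^ K ≤ Real.log X ^ (K + 1) := pow_le_pow_right₀ hL1 (by omega)
    refine ⟨(hX2 X x2).1, by omega, fun d hd => ?_, ?_, hexc, le_trans ?_ hexc⟩
    · obtain ⟨e1, e2, e3⟩ := d2 d hd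
      refine ⟨hKK.trans e1, e2, ?_⟩
      obtain ⟨r, h, χ, g1, g2, g3, g4, g5, g6⟩ := e3.mono (show M0 ≤ M by omega) (by omega) hL1
      obtain ⟨r', h', χ', g1', g2', g3', g4', g5', g6'⟩ := e3
      have hd2 : (2 : ℝ) ≤ d := by
        refine le_trans ?_ e1
        calc (2 : ℝ) ≤ Real.log X := hL
          _ = Real.log X ^ 1 := (pow_one _).symm
          _ ≤ Real.log X ^ (K + 1) := pow_le_pow_right₀ hL1 (by omega)
      have hd2' : 2 ≤ d := by exact_mod_cast hd2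
      have hr2 : 2 ≤ r' := by
        rw [← g4']
        calc 2 ≤ d := hd2'
          _ = d * 1 := (mul_one d).symm
          _ ≤ d * h' := Nat.mul_le_mul_left d g2'
      have hrX : r' ≤ X := by
        have e5 : ((d * h' : ℕ) : ℝ) ≤ X := by
          push_cast
          have hh : (h' : ℝ) ≤ M0 := by exact_mod_cast g3'
          calc (d : ℝ) * h' ≤ (X : ℝ) ^ (1 - θ) * M0 := by
                apply mul_le_mul e2 hh (Nat.cast_nonneg _) (Real.rpow_nonneg hXp.le _)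
            _ ≤ (X : ℝ) ^ (1 - θ) * (X : ℝ) ^ θ := by
                apply mul_le_mul_of_nonneg_left (hX5 X x5) (Real.rpow_nonneg hXp.le _)
            _ = X := by rw [← Real.rpow_add hXp]; simp
        rw [g4'] at e5
        exact_mod_cast e5
      have hz := (hX3 X x3 ⟨r', χ'⟩ ⟨by simp only; omega, g1'⟩ hr2 hrX g5').mono
        (show N2 ≤ M by omega) hL1
      refine ⟨r', h', χ', g1', g2', by omega, g4', g5'.mono ?_ le_rfl (by omega) hL1, hz,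
        fun hs => ?_⟩
      · exact one_div_le_one_div_of_le hM0p hMR
      · obtain ⟨k1, k2⟩ := g6' (lt_of_lt_of_le hs (hpow (one_div_le_one_div_of_le hM0p hMR)))
        exact ⟨k1, k2.mono (by omega) (by linarith)⟩
    · refine le_trans (card_le_card fun d hd => ?_) d3
      rw [mem_filter] at hd ⊢
      exact ⟨hd.1, lt_of_lt_of_le hd.2 (hpow (one_div_le_one_div_of_le hM0p hMR))⟩
    · refine Nat.cast_le.2 (card_le_card fun n hn => ?_)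
      rw [mem_filter, mem_Icc] at hn ⊢
      obtain ⟨⟨n1, n2⟩, n3, n4, ⟨p, p1, p2, p3⟩, n6⟩ := hn
      refine ⟨⟨n1, n2⟩, n3, n4, fun d hd hdn => ?_, n6⟩
      obtain ⟨e1, e2, e3⟩ := d2 d hd
      have hp0 : (0 : ℝ) < p := by exact_mod_cast p1.pos
      rcases p3 with hb | ⟨hb, hno⟩
      · have hlk : (0 : ℝ) < Real.log X ^ K := by positivity
        have hlow : (X : ℝ) ^ (1 - θ) < p := by
          refine lt_of_le_of_lt ?_ hb
          rw [le_div_iff₀ hlk]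
          calc (X : ℝ) ^ (1 - θ) * Real.log X ^ K ≤ (X : ℝ) ^ (1 - θ) * (X : ℝ) ^ (θ / 2) := by
                apply mul_le_mul_of_nonneg_left (hX6 X x6) (Real.rpow_nonneg hXp.le _)
            _ = (X : ℝ) ^ (1 - θ + θ / 2) := by rw [← Real.rpow_add hXp]
            _ ≤ (X : ℝ) ^ (1 : ℝ) := hpow (by linarith)
            _ = X := Real.rpow_one _
        have h7 := big_div n1 n2 p1 p2 hlow e2 hdn
        have h8 : (X : ℝ) / p < Real.log X ^ K := by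
          rw [div_lt_iff₀ hp0]
          rw [div_lt_iff₀ hlk] at hb
          linarith
        linarith [hKK.trans e1]
      · exact hno d hd (Pool.MP_dd84fd_nt.XP.big_at hMθ (by omega) n1 n2 p1 p2 hb e2 hdn) hdn
  · obtain ⟨X, hX, hno⟩ := hinf (max X₁ Z)
    rw [max_le_iff] at hX
    refine ⟨X, hX.1, fun d hd => ?_⟩
    by_contra hcon
    push Not at hcon
    obtain ⟨d1, d2, d3, d4⟩ := hDs X hX.2
    have hX' := hX.2
    simp only [hZ, max_le_iff] at hX'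
    obtain ⟨⟨x1, x2⟩, ⟨x3, x4⟩, ⟨x5, x6⟩, x7⟩ := hX'
    have hX1R : (1 : ℝ) ≤ X := by
      have : 1 ≤ X := by omega
      exact_mod_cast this
    have hL : 2 ≤ Real.log X := hX4 X x4
    have hL1 : 1 ≤ Real.log X := by linarith
    obtain ⟨e1, e2, e3⟩ := d2 d hd
    have hd2 : (2 : ℝ) ≤ d := by
      refine le_trans ?_ e1
      calc (2 : ℝ) ≤ Real.log X := hL
        _ = Real.log X ^ 1 := (pow_one _).symm
        _ ≤ Real.log X ^ (K + 1) := pow_le_pow_right₀ hL1 (by omega)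
    have hd2' : 2 ≤ d := by exact_mod_cast hd2
    refine hno d hd2' (lt_of_lt_of_le hcon ?_) e3
    refine Real.rpow_le_rpow_of_exponent_le hX1R (one_div_le_one_div_of_le ?_ ?_)
    · exact_mod_cast hN1
    · have : N1 ≤ M := by omega
      exact_mod_cast this

end Pool.MP_dd84fd_nt.RZ
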