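import Pool.Agent.Lib.MP_dd84fd_nt.RZ.Top

/-!
# RZ-TopS: the final statements for the exponents 1/7 and 1/5
-/

set_option autoImplicit false

namespace Pool.MP_dd84fd_nt.RZ

open Finset Pool.MP_67663b_nt.Odd Pool.MP_dd84fd_nt.En Pool.MP_dd84fd_nt.E2
open Pool.MP_dd84fd_nt.LX Pool.MP_dd84fd_nt.MX
open Pool.MP_dd84fd_nt.BX (PC pv IsPC)
open Pool.MP_dd84fd_nt.QZ (Hvy)

open Classical in
/-- the constant `M0` may be increased by one -/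
theorem up_one {P : ℕ → Prop} {θ b : ℝ} {M0 : ℕ}
    (hres : ∀ K : ℕ, ∃ X₀ : ℕ, ∀ X : ℕ, X₀ ≤ X → ∃ D : Finset ℕ, D.card ≤ M0 ∧
        (∀ d ∈ D, Real.log X ^ K ≤ (d : ℝ) ∧ (d : ℝ) ≤ (X : ℝ) ^ (1 - θ) ∧ QX M0 X d) ∧
        (D.filter (fun d : ℕ => (d : ℝ) < (X : ℝ) ^ (1 / (M0 : ℝ)))).card ≤ 1 ∧
        (((Icc 1 X).filter (fun n : ℕ => X < 2 * n ∧ Even n ∧ (∀ d ∈ D, ¬ d ∣ n) ∧
          P n)).card : ℝ) ≤ (X : ℝ) ^ b) :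
    ∀ K : ℕ, ∃ X₀ : ℕ, ∀ X : ℕ, X₀ ≤ X → ∃ D : Finset ℕ, D.card ≤ M0 + 1 ∧
        (∀ d ∈ D, Real.log X ^ K ≤ (d : ℝ) ∧ (d : ℝ) ≤ (X : ℝ) ^ (1 - θ) ∧
          QX (M0 + 1) X d) ∧
        (D.filter (fun d : ℕ => (d : ℝ) < (X : ℝ) ^ (1 / ((M0 + 1 : ℕ) : ℝ)))).card ≤ 1 ∧
        (((Icc 1 X).filter (fun n : ℕ => X < 2 * n ∧ Even n ∧ (∀ d ∈ D, ¬ d ∣ n) ∧
          P n)).card : ℝ) ≤ (X : ℝ) ^ b := by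
  intro K
  obtain ⟨X1, hX1⟩ := hres K
  have ht3 : Filter.Tendsto (fun X : ℕ => Real.log (X : ℝ)) Filter.atTop Filter.atTop :=
    Real.tendsto_log_atTop.comp tendsto_natCast_atTop_atTop
  obtain ⟨X4, hX4⟩ := Filter.eventually_atTop.1 (ht3.eventually_ge_atTop (1 : ℝ))
  refine ⟨max X1 (max X4 1), fun X hX => ?_⟩
  simp only [max_le_iff] at hX
  obtain ⟨x1, x4, x5⟩ := hX
  have hX1R : (1 : ℝ) ≤ X := by exact_mod_cast x5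
  have hL1 : 1 ≤ Real.log X := hX4 X x4
  obtain ⟨D, d1, d2, d3, d4⟩ := hX1 X x1
  refine ⟨D, by omega, fun d hd => ⟨(d2 d hd).1, (d2 d hd).2.1, ?_⟩, ?_, d4⟩
  · exact ((d2 d hd).2.2).mono (by omega) (by omega) hL1
  · refine le_trans (card_le_card fun d hd => ?_) d3
    rw [mem_filter] at hd ⊢
    have hM0p : 0 < M0 := by
      obtain ⟨r, k, χ, -, g2, g3, -⟩ := (d2 d hd.1).2.2
      omega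
    have h0 : (0 : ℝ) < (M0 : ℝ) := by exact_mod_cast hM0p
    refine ⟨hd.1, lt_of_lt_of_le hd.2 (Real.rpow_le_rpow_of_exponent_le hX1R
      (one_div_le_one_div_of_le h0 ?_))⟩
    push_cast
    linarith

/-- the constant for `M0` -/
theorem const (M0 : ℕ) (h0 : 1 ≤ M0) : ∃ N1 N2 : ℕ, 1 ≤ N1 ∧
    (∀ X1 : ℕ, ∃ X : ℕ, X1 ≤ X ∧
      ∀ d : ℕ, 2 ≤ d → (d : ℝ) < (X : ℝ) ^ (1 / (N1 : ℝ)) → ¬ QX M0 X d) ∧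
    (∃ X0 : ℕ, ∀ X : ℕ, X0 ≤ X →
      ∀ ψ : PC, IsPC ψ → 2 ≤ ψ.1 → ψ.1 ≤ X → Hvy (1 / (M0 : ℝ)) (1 / 11) M0 X ψ →
      CZero N2 X ψ.1 ψ.2) := by
  obtain ⟨N1, h1, h2⟩ := inf_m M0 h0
  have hM0R : (0 : ℝ) < M0 := by exact_mod_cast h0
  obtain ⟨N2, X0, h3⟩ := Pool.MP_dd84fd_nt.ZR.hvy_zero (1 / (M0 : ℝ)) M0 (by positivity)
  exact ⟨N1, N2, h0.trans h1, h2, X0, fun X hX ψ a b c d => h3 X hX ψ a b c d⟩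

open Classical in
/-- exponent 1/7 -/
theorem top7 (hG : Pool.MP_dd84fd_nt.QZ.GrQ) : ∀ ε : ℝ, 0 < ε → ∃ M : ℕ, ∀ θ : ℝ, 1 / 7 ≤ θ →
    θ ≤ 1 → ∀ K : ℕ, ∃ D : ℕ → Finset ℕ, (∃ X₀ : ℕ, ∀ X : ℕ, X₀ ≤ X →
      WinC (BadM (1 / 40) 2) θ ε M K X ∧
      (∀ N : Finset ℕ, (∀ n ∈ N, 1 ≤ n ∧ n ≤ X ∧ Even n) →
        (∀ n ∈ N, ∀ m ∈ N, n ≠ m → (Nat.gcd n m : ℝ) < Real.log X ^ K) →
        ((N.filter (fun n => BadM (1 / 40) 2 n)).card : ℝ) ≤ (X : ℝ) ^ (θ + ε)) ∧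
      Mods (BadM (1 / 40) 2) θ ε M K X (D X)) ∧
      ∀ X₁ : ℕ, ∃ X : ℕ, X₁ ≤ X ∧ ∀ d ∈ D X, (X : ℝ) ^ (1 / (M : ℝ)) ≤ d := by
  intro ε hε
  obtain ⟨M0, hM0⟩ := resX_m hG (ε / 4) (by linarith)
  obtain ⟨N1, N2, c1, c2, c3⟩ := const (M0 + 1) (by omega)
  refine ⟨2 * (M0 + 1) + N1 + N2 + 7, fun θ t1 t2 K => ?_⟩
  have hMθ : 1 / ((2 * (M0 + 1) + N1 + N2 + 7 : ℕ) : ℝ) ≤ θ := by
    refine le_trans ?_ t1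
    refine one_div_le_one_div_of_le (by norm_num) ?_
    have : 7 ≤ 2 * (M0 + 1) + N1 + N2 + 7 := by omega
    exact_mod_cast this
  obtain ⟨D, ⟨X1, hX1⟩, hD⟩ := top (P := BadM (1 / 40) 2) (θ := θ) (ε := ε) (by linarith) hε
    (M0 + 1) (2 * (M0 + 1) + N1 + N2 + 7) N1 N2 (by omega) (by omega) hMθ c2 c1 c3
    (up_one (fun K => by
      obtain ⟨Y, hY⟩ := hM0 θ t1 t2 K
      exact ⟨Y, fun X hX => (hY X hX).2⟩)) K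
  obtain ⟨X2, hX2⟩ := Pool.MP_dd84fd_nt.XP.fam_m θ ε t1 t2 hε K
  refine ⟨D, ⟨max X1 X2, fun X hX => ?_⟩, hD⟩
  simp only [max_le_iff] at hX
  exact ⟨(hX1 X hX.1).1, hX2 X hX.2, (hX1 X hX.1).2⟩

open Classical in
/-- exponent 1/5 -/
theorem top5 (hG : Pool.MP_dd84fd_nt.QZ.GrQ) : ∀ θ ε : ℝ, 1 / 5 ≤ θ → θ < 1 / 3 → 0 < ε →
    ∃ M : ℕ, ∀ K : ℕ, ∃ D : ℕ → Finset ℕ, (∃ X₀ : ℕ, ∀ X : ℕ, X₀ ≤ X →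
      WinC (BadL 4 θ) θ ε M K X ∧
      (∀ N : Finset ℕ, (∀ n ∈ N, 1 ≤ n ∧ n ≤ X ∧ Even n) →
        (∀ n ∈ N, ∀ m ∈ N, n ≠ m → (Nat.gcd n m : ℝ) < Real.log X ^ K) →
        ((N.filter (fun n => BadL 4 θ n)).card : ℝ) ≤ (X : ℝ) ^ (θ + ε)) ∧
      Mods (BadL 4 θ) θ ε M K X (D X)) ∧
      ∀ X₁ : ℕ, ∃ X : ℕ, X₁ ≤ X ∧ ∀ d ∈ D X, (X : ℝ) ^ (1 / (M : ℝ)) ≤ d := by
  intro θ ε t1 t2 hε
  obtain ⟨M0, hM0⟩ := resX_l hG θ (ε / 4) t1 t2 (by linarith)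
  obtain ⟨N1, N2, c1, c2, c3⟩ := const (M0 + 1) (by omega)
  refine ⟨2 * (M0 + 1) + N1 + N2 + 5, fun K => ?_⟩
  have hMθ : 1 / ((2 * (M0 + 1) + N1 + N2 + 5 : ℕ) : ℝ) ≤ θ := by
    refine le_trans ?_ t1
    refine one_div_le_one_div_of_le (by norm_num) ?_
    have : 5 ≤ 2 * (M0 + 1) + N1 + N2 + 5 := by omega
    exact_mod_cast this
  obtain ⟨D, ⟨X1, hX1⟩, hD⟩ := top (P := BadL 4 θ) (θ := θ) (ε := ε) (by linarith) hε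
    (M0 + 1) (2 * (M0 + 1) + N1 + N2 + 5) N1 N2 (by omega) (by omega) hMθ c2 c1 c3
    (up_one (fun K => by
      obtain ⟨Y, hY⟩ := hM0 K
      exact ⟨Y, fun X hX => (hY X hX).2⟩)) K
  obtain ⟨X2, hX2⟩ := Pool.MP_dd84fd_nt.XP.fam_l θ ε t1 t2 hε K
  refine ⟨D, ⟨max X1 X2, fun X hX => ?_⟩, hD⟩
  simp only [max_le_iff] at hX
  exact ⟨(hX1 X hX.1).1, hX2 X hX.2, (hX1 X hX.1).2⟩

end Pool.MP_dd84fd_nt.RZ
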